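import Pool.Agent.H222.ER.PolyE
import Pool.Agent.H222.EX.Strong

/-!
Comparison of the two forms of the extension operator in `ℝ³`.
-/

open MeasureTheory Set Filter Metric
open scoped ENNReal NNReal Topology

namespace Pool.Agent.H222.ER

open Pool.Agent.Helper184.PH

/-- the change of variables -/
noncomputable def L3 : E 3 ≃ₗ[ℝ] (E 2 × ℝ) where
  toFun ζ := (!₂[-(2 * Real.pi)⁻¹ * ζ 0, -(2 * Real.pi)⁻¹ * ζ 1], -(2 * Real.pi)⁻¹ * ζ 2)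
  invFun x := !₂[-(2 * Real.pi) * x.1 0, -(2 * Real.pi) * x.1 1, -(2 * Real.pi) * x.2]
  map_add' v w := by
    ext i
    · fin_cases i <;> simp <;> ring
    · simp; ring
  map_smul' c v := by
    ext i
    · fin_cases i <;> simp <;> ring
    · simp; ring
  left_inv v := by
    have := Real.pi_ne_zero
    ext i
    fin_cases i <;> simp <;> field_simp
  right_inv v := by
    have := Real.pi_ne_zero
    ext i
    · fin_cases i <;> simp <;> field_simp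
    · simp; field_simp

theorem lint_L3 : ∃ c : ℝ≥0∞, c ≠ 0 ∧ c ≠ ∞ ∧ ∀ F : E 2 × ℝ → ℝ≥0∞, Measurable F →
    ∫⁻ ζ, F (L3 ζ) = c * ∫⁻ x, F x := by
  set L := L3.toContinuousLinearEquiv with hL
  have h1 : Measure.IsAddHaarMeasure (Measure.map L (volume : Measure (E 3))) :=
    ContinuousLinearEquiv.isAddHaarMeasure_map L _
  have h2 := Measure.isAddLeftInvariant_eq_smul (Measure.map L (volume : Measure (E 3)))
    (volume : Measure (E 2 × ℝ))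
  refine ⟨(Measure.addHaarScalarFactor (Measure.map L (volume : Measure (E 3)))
    (volume : Measure (E 2 × ℝ)) : ℝ≥0), ?_, ENNReal.coe_ne_top, fun F hF => ?_⟩
  · exact_mod_cast (Measure.addHaarScalarFactor_pos_of_isAddHaarMeasure _ _).ne'
  · have h3 := lintegral_map (μ := (volume : Measure (E 3))) hF L.continuous.measurable
    rw [h2] at h3
    have h4 : ∫⁻ ζ, F (L3 ζ) = ∫⁻ a, F (L a) := rfl
    rw [h4, ← h3, lintegral_smul_measure, ENNReal.smul_def, smul_eq_mul]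

theorem L3_le (ζ : E 3) : ‖L3 ζ‖ ≤ ‖ζ‖ := by
  have hπ := Real.pi_gt_three
  have h0 := norm_nonneg ζ
  have hs : ‖ζ‖ ^ 2 = ζ 0 ^ 2 + ζ 1 ^ 2 + ζ 2 ^ 2 := by
    rw [EuclideanSpace.norm_sq_eq]
    simp [Fin.sum_univ_three]
  have hc : (2 * Real.pi)⁻¹ ≤ 1 := inv_le_one_of_one_le₀ (by linarith)
  have hc0 : 0 ≤ (2 * Real.pi)⁻¹ := by positivity
  have hc2 : ((2 * Real.pi)⁻¹) ^ 2 ≤ 1 := pow_le_one₀ hc0 hc
  rw [Prod.norm_def, max_le_iff]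
  constructor
  · refine abs_le_of_sq_le_sq' ?_ h0 |>.2
    rw [hs, EuclideanSpace.norm_sq_eq]
    simp only [L3, LinearEquiv.coe_mk, LinearMap.coe_mk, AddHom.coe_mk, Fin.sum_univ_two,
      Real.norm_eq_abs, sq_abs, Matrix.cons_val_zero, Matrix.cons_val_one]
    have e1 : (-(2 * Real.pi)⁻¹ * ζ 0) ^ 2 = ((2 * Real.pi)⁻¹) ^ 2 * ζ 0 ^ 2 := by ring
    have e2 : (-(2 * Real.pi)⁻¹ * ζ 1) ^ 2 = ((2 * Real.pi)⁻¹) ^ 2 * ζ 1 ^ 2 := by ring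
    simp only [e1, e2]
    nlinarith [sq_nonneg (ζ 0), sq_nonneg (ζ 1), sq_nonneg (ζ 2),
      mul_le_mul_of_nonneg_right hc2 (sq_nonneg (ζ 0)),
      mul_le_mul_of_nonneg_right hc2 (sq_nonneg (ζ 1))]
  · refine abs_le_of_sq_le_sq' ?_ h0 |>.2
    have e3 : ‖(L3 ζ).2‖ ^ 2 = ((2 * Real.pi)⁻¹) ^ 2 * ζ 2 ^ 2 := by
      have : (L3 ζ).2 = -(2 * Real.pi)⁻¹ * ζ 2 := rfl
      rw [this, Real.norm_eq_abs, sq_abs]; ring
    rw [hs, e3]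
    nlinarith [sq_nonneg (ζ 0), sq_nonneg (ζ 1), sq_nonneg (ζ 2),
      mul_le_mul_of_nonneg_right hc2 (sq_nonneg (ζ 2))]

theorem L3_ge (ζ : E 3) : ‖ζ‖ ≤ 14 * ‖L3 ζ‖ := by
  have hπ := Real.pi_gt_three
  have hπ4 := Real.pi_lt_d2
  have h0 := norm_nonneg (L3 ζ)
  have hs : ‖ζ‖ ^ 2 = ζ 0 ^ 2 + ζ 1 ^ 2 + ζ 2 ^ 2 := by
    rw [EuclideanSpace.norm_sq_eq]
    simp [Fin.sum_univ_three]
  have h1 : ‖(L3 ζ).1‖ ^ 2 ≤ ‖L3 ζ‖ ^ 2 := pow_le_pow_left₀ (norm_nonneg _) (norm_fst_le _) 2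
  have h2 : ‖(L3 ζ).2‖ ^ 2 ≤ ‖L3 ζ‖ ^ 2 := pow_le_pow_left₀ (norm_nonneg _) (norm_snd_le _) 2
  have e1 : ‖(L3 ζ).1‖ ^ 2 = ((2 * Real.pi)⁻¹) ^ 2 * (ζ 0 ^ 2 + ζ 1 ^ 2) := by
    rw [EuclideanSpace.norm_sq_eq]
    simp only [L3, LinearEquiv.coe_mk, LinearMap.coe_mk, AddHom.coe_mk, Fin.sum_univ_two,
      Real.norm_eq_abs, sq_abs, Matrix.cons_val_zero, Matrix.cons_val_one]
    ring
  have e3 : ‖(L3 ζ).2‖ ^ 2 = ((2 * Real.pi)⁻¹) ^ 2 * ζ 2 ^ 2 := by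
    have : (L3 ζ).2 = -(2 * Real.pi)⁻¹ * ζ 2 := rfl
    rw [this, Real.norm_eq_abs, sq_abs]; ring
  rw [e1] at h1
  rw [e3] at h2
  have h3 : ‖ζ‖ ^ 2 ≤ (2 * Real.pi) ^ 2 * (2 * ‖L3 ζ‖ ^ 2) := by
    have h4 : ((2 * Real.pi)⁻¹) ^ 2 * ‖ζ‖ ^ 2 ≤ 2 * ‖L3 ζ‖ ^ 2 := by rw [hs]; linarith
    calc ‖ζ‖ ^ 2 = (2 * Real.pi) ^ 2 * (((2 * Real.pi)⁻¹) ^ 2 * ‖ζ‖ ^ 2) := by
          field_simp
      _ ≤ _ := by gcongr
  have h5 : (2 * Real.pi) ^ 2 * 2 ≤ 14 ^ 2 := by nlinarith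
  refine abs_le_of_sq_le_sq' ?_ (by positivity) |>.2
  calc ‖ζ‖ ^ 2 ≤ (2 * Real.pi) ^ 2 * (2 * ‖L3 ζ‖ ^ 2) := h3
    _ = ((2 * Real.pi) ^ 2 * 2) * ‖L3 ζ‖ ^ 2 := by ring
    _ ≤ 14 ^ 2 * ‖L3 ζ‖ ^ 2 := by gcongr
    _ = (14 * ‖L3 ζ‖) ^ 2 := by ring

theorem K3_eq (x : E 2) (ζ : E 3) : P3.K3 x ζ = KP x (L3 ζ) := by
  have hπ := Real.pi_ne_zero
  unfold P3.K3 KP
  rw [P3.inner_Phi, ← Complex.ofReal_neg]
  congr 3
  have e1 : inner ℝ x (L3 ζ).1 = -(2 * Real.pi)⁻¹ * (x 0 * ζ 0 + x 1 * ζ 1) := by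
    simp [L3, PiLp.inner_apply, Fin.sum_univ_two]
    ring
  have e2 : ‖x‖ ^ 2 = x 0 ^ 2 + x 1 ^ 2 := by
    rw [EuclideanSpace.norm_sq_eq]
    simp [Fin.sum_univ_two]
  have e3 : (L3 ζ).2 = -(2 * Real.pi)⁻¹ * ζ 2 := rfl
  rw [e1, e2, e3]
  field_simp
  ring

theorem TT_eq3 (f : E 2 → ℂ) (ζ : E 3) : EX.TT f ζ = TT f (L3 ζ) := by
  unfold EX.TT TT
  simp only [K3_eq]

/-- comparison of local norms -/
theorem NN3 {q : ℝ} : ∃ c : ℝ≥0∞, c ≠ 0 ∧ c ≠ ∞ ∧ ∀ f : E 2 → ℂ, Integrable f → ∀ R : ℝ,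
    (∫⁻ ζ in ball (0 : E 3) R, ‖EX.TT f ζ‖ₑ ^ q) ≤ c * NN q (BB 2 R) f ∧
    c * NN q (BB 2 R) f ≤ ∫⁻ ζ in ball (0 : E 3) (15 * R + 1), ‖EX.TT f ζ‖ₑ ^ q := by
  obtain ⟨c, hc0, hct, hc⟩ := lint_L3
  refine ⟨c, hc0, hct, fun f hf R => ?_⟩
  have hF : Measurable ((BB 2 R).indicator fun x => ‖TT f x‖ₑ ^ q) :=
    ((TT_meas hf).pow_const q).indicator (BB_meas R)
  have h1 : c * NN q (BB 2 R) f = ∫⁻ ζ, (BB 2 R).indicator (fun x => ‖TT f x‖ₑ ^ q) (L3 ζ) := by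
    rw [hc _ hF, lintegral_indicator (BB_meas R)]; rfl
  rw [h1]
  constructor
  · rw [← lintegral_indicator measurableSet_ball]
    refine lintegral_mono fun ζ => ?_
    by_cases hζ : ζ ∈ ball (0 : E 3) R
    · have hζ2 : L3 ζ ∈ BB 2 R := by
        rw [mem_closedBall_zero_iff]
        exact (L3_le ζ).trans (mem_ball_zero_iff.1 hζ).le
      rw [indicator_of_mem hζ, indicator_of_mem hζ2, TT_eq3]
    · rw [indicator_of_notMem hζ]; exact bot_le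
  · rw [← lintegral_indicator measurableSet_ball]
    refine lintegral_mono fun ζ => ?_
    by_cases hζ : L3 ζ ∈ BB 2 R
    · have hζ2 : ζ ∈ ball (0 : E 3) (15 * R + 1) := by
        rw [mem_ball_zero_iff]
        have h2 := mem_closedBall_zero_iff.1 hζ
        have h3 := norm_nonneg (L3 ζ)
        linarith [L3_ge ζ]
      rw [indicator_of_mem hζ, indicator_of_mem hζ2, TT_eq3]
    · rw [indicator_of_notMem hζ]; exact bot_le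

/-- comparison of global norms -/
theorem NN3g {q : ℝ} : ∃ c : ℝ≥0∞, c ≠ 0 ∧ c ≠ ∞ ∧ ∀ f : E 2 → ℂ, Integrable f →
    EX.NN q f = c * ∫⁻ x, ‖TT f x‖ₑ ^ q := by
  obtain ⟨c, hc0, hct, hc⟩ := lint_L3
  refine ⟨c, hc0, hct, fun f hf => ?_⟩
  rw [← hc _ ((TT_meas hf).pow_const q)]
  unfold EX.NN
  simp only [TT_eq3]

theorem GE_of_LI {q : ℝ} (h : EX.LI (ball 0 2) q) : GE 2 q := by
  obtain ⟨c, hc0, hct, hc⟩ := NN3g (q := q)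
  obtain ⟨C, hC⟩ := h
  have ht : c⁻¹ * C ≠ ∞ := ENNReal.mul_ne_top (ENNReal.inv_ne_top.2 hc0) ENNReal.coe_ne_top
  refine ⟨(c⁻¹ * C).toNNReal, fun f hf hf1 => ?_⟩
  rw [ENNReal.coe_toNNReal ht]
  have h1 := hC ((cube 2).indicator f) (hf.indicator cube_meas)
    (fun x => (norm_indicator_le_norm_self _ _).trans (hf1 x)) (fun x hx => by
      refine indicator_of_notMem (fun h => hx ?_) _
      rw [mem_ball_zero_iff]
      refine (cube_norm h).trans_lt ?_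
      rw [Real.sqrt_lt' (by norm_num)]
      norm_num)
  rw [hc _ (ind_cube_int hf hf1), ← TP_eq] at h1
  calc ∫⁻ x, ‖TP f x‖ₑ ^ q = c⁻¹ * (c * ∫⁻ x, ‖TP f x‖ₑ ^ q) := by
        rw [← mul_assoc, ENNReal.inv_mul_cancel hc0 hct, one_mul]
    _ ≤ c⁻¹ * C := by gcongr

theorem LI_of_GE {q : ℝ} (hq : 0 < q) (h : GE 2 q) : EX.LI (ball 0 2) q := by
  obtain ⟨c, hc0, hct, hc⟩ := NN3g (q := q)
  obtain ⟨C, hC⟩ := h
  have ht : c * C ≠ ∞ := ENNReal.mul_ne_top hct ENNReal.coe_ne_top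
  refine EX.LI_resc hq 0 (r := 1) one_pos two_pos subset_rfl
    ⟨(c * C).toNNReal, fun f hf hf1 hf0 => ?_⟩
  rw [ENNReal.coe_toNNReal ht, hc _ (EX.integrable_of_bdd hf hf1 hf0)]
  have h1 := hC f hf hf1
  have h2 : (cube 2).indicator f = f := by
    funext ξ
    by_cases hξ : ξ ∈ cube 2
    · rw [indicator_of_mem hξ]
    · rw [indicator_of_notMem hξ, hf0 ξ fun h => hξ (ball_sub_cube (mem_ball_zero_iff.1 h).le)]
  rw [TP_eq, h2] at h1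
  gcongr

end Pool.Agent.H222.ER
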