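import Pool.Agent.H222.ER.Core
import Pool.Graph.R_pool_sql_team_seeded_620a6dc7.Helper184.PH.Para2

/-!
Parabolic dilations.
-/

open MeasureTheory Set Filter Metric
open scoped ENNReal NNReal Topology

namespace Pool.Agent.H222.ER

open Pool.Agent.Helper184.PH

variable {n : ℕ}

theorem KP_dil {l : ℝ} (hl : 0 < l) (ξ : E n) (x : E n × ℝ) :
    KP ξ x = KP (l⁻¹ • ξ) (l • x.1, l ^ 2 * x.2) := by
  unfold KP
  congr 2
  have e1 : inner ℝ (l⁻¹ • ξ) (l • x.1) = inner ℝ ξ x.1 := by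
    rw [inner_smul_left, inner_smul_right]
    simp only [conj_trivial]
    rw [← mul_assoc, inv_mul_cancel₀ hl.ne', one_mul]
  have e2 : ‖l⁻¹ • ξ‖ ^ 2 * (l ^ 2 * x.2) = ‖ξ‖ ^ 2 * x.2 := by
    rw [norm_smul, norm_inv, Real.norm_of_nonneg hl.le]
    field_simp
  rw [e1, e2]

theorem TT_dil {l : ℝ} (hl : 0 < l) (f : E n → ℂ) (x : E n × ℝ) :
    TT (fun ξ => f (l⁻¹ • ξ)) x = ((l ^ n : ℝ) : ℂ) * TT f (l • x.1, l ^ 2 * x.2) := by
  unfold TT
  have h1 : ∀ ξ, f (l⁻¹ • ξ) * KP ξ x =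
      (fun η => f η * KP η (l • x.1, l ^ 2 * x.2)) (l⁻¹ • ξ) := fun ξ => by
    simp only
    rw [← KP_dil hl]
  rw [integral_congr_ae (Eventually.of_forall h1),
    Measure.integral_comp_inv_smul volume (fun η => f η * KP η (l • x.1, l ^ 2 * x.2)) l]
  simp only [finrank_euclideanSpace, Fintype.card_fin]
  rw [abs_of_pos (pow_pos hl n), Complex.real_smul]

theorem lint_dil {l : ℝ} (hl : 0 < l) : ∃ c : ℝ≥0∞, c ≠ ∞ ∧ ∀ F : E n × ℝ → ℝ≥0∞, Measurable F →
    ∫⁻ x : E n × ℝ, F (l • x.1, l ^ 2 * x.2) = c * ∫⁻ x, F x := by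
  set L := Lm (0 : E n) l hl.ne' with hL
  have hLx : ∀ x, L x = (l • x.1, l ^ 2 * x.2) := fun x => by
    show (l • (x.1 + (2 * x.2) • (0 : E n)), l ^ 2 * x.2) = _
    rw [smul_zero, add_zero]
  have hdet : LinearMap.det (L : (E n × ℝ) →ₗ[ℝ] (E n × ℝ)) ≠ 0 := (LinearEquiv.isUnit_det' L).ne_zero
  set c : ℝ≥0∞ := ENNReal.ofReal |(LinearMap.det (L : (E n × ℝ) →ₗ[ℝ] (E n × ℝ)))⁻¹| with hc
  have hmap : Measure.map (L : (E n × ℝ) →ₗ[ℝ] (E n × ℝ)) (volume : Measure (E n × ℝ)) =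
      c • (volume : Measure (E n × ℝ)) := Measure.map_linearMap_addHaar_eq_smul_addHaar _ hdet
  have hLm : Measurable (L : (E n × ℝ) →ₗ[ℝ] (E n × ℝ)) :=
    (LinearMap.continuous_of_finiteDimensional _).measurable
  refine ⟨c, ENNReal.ofReal_ne_top, fun F hF => ?_⟩
  have h1 := lintegral_map (μ := (volume : Measure (E n × ℝ))) hF hLm
  rw [hmap, lintegral_smul_measure] at h1
  rw [← smul_eq_mul, h1]
  refine lintegral_congr fun x => ?_
  show _ = F (L x)
  rw [hLx]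

/-- local norms of dilated functions -/
theorem NN_dil {q l : ℝ} (hq : 0 ≤ q) (hl : 0 < l) : ∃ C : ℝ≥0∞, C ≠ ∞ ∧
    ∀ f : E n → ℂ, Integrable f → ∀ B B' : Set (E n × ℝ), MeasurableSet B → MeasurableSet B' →
      (∀ x ∈ B, (l • x.1, l ^ 2 * x.2) ∈ B') →
      NN q B (fun ξ => f (l⁻¹ • ξ)) ≤ C * NN q B' f := by
  obtain ⟨c, hct, hc⟩ := lint_dil (n := n) hl
  refine ⟨ENNReal.ofReal (l ^ n) ^ q * c, ENNReal.mul_ne_top
    (ENNReal.rpow_ne_top_of_nonneg hq ENNReal.ofReal_ne_top) hct, fun f hf B B' hB hB' hBB => ?_⟩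
  have hF : Measurable (B'.indicator fun x => ‖TT f x‖ₑ ^ q) :=
    ((TT_meas hf).pow_const q).indicator hB'
  unfold NN
  rw [mul_assoc, ← lintegral_indicator hB', ← hc _ hF, ← lintegral_indicator hB,
    ← lintegral_const_mul' _ _ (ENNReal.rpow_ne_top_of_nonneg hq ENNReal.ofReal_ne_top)]
  refine lintegral_mono fun x => ?_
  by_cases hx : x ∈ B
  · rw [indicator_of_mem hx, indicator_of_mem (hBB x hx), TT_dil hl, enorm_mul,
      ENNReal.mul_rpow_of_nonneg _ _ hq]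
    gcongr
    rw [← ofReal_norm, Complex.norm_real, Real.norm_of_nonneg (by positivity)]
  · rw [indicator_of_notMem hx]; exact bot_le

theorem dil_mem {l : ℝ} (hl : 0 < l) {R : ℝ} {x : E n × ℝ} (hx : x ∈ BB n R) :
    (l • x.1, l ^ 2 * x.2) ∈ BB n ((1 + l) ^ 2 * R) := by
  rw [mem_closedBall_zero_iff] at hx ⊢
  rw [Prod.norm_def, max_le_iff]
  have h1 := (norm_fst_le x).trans hx
  have h2 := (norm_snd_le x).trans hx
  simp only
  rw [norm_smul, norm_mul, norm_pow, Real.norm_of_nonneg hl.le]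
  have e1 : l ≤ (1 + l) ^ 2 := by nlinarith
  have e2 : l ^ 2 ≤ (1 + l) ^ 2 := by nlinarith
  exact ⟨mul_le_mul e1 h1 (norm_nonneg _) (by positivity),
    mul_le_mul e2 h2 (norm_nonneg _) (by positivity)⟩

theorem cube_meas : MeasurableSet (cube n) := cube_closed.measurableSet

theorem cube_vol : volume (cube n) ≠ ∞ := by
  have h : cube n ⊆ closedBall 0 (Real.sqrt n) := fun ξ hξ => mem_closedBall_zero_iff.2 (cube_norm hξ)
  exact ne_top_of_le_ne_top measure_closedBall_lt_top.ne (measure_mono h)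

theorem TP_eq (f : E n → ℂ) : TP f = TT ((cube n).indicator f) := by
  funext x
  show ∫ ξ in cube n, f ξ * KP ξ x = _
  unfold TT
  rw [← integral_indicator cube_meas]
  refine integral_congr_ae (Eventually.of_forall fun ξ => ?_)
  by_cases hξ : ξ ∈ cube n
  · simp only [indicator_of_mem hξ]
  · simp only [indicator_of_notMem hξ, zero_mul]

/-- the ball of radius one lies in the cube -/
theorem ball_sub_cube {ξ : E n} (h : ‖ξ‖ ≤ 1) : ξ ∈ cube n := fun i => by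
  have h1 := PiLp.norm_apply_le ξ i
  rw [Real.norm_eq_abs] at h1
  linarith

/-- the scale at which the cube fits in a small ball -/
noncomputable def sc (n : ℕ) : ℝ := 1 / (4 * (Real.sqrt n + 1))

theorem sc_pos (n : ℕ) : 0 < sc n := by
  unfold sc
  have := Real.sqrt_nonneg (n : ℝ)
  positivity

theorem sc_mem {ξ : E n} (h : (sc n)⁻¹ • ξ ∈ cube n) : ‖ξ‖ < 1 / 2 := by
  have h1 := cube_norm h
  have h0 := sc_pos n
  have hs := Real.sqrt_nonneg (n : ℝ)
  rw [norm_smul, norm_inv, Real.norm_of_nonneg h0.le, inv_mul_le_iff₀ h0] at h1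
  refine h1.trans_lt ?_
  unfold sc
  rw [div_mul_eq_mul_div, one_mul, div_lt_div_iff₀ (by positivity) (by norm_num)]
  linarith

end Pool.Agent.H222.ER
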