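import Pool.Agent.H222.ER.Lin
import Pool.Agent.H222.ER.Dil

/-!
Phases with bounded derivatives of finite order.
-/

open MeasureTheory Set Filter Metric
open scoped ENNReal NNReal Topology ContDiff

namespace Pool.Agent.H222.ER

open Pool.Agent.Helper184.PH

variable {n : ℕ}

/-- the estimate for the phases `R φ`, `φ` with compact support in the unit ball and derivatives of
order at most `k` bounded by one -/
def SL (n k : ℕ) (q τ : ℝ) : Prop :=
  ∃ C : ℝ≥0, ∀ φ : E n → ℝ, ContDiff ℝ ∞ φ → tsupport φ ⊆ ball 0 1 →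
    (∀ j ≤ k, ∀ ξ, ‖iteratedFDeriv ℝ j φ ξ‖ ≤ 1) →
    ∀ R : ℝ, 1 ≤ R → NN q (BB n R) (uni (cube n) φ R) ≤ C * ENNReal.ofReal (R ^ τ)

/-- a smooth mollifier -/
theorem exists_moll (n : ℕ) : ∃ χ : E n → ℝ, ContDiff ℝ ∞ χ ∧ HasCompactSupport χ ∧
    (∀ v, 0 ≤ χ v) ∧ (∫ v, χ v) = 1 ∧ ∀ v, 1 < ‖v‖ → χ v = 0 := by
  set f : ContDiffBump (0 : E n) := ⟨1 / 2, 1, by norm_num, by norm_num⟩ with hf
  refine ⟨f.normed volume, f.contDiff_normed, f.hasCompactSupport_normed, f.nonneg_normed,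
    f.integral_normed, fun v hv => ?_⟩
  have h1 : v ∉ Function.support (f.normed volume) := by
    rw [f.support_normed_eq, mem_ball_zero_iff]
    show ¬ ‖v‖ < 1
    linarith
  exact Function.notMem_support.1 h1

/-- the scaled mollifier -/
noncomputable def mol (χ : E n → ℝ) (ρ : ℝ) (v : E n) : ℝ := (ρ ^ n)⁻¹ * χ (ρ⁻¹ • v)

theorem mol_smooth {χ : E n → ℝ} (hχ : ContDiff ℝ ∞ χ) (ρ : ℝ) : ContDiff ℝ ∞ (mol χ ρ) := by
  unfold mol
  exact contDiff_const.mul (hχ.comp (contDiff_const_smul ρ⁻¹))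

theorem mol_zero {χ : E n → ℝ} (h0 : ∀ v, 1 < ‖v‖ → χ v = 0) {ρ : ℝ} (hρ : 0 < ρ) (v : E n)
    (hv : ρ < ‖v‖) : mol χ ρ v = 0 := by
  unfold mol
  rw [h0, mul_zero]
  rw [norm_smul, norm_inv, Real.norm_of_nonneg hρ.le, inv_mul_eq_div, one_lt_div hρ]
  exact hv

theorem mol_supp {χ : E n → ℝ} (h0 : ∀ v, 1 < ‖v‖ → χ v = 0) {ρ : ℝ} (hρ : 0 < ρ) :
    HasCompactSupport (mol χ ρ) := by
  refine HasCompactSupport.of_support_subset_isCompact (isCompact_closedBall (0 : E n) ρ)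
    fun v hv => ?_
  rw [mem_closedBall_zero_iff]
  by_contra hcon
  push Not at hcon
  exact hv (mol_zero h0 hρ v hcon)

theorem mol_integral (χ : E n → ℝ) {ρ : ℝ} (hρ : 0 < ρ) : ∫ v, mol χ ρ v = ∫ v, χ v := by
  unfold mol
  rw [integral_const_mul, Measure.integral_comp_inv_smul volume χ ρ]
  simp only [finrank_euclideanSpace, Fintype.card_fin]
  have : 0 < ρ ^ n := pow_pos hρ n
  rw [abs_of_pos this, smul_eq_mul, ← mul_assoc, inv_mul_cancel₀ this.ne', one_mul]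

theorem mol_deriv {χ : E n → ℝ} (hχ : ContDiff ℝ ∞ χ) {ρ : ℝ} (hρ : 0 < ρ) (j : ℕ) :
    ∫ v, ‖iteratedFDeriv ℝ j (mol χ ρ) v‖ = (ρ⁻¹) ^ j * ∫ v, ‖iteratedFDeriv ℝ j χ v‖ := by
  have hpn : 0 < ρ ^ n := pow_pos hρ n
  have h1 : ∀ v, ‖iteratedFDeriv ℝ j (mol χ ρ) v‖ =
      (ρ ^ n)⁻¹ * (ρ⁻¹) ^ j * ‖iteratedFDeriv ℝ j χ (ρ⁻¹ • v)‖ := fun v => by
    have e1 : mol χ ρ = (ρ ^ n)⁻¹ • fun v => χ (ρ⁻¹ • v) := by
      funext v; rfl
    have hc : ContDiff ℝ j fun v : E n => χ (ρ⁻¹ • v) :=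
      (hχ.of_le (by exact_mod_cast le_top)).comp (contDiff_const_smul ρ⁻¹)
    rw [e1, iteratedFDeriv_const_smul_apply hc.contDiffAt,
      iteratedFDeriv_comp_const_smul ρ⁻¹ (hχ.of_le (by exact_mod_cast le_top)), norm_smul,
      norm_smul, norm_pow, norm_inv, norm_inv, Real.norm_of_nonneg hρ.le,
      Real.norm_of_nonneg hpn.le, mul_assoc]
  simp only [h1]
  rw [integral_const_mul, Measure.integral_comp_inv_smul volume (fun v => ‖iteratedFDeriv ℝ j χ v‖) ρ]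
  simp only [finrank_euclideanSpace, Fintype.card_fin]
  rw [abs_of_pos hpn, smul_eq_mul]
  field_simp

/-- the mollified real function -/
noncomputable def sm (χ : E n → ℝ) (ρ : ℝ) (u : E n → ℝ) : E n → ℝ :=
  convolution u (mol χ ρ) (ContinuousLinearMap.lsmul ℝ ℝ) volume

theorem sm_apply (χ : E n → ℝ) (ρ : ℝ) (u : E n → ℝ) (ξ : E n) :
    sm χ ρ u ξ = ∫ v, mol χ ρ v * u (ξ - v) := by
  unfold sm
  rw [convolution_def]
  rw [← integral_sub_left_eq_self (fun v => mol χ ρ v * u (ξ - v)) volume ξ]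
  refine integral_congr_ae (Eventually.of_forall fun t => ?_)
  simp only [ContinuousLinearMap.lsmul_apply, smul_eq_mul, sub_sub_cancel]
  ring

/-- the measure of mollification -/
noncomputable def mm (χ : E n → ℝ) (ρ : ℝ) : Measure (E n) :=
  (volume : Measure (E n)).withDensity fun v => ENNReal.ofReal (mol χ ρ v)

theorem avg_mm {χ : E n → ℝ} (hχ : ContDiff ℝ ∞ χ) (hχ0 : ∀ v, 0 ≤ χ v) {ρ : ℝ} (hρ : 0 < ρ)
    (f : E n → ℂ) (ξ : E n) : avg (mm χ ρ) f ξ = ∫ v, (mol χ ρ v : ℂ) * f (ξ - v) := by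
  unfold avg mm
  have h0 : ∀ v, 0 ≤ mol χ ρ v := fun v => by
    unfold mol
    have := hχ0 (ρ⁻¹ • v)
    positivity
  rw [integral_withDensity_eq_integral_toReal_smul
    (mol_smooth hχ ρ).continuous.measurable.ennreal_ofReal
    (Eventually.of_forall fun v => ENNReal.ofReal_lt_top)]
  refine integral_congr_ae (Eventually.of_forall fun v => ?_)
  simp only [ENNReal.toReal_ofReal (h0 v), Complex.real_smul]

/-- **From smooth phases to all functions, on a small ball.** -/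
theorem ck_ball {q τ : ℝ} (hq : 1 ≤ q) {k : ℕ} (hk : 1 ≤ k) (hτ1 : τ < 1)
    (h : SL n k q τ) : ∃ C : ℝ≥0, ∀ R : ℝ, 1 ≤ R → ∀ f, FR n f →
      NN q (BB n R) f ≤ C * ENNReal.ofReal (R ^ (k * τ)) := by
  obtain ⟨C, hC⟩ := h
  have hπ := Real.pi_pos
  have hπ3 := Real.pi_gt_three
  have hq0 : 0 < q := by linarith
  obtain ⟨χ, hχ, hχc, hχ0, hχ1, hχz⟩ := exists_moll n
  set B : ℝ := 1 + ∑ j ∈ Finset.range (k + 1), ∫ v, ‖iteratedFDeriv ℝ j χ v‖ with hB
  have hBj : ∀ j ≤ k, ∫ v, ‖iteratedFDeriv ℝ j χ v‖ ≤ B := fun j hj => by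
    have h1 : ∫ v, ‖iteratedFDeriv ℝ j χ v‖ ≤
        ∑ j ∈ Finset.range (k + 1), ∫ v, ‖iteratedFDeriv ℝ j χ v‖ :=
      Finset.single_le_sum (f := fun j => ∫ v, ‖iteratedFDeriv ℝ j χ v‖)
        (fun j _ => integral_nonneg fun v => norm_nonneg _) (Finset.mem_range.2 (by omega))
    linarith
  have hB1 : 1 ≤ B := by
    have : 0 ≤ ∑ j ∈ Finset.range (k + 1), ∫ v, ‖iteratedFDeriv ℝ j χ v‖ :=
      Finset.sum_nonneg fun j _ => integral_nonneg fun v => norm_nonneg _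
    linarith
  set W : ℝ≥0∞ := ∑' m : ℕ × Bool, ENNReal.ofReal (1 / (m.1 : ℝ) ^ 2) with hW
  set Z : ℝ≥0∞ := ∑' m : ℕ × Bool, ENNReal.ofReal (1 / (m.1 : ℝ) ^ (2 - τ)) with hZ
  have hfin : ∀ s : ℝ, 1 < s → (∑' m : ℕ × Bool, ENNReal.ofReal (1 / (m.1 : ℝ) ^ s)) ≠ ⊤ :=
    fun s hs => by
      have h1 : Summable fun m : ℕ => 1 / (m : ℝ) ^ s := Real.summable_one_div_nat_rpow.2 hs
      have h2 : ∑' m : ℕ, ENNReal.ofReal (1 / (m : ℝ) ^ s) ≠ ⊤ := by
        rw [← ENNReal.ofReal_tsum_of_nonneg (fun m => by positivity) h1]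
        exact ENNReal.ofReal_ne_top
      rw [ENNReal.tsum_prod']
      simp only [tsum_bool]
      rw [ENNReal.tsum_add]
      exact ENNReal.add_ne_top.2 ⟨h2, h2⟩
  have hWt : W ≠ ⊤ := by
    have := hfin 2 (by norm_num)
    simpa only [Real.rpow_two] using this
  have hZt : Z ≠ ⊤ := hfin (2 - τ) (by linarith)
  set A : ℝ := (Real.pi / 2 * B) ^ τ * ((32 * Real.pi) ^ k) ^ τ with hA
  set K : ℝ≥0∞ := 2 ^ q * (W ^ (q - 1) * (Z * (C * ENNReal.ofReal A))) with hK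
  have hKt : K ≠ ⊤ := ENNReal.mul_ne_top (by simp) (ENNReal.mul_ne_top
    (ENNReal.rpow_ne_top_of_nonneg (by linarith) hWt) (ENNReal.mul_ne_top hZt
      (ENNReal.mul_ne_top ENNReal.coe_ne_top ENNReal.ofReal_ne_top)))
  refine ⟨K.toNNReal, fun R hR f hf => ?_⟩
  rw [ENNReal.coe_toNNReal hKt]
  have hR0 : 0 < R := by linarith
  set ρ : ℝ := 1 / (32 * Real.pi * R) with hρ
  have hρ0 : 0 < ρ := by rw [hρ]; positivity
  have hρi : ρ⁻¹ = 32 * Real.pi * R := by rw [hρ, one_div, inv_inv]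
  have hρi1 : 1 ≤ ρ⁻¹ := by rw [hρi]; nlinarith
  have hρR : R ≤ ρ⁻¹ := by rw [hρi]; nlinarith
  have hρ1 : ρ ≤ 1 / 4 := by
    rw [hρ]
    rw [div_le_div_iff₀ (by positivity) (by norm_num)]
    nlinarith
  have hm0 : ∀ v, 0 ≤ mol χ ρ v := fun v => by
    unfold mol
    have := hχ0 (ρ⁻¹ • v)
    positivity
  have hmi : Integrable (mol χ ρ) :=
    (mol_smooth hχ ρ).continuous.integrable_of_hasCompactSupport (mol_supp hχz hρ0)
  have hprob : IsProbabilityMeasure (mm χ ρ) := by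
    refine ⟨?_⟩
    unfold mm
    rw [withDensity_apply _ MeasurableSet.univ, Measure.restrict_univ,
      ← ofReal_integral_eq_lintegral_ofReal hmi (Eventually.of_forall hm0), mol_integral χ hρ0, hχ1,
      ENNReal.ofReal_one]
  have hμ : ∀ᵐ v ∂(mm χ ρ), ‖v‖ ≤ ρ := by
    unfold mm
    rw [ae_withDensity_iff (mol_smooth hχ ρ).continuous.measurable.ennreal_ofReal]
    refine Eventually.of_forall fun v hv => ?_
    by_contra hcon
    push Not at hcon
    rw [mol_zero hχz hρ0 v hcon] at hv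
    simp at hv
  -- real functions
  have hreal : ∀ f, FR n f → ∃ u : E n → ℝ, Measurable u ∧ (∀ ξ, ‖u ξ‖ ≤ 1) ∧
      (∀ ξ, ξ ∉ ball (0 : E n) (1 / 2) → u ξ = 0) ∧ f = fun ξ => (u ξ : ℂ) := fun f hf => by
    refine ⟨fun ξ => (f ξ).re, Complex.measurable_re.comp hf.1, fun ξ => ?_, fun ξ hξ => ?_, ?_⟩
    · exact (Complex.abs_re_le_norm _).trans (hf.2.1 ξ)
    · show (f ξ).re = 0
      rw [hf.2.2.1 ξ hξ]; rfl
    · funext ξ
      have := hf.2.2.2 ξ
      apply Complex.ext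
      · simp
      · simp [this]
  have hsm : ∀ u : E n → ℝ, Measurable u → (∀ ξ, ‖u ξ‖ ≤ 1) →
      (∀ ξ, ξ ∉ ball (0 : E n) (1 / 2) → u ξ = 0) → LocallyIntegrable u ∧
      ContDiff ℝ ∞ (sm χ ρ u) ∧ (∀ ξ, ‖sm χ ρ u ξ‖ ≤ 1) ∧
      (∀ ξ, ξ ∉ closedBall (0 : E n) (3 / 4) → sm χ ρ u ξ = 0) ∧
      (∀ j ≤ k, ∀ ξ, ‖iteratedFDeriv ℝ j (sm χ ρ u) ξ‖ ≤ (ρ⁻¹) ^ j * B) := fun u hu hu1 hu0 => by
    have hul : LocallyIntegrable u := by
      have h1 : Integrable fun ξ => (u ξ : ℂ) := integrable_of_bdd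
        (Complex.measurable_ofReal.comp hu) (M := 1) (fun ξ => by
          rw [Complex.norm_real]; exact hu1 ξ) (R := 1 / 2) fun ξ hξ => by rw [hu0 ξ hξ]; rfl
      exact (h1.re).locallyIntegrable
    refine ⟨hul, (mol_supp hχz hρ0).contDiff_convolution_right _ hul (mol_smooth hχ ρ),
      fun ξ => ?_, fun ξ hξ => ?_, fun j hj ξ => ?_⟩
    · rw [sm_apply]
      calc ‖∫ v, mol χ ρ v * u (ξ - v)‖ ≤ ∫ v, mol χ ρ v := by
            refine norm_integral_le_of_norm_le hmi (Eventually.of_forall fun v => ?_)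
            rw [norm_mul, Real.norm_of_nonneg (hm0 v)]
            calc mol χ ρ v * ‖u (ξ - v)‖ ≤ mol χ ρ v * 1 :=
                  mul_le_mul_of_nonneg_left (hu1 _) (hm0 v)
              _ = _ := mul_one _
        _ = 1 := by rw [mol_integral χ hρ0, hχ1]
    · rw [sm_apply]
      have h1 : ∀ v, mol χ ρ v * u (ξ - v) = 0 := fun v => by
        by_cases hv : ρ < ‖v‖
        · rw [mol_zero hχz hρ0 v hv, zero_mul]
        · push Not at hv
          rw [hu0 (ξ - v) fun h => ?_, mul_zero]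
          have h2 : ‖ξ - v‖ < 1 / 2 := mem_ball_zero_iff.1 h
          have h3 : ‖ξ‖ ≤ 3 / 4 := by
            calc ‖ξ‖ = ‖(ξ - v) + v‖ := by rw [sub_add_cancel]
              _ ≤ ‖ξ - v‖ + ‖v‖ := norm_add_le _ _
              _ ≤ 3 / 4 := by linarith
          exact hξ (mem_closedBall_zero_iff.2 h3)
      simp only [h1, integral_zero]
    · refine (conv_deriv j (mol χ ρ) (mol_smooth hχ ρ) (mol_supp hχz hρ0) u hu hu1 hul ξ).trans ?_
      rw [mol_deriv hχ hρ0]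
      exact mul_le_mul_of_nonneg_left (hBj j hj) (by positivity)
  have havg : ∀ u : E n → ℝ, (∀ ξ, ξ ∉ closedBall (0 : E n) (3 / 4) → sm χ ρ u ξ = 0) →
      avg (mm χ ρ) (fun ξ => (u ξ : ℂ)) = (cube n).indicator fun ξ => (sm χ ρ u ξ : ℂ) :=
    fun u hu => by
      funext ξ
      have h1 : avg (mm χ ρ) (fun ξ => (u ξ : ℂ)) ξ = (sm χ ρ u ξ : ℂ) := by
        have e1 : ((∫ v, mol χ ρ v * u (ξ - v) : ℝ) : ℂ) =
            ∫ v, ((mol χ ρ v * u (ξ - v) : ℝ) : ℂ) := (integral_ofReal (𝕜 := ℂ)).symm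
        rw [avg_mm hχ hχ0 hρ0, sm_apply, e1]
        refine integral_congr_ae (Eventually.of_forall fun v => ?_)
        simp
      rw [h1]
      by_cases hξ : ξ ∈ cube n
      · rw [indicator_of_mem hξ]
      · rw [indicator_of_notMem hξ, hu ξ fun h => hξ (ball_sub_cube
          ((mem_closedBall_zero_iff.1 h).trans (by norm_num)))]; rfl
  have hmain : ∀ f, FR n f → NN q (BB n R) (avg (mm χ ρ) f) ≤
      W ^ (q - 1) * (Z * (C * ENNReal.ofReal A)) * ENNReal.ofReal (R ^ (k * τ)) := fun f hf => by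
    obtain ⟨u, hu, hu1, hu0, rfl⟩ := hreal f hf
    obtain ⟨hul, hs, hs1, hs0, hsd⟩ := hsm u hu hu1 hu0
    rw [havg u hs0]
    set w := sm χ ρ u with hw
    have hwm : Measurable w := hs.continuous.measurable
    have hwI : ∀ ξ, w ξ ∈ Icc (-1 : ℝ) 1 := fun ξ => by
      have := hs1 ξ
      rw [Real.norm_eq_abs] at this
      exact abs_le.1 this
    have h1 := NN_series (ι := ℕ × Bool) hq (BB_meas (n := n) R)
      (F := fun x => ‖TT ((cube n).indicator fun ξ => (w ξ : ℂ)) x‖ₑ)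
      (fun m => ENNReal.ofReal (1 / (m.1 : ℝ) ^ 2))
      (fun m => uni (cube n) w ((if m.2 then 1 else -1) * (Real.pi * m.1 / 2)))
      (fun m => uni_int cube_meas cube_vol hwm _)
      (fun x _ => TT_rep cube_meas cube_vol hwm (fun ξ _ => hwI ξ) x)
    refine h1.trans ?_
    rw [mul_assoc]
    refine mul_le_mul' le_rfl ?_
    rw [hZ, mul_assoc, ← ENNReal.tsum_mul_right]
    refine ENNReal.tsum_le_tsum fun m => ?_
    rcases Nat.eq_zero_or_pos m.1 with hm | hm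
    · rw [hm]
      simp
    have hm1 : (1 : ℝ) ≤ m.1 := by exact_mod_cast hm
    have hm0 : (0 : ℝ) < m.1 := by linarith
    set sg : ℝ := if m.2 then 1 else -1 with hsg
    have hsg1 : |sg| = 1 := by
      rw [hsg]; split_ifs <;> simp
    set r : ℝ := Real.pi / 2 * B * m.1 * (ρ⁻¹) ^ k with hr
    have hρk : R ≤ (ρ⁻¹) ^ k := hρR.trans (le_self_pow₀ hρi1 (by omega))
    have hπB : 1 ≤ Real.pi / 2 * B * m.1 :=
      one_le_mul_of_one_le_of_one_le (one_le_mul_of_one_le_of_one_le (by linarith) hB1) hm1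
    have hrR : R ≤ r := by
      calc R = 1 * R := (one_mul _).symm
        _ ≤ r := by rw [hr]; gcongr
    have hr1 : 1 ≤ r := hR.trans hrR
    have hr0 : 0 < r := by linarith
    set φ : E n → ℝ := fun ξ => sg * (ρ ^ k / B) * w ξ with hφ
    have hφs : ContDiff ℝ ∞ φ := contDiff_const.mul hs
    have hφd : ∀ j ≤ k, ∀ ξ, ‖iteratedFDeriv ℝ j φ ξ‖ ≤ 1 := fun j hj ξ => by
      have e1 : φ = (sg * (ρ ^ k / B)) • w := by funext ξ; rfl
      rw [e1, iteratedFDeriv_const_smul_apply ((hs.of_le (by exact_mod_cast le_top)).contDiffAt),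
        norm_smul, norm_mul, Real.norm_eq_abs, hsg1, one_mul,
        Real.norm_of_nonneg (by positivity)]
      calc ρ ^ k / B * ‖iteratedFDeriv ℝ j w ξ‖ ≤ ρ ^ k / B * ((ρ⁻¹) ^ j * B) := by
            gcongr
            exact hsd j hj ξ
        _ = ρ ^ k * (ρ⁻¹) ^ j := by field_simp
        _ ≤ ρ ^ k * (ρ⁻¹) ^ k := by gcongr
        _ = 1 := by rw [← mul_pow, mul_inv_cancel₀ hρ0.ne', one_pow]
    have hφt : tsupport φ ⊆ ball 0 1 := by
      have h5 : tsupport φ ⊆ closedBall (0 : E n) (3 / 4) := by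
        refine closure_minimal (fun ξ hξ => ?_) isClosed_closedBall
        by_contra hcon
        refine hξ ?_
        show sg * (ρ ^ k / B) * w ξ = 0
        rw [hs0 ξ hcon, mul_zero]
      exact h5.trans (closedBall_subset_ball (by norm_num))
    have huni : uni (cube n) w (sg * (Real.pi * m.1 / 2)) = uni (cube n) φ r := by
      unfold uni
      congr 1
      funext ξ
      congr 3
      rw [hφ, hr]
      have e2 : ρ ^ k * (ρ⁻¹) ^ k = 1 := by rw [← mul_pow, mul_inv_cancel₀ hρ0.ne', one_pow]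
      have e3 : Real.pi / 2 * B * m.1 * ρ⁻¹ ^ k * (sg * (ρ ^ k / B) * w ξ) =
          sg * (Real.pi * m.1 / 2) * w ξ * (ρ ^ k * ρ⁻¹ ^ k) * (B / B) := by ring
      simp only
      rw [e3, e2, div_self (by linarith : B ≠ 0)]
      ring
    rw [huni]
    have h2 := (NN_mono q (closedBall_subset_closedBall hrR) (uni (cube n) φ r)).trans
      (hC φ hφs hφt hφd r hr1)
    have h3 : r ^ τ = (m.1 : ℝ) ^ τ * (A * R ^ (k * τ)) := by
      have hR' : (R ^ k : ℝ) ^ τ = R ^ (k * τ) := by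
        rw [← Real.rpow_natCast, ← Real.rpow_mul hR0.le]
      rw [hr, hρi, hA, mul_pow, Real.mul_rpow (x := Real.pi / 2 * B * m.1) (by positivity)
        (by positivity), Real.mul_rpow (x := Real.pi / 2 * B) (by positivity) hm0.le,
        Real.mul_rpow (x := (32 * Real.pi) ^ k) (by positivity) (by positivity), hR']
      ring
    calc ENNReal.ofReal (1 / (m.1 : ℝ) ^ 2) * NN q (BB n R) (uni (cube n) φ r)
        ≤ ENNReal.ofReal (1 / (m.1 : ℝ) ^ 2) * (C * ENNReal.ofReal (r ^ τ)) := by gcongr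
      _ = ENNReal.ofReal (1 / (m.1 : ℝ) ^ (2 - τ)) *
          (C * ENNReal.ofReal A * ENNReal.ofReal (R ^ (k * τ))) := by
          rw [h3, ENNReal.ofReal_mul (by positivity), ENNReal.ofReal_mul (by positivity)]
          have e1 : ENNReal.ofReal (1 / (m.1 : ℝ) ^ (2 - τ)) =
              ENNReal.ofReal (1 / (m.1 : ℝ) ^ 2) * ENNReal.ofReal ((m.1 : ℝ) ^ τ) := by
            rw [← ENNReal.ofReal_mul (by positivity)]
            congr 1
            rw [Real.rpow_sub hm0, Real.rpow_two]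
            have := Real.rpow_pos_of_pos hm0 τ
            field_simp
          rw [e1]
          ring
  have hint : ∀ f, FR n f → Integrable (avg (mm χ ρ) f) := fun f hf => by
    obtain ⟨u, hu, hu1, hu0, rfl⟩ := hreal f hf
    obtain ⟨hul, hs, hs1, hs0, hsd⟩ := hsm u hu hu1 hu0
    rw [havg u hs0, integrable_indicator_iff cube_meas]
    refine Integrable.of_bound
      (Complex.measurable_ofReal.comp hs.continuous.measurable).aestronglyMeasurable 1
      (Eventually.of_forall fun ξ => ?_)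
    rw [Complex.norm_real]
    exact hs1 ξ
  have := avg_reduce hq hR hρ hμ hint hmain hf
  refine this.trans (le_of_eq ?_)
  rw [hK]
  ring

end Pool.Agent.H222.ER
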