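import Pool.Graph.R_pool_sql_team_seeded_620a6dc7.Helper184.PH.Para

/-!
The extension operator of the paraboloid over `ℝⁿ`: basic facts, local norms, shears.
-/

open MeasureTheory Set Filter Metric
open scoped ENNReal NNReal Topology

namespace Pool.Agent.H222.ER

open Pool.Agent.Helper184.PH

variable {n : ℕ}

theorem KP_norm_eq (ξ : E n) (x : E n × ℝ) : ‖KP ξ x‖ = 1 := by
  unfold KP; rw [Complex.norm_exp_ofReal_mul_I]

theorem KP_enorm (ξ : E n) (x : E n × ℝ) : ‖KP ξ x‖ₑ = 1 := by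
  rw [← ofReal_norm, KP_norm_eq, ENNReal.ofReal_one]

theorem KP_cont_left (x : E n × ℝ) : Continuous fun ξ : E n => KP ξ x := by
  unfold KP
  fun_prop

theorem KP_cont_right (ξ : E n) : Continuous fun x : E n × ℝ => KP ξ x := by
  unfold KP
  fun_prop

theorem KP_add (ξ : E n) (x y : E n × ℝ) : KP ξ (x + y) = KP ξ x * KP ξ y := by
  unfold KP
  rw [← Complex.exp_add]
  congr 1
  rw [Prod.fst_add, Prod.snd_add, inner_add_right]
  push_cast
  ring

theorem KP_neg (ξ : E n) (x : E n × ℝ) : KP ξ (-x) = (starRingEnd ℂ) (KP ξ x) := by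
  unfold KP
  rw [← Complex.exp_conj]
  congr 1
  rw [Prod.fst_neg, Prod.snd_neg, inner_neg_right, map_mul, Complex.conj_ofReal, Complex.conj_I]
  push_cast
  ring

theorem KP_zero (ξ : E n) : KP ξ 0 = 1 := by
  unfold KP; simp

/-- the extension operator on the whole space of frequencies -/
noncomputable def TT (f : E n → ℂ) (x : E n × ℝ) : ℂ := ∫ ξ, f ξ * KP ξ x

theorem TT_int {f : E n → ℂ} (hf : Integrable f) (x : E n × ℝ) :
    Integrable fun ξ => f ξ * KP ξ x := by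
  have h1 := (KP_cont_left x).aestronglyMeasurable (μ := (volume : Measure (E n)))
  exact hf.mul_bdd (c := 1) h1 (Eventually.of_forall fun ξ => KP_norm ξ x)

theorem TT_add {f g : E n → ℂ} (hf : Integrable f) (hg : Integrable g) (x : E n × ℝ) :
    TT (fun ξ => f ξ + g ξ) x = TT f x + TT g x := by
  unfold TT
  rw [← integral_add (TT_int hf x) (TT_int hg x)]
  refine integral_congr_ae (Eventually.of_forall fun ξ => ?_)
  show (f ξ + g ξ) * KP ξ x = f ξ * KP ξ x + g ξ * KP ξ x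
  ring

theorem TT_smul (c : ℂ) (f : E n → ℂ) (x : E n × ℝ) :
    TT (fun ξ => c * f ξ) x = c * TT f x := by
  unfold TT
  rw [← integral_const_mul]
  refine integral_congr_ae (Eventually.of_forall fun ξ => ?_)
  show c * f ξ * KP ξ x = c * (f ξ * KP ξ x)
  ring

theorem TT_sub {f g : E n → ℂ} (hf : Integrable f) (hg : Integrable g) (x : E n × ℝ) :
    TT (fun ξ => f ξ - g ξ) x = TT f x - TT g x := by
  unfold TT
  rw [← integral_sub (TT_int hf x) (TT_int hg x)]
  refine integral_congr_ae (Eventually.of_forall fun ξ => ?_)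
  show (f ξ - g ξ) * KP ξ x = f ξ * KP ξ x - g ξ * KP ξ x
  ring

theorem TT_le (f : E n → ℂ) (x : E n × ℝ) : ‖TT f x‖ₑ ≤ ∫⁻ ξ, ‖f ξ‖ₑ := by
  unfold TT
  refine (enorm_integral_le_lintegral_enorm _).trans (lintegral_mono fun ξ => ?_)
  rw [enorm_mul, KP_enorm, mul_one]

theorem TT_cont {f : E n → ℂ} (hf : Integrable f) : Continuous (TT f) := by
  unfold TT
  refine continuous_of_dominated (bound := fun ξ => ‖f ξ‖)
    (fun y => (TT_int hf y).aestronglyMeasurable) (fun y => Eventually.of_forall fun ξ => ?_)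
    hf.norm (Eventually.of_forall fun ξ => ?_)
  · rw [norm_mul, KP_norm_eq, mul_one]
  · exact continuous_const.mul (KP_cont_right ξ)

theorem TT_meas {f : E n → ℂ} (hf : Integrable f) : Measurable fun x => ‖TT f x‖ₑ :=
  (TT_cont hf).measurable.enorm

/-- modulation of `f` is a translation of `TT f` -/
theorem TT_mod (f : E n → ℂ) (y x : E n × ℝ) :
    TT (fun ξ => f ξ * KP ξ y) x = TT f (x + y) := by
  unfold TT
  refine integral_congr_ae (Eventually.of_forall fun ξ => ?_)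
  show f ξ * KP ξ y * KP ξ x = f ξ * KP ξ (x + y)
  rw [KP_add]; ring

/-- translation of `f` -/
theorem TT_shift (f : E n → ℂ) (v : E n) (x : E n × ℝ) :
    TT (fun ξ => f (ξ - v)) x = KP v x * TT f (x.1 + (2 * x.2) • v, x.2) := by
  unfold TT
  have h1 : ∀ ξ, f (ξ - v) * KP ξ x =
      (fun η => KP v x * (f η * KP η (x.1 + (2 * x.2) • v, x.2))) (ξ - v) := fun ξ => by
    have h2 := KP_galilei v (ξ - v) 1 one_ne_zero x
    have h3 : v + (1 : ℝ) • (ξ - v) = ξ := by rw [one_smul]; abel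
    have h4 : Lm v 1 one_ne_zero x = (x.1 + (2 * x.2) • v, x.2) := by
      show ((1 : ℝ) • (x.1 + (2 * x.2) • v), (1 : ℝ) ^ 2 * x.2) = _
      rw [one_smul, one_pow, one_mul]
    rw [h3, h4] at h2
    rw [h2]
    ring
  rw [integral_congr_ae (Eventually.of_forall h1),
    integral_sub_right_eq_self (fun η => KP v x * (f η * KP η (x.1 + (2 * x.2) • v, x.2))) v,
    integral_const_mul]

/-- shears preserve the measure -/
theorem lint_shear (v : E n) {F : E n × ℝ → ℝ≥0∞} (hF : Measurable F) :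
    ∫⁻ x : E n × ℝ, F (x.1 + (2 * x.2) • v, x.2) = ∫⁻ x, F x := by
  have hm : Measurable fun x : E n × ℝ => (x.1 + (2 * x.2) • v, x.2) := by fun_prop
  have hm2 : Measurable fun x : E n × ℝ => F (x.1 + (2 * x.2) • v, x.2) := hF.comp hm
  rw [Measure.volume_eq_prod, lintegral_prod_symm' _ hm2, lintegral_prod_symm' _ hF]
  refine lintegral_congr fun t => ?_
  exact lintegral_add_right_eq_self (fun x => F (x, t)) ((2 * t) • v)

/-- balls in the space of positions -/
abbrev BB (n : ℕ) (R : ℝ) : Set (E n × ℝ) := closedBall (0 : E n × ℝ) R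

theorem BB_meas (R : ℝ) : MeasurableSet (BB n R) := isClosed_closedBall.measurableSet

/-- local norm, to the power `q` -/
noncomputable def NN (q : ℝ) (B : Set (E n × ℝ)) (f : E n → ℂ) : ℝ≥0∞ := ∫⁻ x in B, ‖TT f x‖ₑ ^ q

theorem NN_mono (q : ℝ) {B B' : Set (E n × ℝ)} (h : B ⊆ B') (f : E n → ℂ) : NN q B f ≤ NN q B' f :=
  lintegral_mono_set h

theorem NN_smul {q : ℝ} (hq : 0 ≤ q) (B : Set (E n × ℝ)) (c : ℂ) (f : E n → ℂ) :
    NN q B (fun ξ => c * f ξ) = ‖c‖ₑ ^ q * NN q B f := by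
  unfold NN
  rw [← lintegral_const_mul' _ _ (ENNReal.rpow_ne_top_of_nonneg hq enorm_ne_top)]
  refine lintegral_congr fun x => ?_
  rw [TT_smul, enorm_mul, ENNReal.mul_rpow_of_nonneg _ _ hq]

theorem NN_congr {q : ℝ} {B : Set (E n × ℝ)} {f g : E n → ℂ} (h : f =ᵐ[volume] g) :
    NN q B f = NN q B g := by
  have h1 : TT f = TT g := by
    funext x
    refine integral_congr_ae ?_
    filter_upwards [h] with ξ hξ
    rw [hξ]
  unfold NN
  rw [h1]

/-- triangle inequality -/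
theorem NN_add {q : ℝ} (hq : 1 ≤ q) (B : Set (E n × ℝ)) {f g : E n → ℂ} (hf : Integrable f)
    (hg : Integrable g) :
    (NN q B fun ξ => f ξ + g ξ) ^ (1 / q) ≤ NN q B f ^ (1 / q) + NN q B g ^ (1 / q) := by
  have h1 := ENNReal.lintegral_Lp_add_le (μ := (volume : Measure (E n × ℝ)).restrict B) (p := q)
    (TT_meas hf).aemeasurable (TT_meas hg).aemeasurable hq
  refine le_trans ?_ h1
  unfold NN
  refine ENNReal.rpow_le_rpow (lintegral_mono fun x => ?_) (by positivity)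
  refine ENNReal.rpow_le_rpow ?_ (by linarith)
  rw [TT_add hf hg]
  exact enorm_add_le _ _

theorem NN_add' {q : ℝ} (hq : 1 ≤ q) (B : Set (E n × ℝ)) {f g : E n → ℂ} (hf : Integrable f)
    (hg : Integrable g) :
    (NN q B fun ξ => f ξ + g ξ) ≤ 2 ^ (q - 1) * (NN q B f + NN q B g) := by
  have h0 : Measurable fun x => ‖TT f x‖ₑ ^ q := (TT_meas hf).pow_const q
  unfold NN
  rw [← lintegral_add_left h0, ← lintegral_const_mul' _ _ (by simp)]
  refine lintegral_mono fun x => ?_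
  refine le_trans ?_ (ENNReal.rpow_add_le_mul_rpow_add_rpow _ _ hq)
  refine ENNReal.rpow_le_rpow ?_ (by linarith)
  rw [TT_add hf hg]
  exact enorm_add_le _ _

/-- comparison of exponents -/
theorem NN_exp {q q₁ : ℝ} (hq : 0 ≤ q₁) (h : q₁ ≤ q) (B : Set (E n × ℝ)) (f : E n → ℂ) {A : ℝ≥0∞}
    (hAt : A ≠ ∞) (hA : ∫⁻ ξ, ‖f ξ‖ₑ ≤ A) : NN q B f ≤ A ^ (q - q₁) * NN q₁ B f := by
  unfold NN
  rw [← lintegral_const_mul' _ _ (ENNReal.rpow_ne_top_of_nonneg (by linarith) hAt)]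
  refine lintegral_mono fun x => ?_
  have h1 : ‖TT f x‖ₑ ^ q = ‖TT f x‖ₑ ^ (q - q₁) * ‖TT f x‖ₑ ^ q₁ := by
    rw [← ENNReal.rpow_add_of_nonneg _ _ (by linarith) hq]
    congr 1; ring
  rw [h1]
  gcongr
  exact (TT_le f x).trans hA

/-- trivial bound -/
theorem NN_triv {q : ℝ} (hq : 0 ≤ q) (B : Set (E n × ℝ)) (f : E n → ℂ) {A : ℝ≥0∞}
    (hA : ∫⁻ ξ, ‖f ξ‖ₑ ≤ A) : NN q B f ≤ A ^ q * volume B := by
  unfold NN
  calc ∫⁻ x in B, ‖TT f x‖ₑ ^ q ≤ ∫⁻ _ in B, A ^ q :=
        lintegral_mono fun x => ENNReal.rpow_le_rpow ((TT_le f x).trans hA) hq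
    _ = A ^ q * volume B := by rw [setLIntegral_const]

theorem integrable_of_bdd {f : E n → ℂ} (hf : Measurable f) {M R : ℝ} (hM : ∀ ξ, ‖f ξ‖ ≤ M)
    (hR : ∀ ξ, ξ ∉ ball (0 : E n) R → f ξ = 0) : Integrable f := by
  have h1 : f = (ball (0 : E n) R).indicator f := by
    funext ξ
    by_cases hξ : ξ ∈ ball (0 : E n) R
    · rw [indicator_of_mem hξ]
    · rw [indicator_of_notMem hξ, hR ξ hξ]
  rw [h1, integrable_indicator_iff measurableSet_ball]
  have : IsFiniteMeasure (volume.restrict (ball (0 : E n) R)) :=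
    ⟨by rw [Measure.restrict_apply_univ]; exact measure_ball_lt_top⟩
  exact Integrable.of_bound hf.aestronglyMeasurable M (Eventually.of_forall hM)

/-- local norms and translations in frequency -/
theorem NN_shift (q : ℝ) {f : E n → ℂ} (hf : Integrable f) {v : E n} (hv : ‖v‖ ≤ 1) {R : ℝ}
    (hR : 0 ≤ R) : NN q (BB n R) f ≤ NN q (BB n (3 * R)) (fun ξ => f (ξ - v)) := by
  have hF : Measurable ((BB n R).indicator fun x => ‖TT f x‖ₑ ^ q) :=
    ((TT_meas hf).pow_const q).indicator (BB_meas R)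
  have h1 : NN q (BB n R) f = ∫⁻ x, (BB n R).indicator (fun x => ‖TT f x‖ₑ ^ q) x := by
    rw [lintegral_indicator (BB_meas R)]; rfl
  have h2 : NN q (BB n (3 * R)) (fun ξ => f (ξ - v)) =
      ∫⁻ x, (BB n (3 * R)).indicator (fun x => ‖TT (fun ξ => f (ξ - v)) x‖ₑ ^ q) x := by
    rw [lintegral_indicator (BB_meas _)]; rfl
  rw [h1, ← lint_shear v hF, h2]
  refine lintegral_mono fun x => ?_
  by_cases hx : (x.1 + (2 * x.2) • v, x.2) ∈ BB n R
  · have hx3 : x ∈ BB n (3 * R) := by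
      rw [mem_closedBall_zero_iff, Prod.norm_def, max_le_iff] at hx ⊢
      obtain ⟨ha, hb⟩ := hx
      simp only at ha hb
      refine ⟨?_, by linarith⟩
      have e1 : x.1 = (x.1 + (2 * x.2) • v) - (2 * x.2) • v := by abel
      rw [e1]
      refine (norm_sub_le _ _).trans ?_
      have e2 : ‖(2 * x.2) • v‖ ≤ 2 * R := by
        rw [norm_smul, norm_mul, Real.norm_ofNat]
        calc 2 * ‖x.2‖ * ‖v‖ ≤ 2 * R * 1 := by gcongr
          _ = 2 * R := mul_one _
      linarith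
    show (BB n R).indicator (fun x => ‖TT f x‖ₑ ^ q) (x.1 + (2 * x.2) • v, x.2) ≤ _
    rw [indicator_of_mem hx, indicator_of_mem hx3, TT_shift, enorm_mul, KP_enorm, one_mul]
  · show (BB n R).indicator (fun x => ‖TT f x‖ₑ ^ q) (x.1 + (2 * x.2) • v, x.2) ≤ _
    rw [indicator_of_notMem hx]; exact bot_le

theorem lint_le {f : E n → ℂ} (hf1 : ∀ ξ, ‖f ξ‖ ≤ 1) {O : Set (E n)}
    (hO : MeasurableSet O) (h : ∀ ξ, ξ ∉ O → f ξ = 0) : ∫⁻ ξ, ‖f ξ‖ₑ ≤ volume O := by
  have h1 : ∀ ξ, ‖f ξ‖ₑ ≤ O.indicator (fun _ => (1 : ℝ≥0∞)) ξ := fun ξ => by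
    by_cases hξ : ξ ∈ O
    · rw [indicator_of_mem hξ, ← ofReal_norm, ← ENNReal.ofReal_one]
      exact ENNReal.ofReal_le_ofReal (hf1 ξ)
    · rw [h ξ hξ]; simp
  refine (lintegral_mono h1).trans_eq ?_
  rw [lintegral_indicator hO, setLIntegral_one]

end Pool.Agent.H222.ER
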