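import Mathlib

/-!
Decomposition of a finite set into few sparse unions of clusters.
-/

open Finset

namespace Pool.Agent.H222.ER

variable {α : Type*}

/-- separated nets -/
theorem net [PseudoMetricSpace α] (S : Finset α) {δ : ℝ} (hδ : 0 ≤ δ) :
    ∃ Y ⊆ S, (∀ y ∈ Y, ∀ y' ∈ Y, y ≠ y' → δ < dist y y') ∧ ∀ x ∈ S, ∃ y ∈ Y, dist x y ≤ δ := by
  classical
  induction S using Finset.induction_on with
  | empty => exact ⟨∅, subset_rfl, by simp, by simp⟩
  | insert x S hx ih =>
    obtain ⟨Y, hYS, hsep, hcov⟩ := ih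
    by_cases h : ∃ y ∈ Y, dist x y ≤ δ
    · refine ⟨Y, hYS.trans (subset_insert _ _), hsep, fun z hz => ?_⟩
      rcases mem_insert.1 hz with rfl | hz
      · exact h
      · exact hcov z hz
    · push Not at h
      refine ⟨insert x Y, insert_subset_insert _ hYS, ?_, fun z hz => ?_⟩
      · intro y hy y' hy' hne
        rcases mem_insert.1 hy with h1 | h1
        · rcases mem_insert.1 hy' with h2 | h2
          · exact absurd (h1.trans h2.symm) hne
          · rw [h1]; exact h y' h2
        · rcases mem_insert.1 hy' with h2 | h2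
          · rw [dist_comm, h2]; exact h y h1
          · exact hsep y h1 y' h2 hne
      · rcases mem_insert.1 hz with rfl | hz
        · exact ⟨z, mem_insert_self _ _, by rw [dist_self]; exact hδ⟩
        · obtain ⟨y, hy, hd⟩ := hcov z hz
          exact ⟨y, mem_insert_of_mem hy, hd⟩

/-- greedy colouring -/
theorem coloring [DecidableEq α] (adj : α → α → Prop) (hsymm : ∀ a b, adj a b → adj b a)
    (w : α → ℕ) (D : ℕ) (Y : Finset α)
    (h : ∀ y ∈ Y, ∀ T ⊆ Y, (∀ z ∈ T, z ≠ y ∧ adj y z ∧ w y ≤ w z) → T.card ≤ D) :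
    ∃ c : α → ℕ, (∀ y ∈ Y, c y ≤ D) ∧ ∀ y ∈ Y, ∀ y' ∈ Y, y ≠ y' → adj y y' → c y ≠ c y' := by
  classical
  revert h
  refine Finset.induction_on_min_value w Y ?_ ?_
  · intro _
    exact ⟨fun _ => 0, by simp, by simp⟩
  · intro a s ha hmin ih h
    obtain ⟨c, hc, hcc⟩ := ih fun y hy T hT hz => h y (mem_insert_of_mem hy) T
      (hT.trans (subset_insert _ _)) hz
    set T : Finset α := s.filter (fun z => adj a z) with hT
    have hTc : T.card ≤ D := by
      refine h a (mem_insert_self _ _) T ((filter_subset _ _).trans (subset_insert _ _)) ?_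
      intro z hz
      obtain ⟨hzs, hza⟩ := mem_filter.1 hz
      exact ⟨fun h => ha (h ▸ hzs), hza, hmin z hzs⟩
    have hex : ∃ k ∈ range (D + 1), k ∉ T.image c := by
      by_contra hcon
      push Not at hcon
      have h1 : (range (D + 1)).card ≤ (T.image c).card := card_le_card hcon
      rw [card_range] at h1
      have h2 := card_image_le (s := T) (f := c)
      omega
    obtain ⟨k, hk, hkT⟩ := hex
    have hkD : k ≤ D := by have := mem_range.1 hk; omega
    refine ⟨fun z => if z = a then k else c z, fun y hy => ?_, fun y hy y' hy' hne hadj => ?_⟩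
    · by_cases hya : y = a
      · simp only [hya, if_true]; exact hkD
      · simp only [hya, if_false]
        exact hc y ((mem_insert.1 hy).resolve_left hya)
    · by_cases hya : y = a
      · have hy'a : y' ≠ a := fun h => hne (hya.trans h.symm)
        simp only [hya, if_true, hy'a, if_false]
        have hy's := (mem_insert.1 hy').resolve_left hy'a
        intro hk'
        exact hkT (mem_image.2 ⟨y', mem_filter.2 ⟨hy's, hya ▸ hadj⟩, hk'.symm⟩)
      · have hys := (mem_insert.1 hy).resolve_left hya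
        by_cases hy'a : y' = a
        · simp only [hya, if_false, hy'a, if_true]
          intro hk'
          exact hkT (mem_image.2 ⟨y, mem_filter.2 ⟨hys, hsymm _ _ (hy'a ▸ hadj)⟩, hk'⟩)
        · simp only [hya, if_false, hy'a]
          exact hcc y hys y' ((mem_insert.1 hy').resolve_left hy'a) hne hadj

/-- decomposition into sparse unions of clusters -/
theorem cover [PseudoMetricSpace α] [DecidableEq α] (X : Finset α) {J : ℕ} (hJ : 1 ≤ J)
    (ρ L : ℕ → ℝ) (hρ : ∀ j, 0 ≤ ρ j) (hL : ∀ j, L j + ρ j ≤ ρ (j + 1)) (D : ℕ)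
    (hD : X.card ≤ D ^ J) :
    ∃ (col : α → ℕ × ℕ) (cl : α → α), (∀ x ∈ X, (col x).1 < J ∧ (col x).2 ≤ D) ∧
      (∀ x ∈ X, dist x (cl x) ≤ 2 * ρ (col x).1) ∧
      ∀ x ∈ X, ∀ x' ∈ X, col x = col x' → cl x ≠ cl x' → L (col x).1 ≤ dist (cl x) (cl x') := by
  classical
  set m : ℕ → α → ℕ := fun j x => (X.filter (fun z => dist z x ≤ ρ j)).card with hm
  have hm0 : ∀ j, ∀ x ∈ X, 1 ≤ m j x := fun j x hx =>
    card_pos.2 ⟨x, mem_filter.2 ⟨hx, by rw [dist_self]; exact hρ j⟩⟩
  have hmN : ∀ j x, m j x ≤ X.card := fun j x => card_le_card (filter_subset _ _)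
  -- pigeonhole
  have hpig : ∀ x ∈ X, ∃ j < J, m (j + 1) x ≤ D * m j x := fun x hx => by
    by_contra hcon
    push Not at hcon
    have h1 : ∀ j ≤ J, D ^ j ≤ m j x ∧ (0 < j → D ^ j < m j x) := fun j hj => by
      induction j with
      | zero => exact ⟨by rw [pow_zero]; exact hm0 0 x hx, fun h => absurd h (lt_irrefl _)⟩
      | succ j ih =>
        have h2 := ih (by omega)
        have h3 := hcon j (by omega)
        have h4 : D ^ (j + 1) < m (j + 1) x := by
          calc D ^ (j + 1) = D * D ^ j := by rw [pow_succ, mul_comm]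
            _ ≤ D * m j x := Nat.mul_le_mul_left _ h2.1
            _ < _ := h3
        exact ⟨h4.le, fun _ => h4⟩
    have h2 := (h1 J le_rfl).2 hJ
    have h3 := hmN J x
    omega
  choose! jf hjf1 hjf2 using hpig
  -- nets and colourings
  have hnet := fun j : ℕ => net (X.filter (fun x => jf x = j)) (δ := 2 * ρ j)
    (by have := hρ j; linarith)
  choose Y hYS hYsep hYcov using hnet
  have hcolor : ∀ j : ℕ, ∃ c : α → ℕ, (∀ y ∈ Y j, c y ≤ D) ∧
      ∀ y ∈ Y j, ∀ y' ∈ Y j, y ≠ y' → dist y y' < L j → c y ≠ c y' := fun j => by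
    refine coloring (fun y y' => dist y y' < L j) (fun a b h => by rw [dist_comm]; exact h)
      (m j) D (Y j) fun y hy T hT hz => ?_
    have hyX : y ∈ X := (mem_filter.1 (hYS j hy)).1
    have hyj : jf y = j := (mem_filter.1 (hYS j hy)).2
    have h1 : m (j + 1) y ≤ D * m j y := by
      have := hjf2 y hyX
      rwa [hyj] at this
    have h2 : ∑ z ∈ T, m j z ≤ m (j + 1) y := by
      have hdisj : ∀ z ∈ T, ∀ z' ∈ T, z ≠ z' → Disjoint (X.filter (fun u => dist u z ≤ ρ j))
          (X.filter (fun u => dist u z' ≤ ρ j)) := fun z hzT z' hz'T hne => by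
        rw [Finset.disjoint_left]
        intro u hu hu'
        have e1 := (mem_filter.1 hu).2
        have e2 := (mem_filter.1 hu').2
        have e3 := hYsep j z (hT hzT) z' (hT hz'T) hne
        have e4 := dist_triangle z u z'
        rw [dist_comm z u] at e4
        linarith
      rw [← card_biUnion hdisj]
      apply card_le_card
      intro u hu
      obtain ⟨z, hzT, hu⟩ := mem_biUnion.1 hu
      obtain ⟨huX, huz⟩ := mem_filter.1 hu
      refine mem_filter.2 ⟨huX, ?_⟩
      have e1 : dist y z < L j := (hz z hzT).2.1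
      have e2 := dist_triangle u z y
      rw [dist_comm z y] at e2
      have e3 := hL j
      linarith
    have h3 : T.card * m j y ≤ ∑ z ∈ T, m j z := by
      rw [← smul_eq_mul, ← sum_const]
      exact sum_le_sum fun z hzT => (hz z hzT).2.2
    have h4 := hm0 j y hyX
    exact Nat.le_of_mul_le_mul_right (h3.trans (h2.trans h1)) h4
  choose c hcD hc using hcolor
  have hcl : ∀ x ∈ X, ∃ y ∈ Y (jf x), dist x y ≤ 2 * ρ (jf x) := fun x hx =>
    hYcov (jf x) x (mem_filter.2 ⟨hx, rfl⟩)
  choose! cl hclY hcld using hcl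
  refine ⟨fun x => (jf x, c (jf x) (cl x)), cl, fun x hx => ⟨hjf1 x hx, hcD _ _ (hclY x hx)⟩,
    hcld, fun x hx x' hx' hcc hne => ?_⟩
  simp only [Prod.mk.injEq] at hcc
  obtain ⟨hj, hcc⟩ := hcc
  have h1 := hclY x hx
  have h2 := hclY x' hx'
  rw [← hj] at h2 hcc
  by_contra hcon
  push Not at hcon
  exact hc (jf x) _ h1 _ h2 hne hcon hcc

end Pool.Agent.H222.ER
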