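import Pool.Agent.H222.ER.Ck
import Pool.Agent.H222.ER.Final

/-!
The estimates on the cube.
-/

open MeasureTheory Set Filter Metric
open scoped ENNReal NNReal Topology ContDiff

namespace Pool.Agent.H222.ER

open Pool.Agent.Helper184.PH

variable {n : ℕ}

/-- the global estimate for bounded functions -/
def GE (n : ℕ) (q : ℝ) : Prop :=
  ∃ C : ℝ≥0, ∀ f : E n → ℂ, Measurable f → (∀ ξ, ‖f ξ‖ ≤ 1) → (∫⁻ x, ‖TP f x‖ₑ ^ q) ≤ C

theorem ind_cube_int {f : E n → ℂ} (hf : Measurable f) (hf1 : ∀ ξ, ‖f ξ‖ ≤ 1) :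
    Integrable ((cube n).indicator f) := by
  rw [integrable_indicator_iff cube_meas]
  exact Integrable.of_bound hf.aestronglyMeasurable 1 (Eventually.of_forall hf1)

/-- the function compressed to a small ball -/
noncomputable def cmp (f : E n → ℂ) (ξ : E n) : ℂ := (cube n).indicator f ((sc n)⁻¹ • ξ)

theorem cmp_meas {f : E n → ℂ} (hf : Measurable f) : Measurable (cmp f) := by
  unfold cmp
  exact (hf.indicator cube_meas).comp (measurable_const_smul _)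

theorem cmp_le {f : E n → ℂ} (hf1 : ∀ ξ, ‖f ξ‖ ≤ 1) (ξ : E n) : ‖cmp f ξ‖ ≤ 1 :=
  (norm_indicator_le_norm_self _ _).trans (hf1 _)

theorem cmp_zero (f : E n → ℂ) (ξ : E n) (hξ : ξ ∉ ball (0 : E n) (1 / 2)) : cmp f ξ = 0 := by
  unfold cmp
  refine indicator_of_notMem (fun h => hξ ?_) _
  exact mem_ball_zero_iff.2 (sc_mem h)

theorem cmp_eq (f : E n → ℂ) :
    (fun ξ => cmp f (((sc n)⁻¹)⁻¹ • ξ)) = (cube n).indicator f := by
  funext ξ
  unfold cmp
  rw [inv_inv, smul_smul, inv_mul_cancel₀ (sc_pos n).ne', one_smul]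

/-- real and imaginary parts -/
theorem FR_split {q : ℝ} (hq : 1 ≤ q) {B : Set (E n × ℝ)} {D : ℝ≥0∞}
    (hD : ∀ f, FR n f → NN q B f ≤ D) {f : E n → ℂ} (hf : Measurable f) (hf1 : ∀ ξ, ‖f ξ‖ ≤ 1)
    (hf0 : ∀ ξ, ξ ∉ ball (0 : E n) (1 / 2) → f ξ = 0) : NN q B f ≤ 2 ^ q * D := by
  have hq0 : 0 ≤ q := by linarith
  set g : E n → ℂ := fun ξ => ((f ξ).re : ℂ) with hg
  set h : E n → ℂ := fun ξ => ((f ξ).im : ℂ) with hh
  have hgR : FR n g := ⟨by rw [hg]; fun_prop, fun ξ => by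
    rw [hg]
    simp only
    rw [Complex.norm_real]
    exact (Complex.abs_re_le_norm _).trans (hf1 ξ), fun ξ hξ => by rw [hg]; simp [hf0 ξ hξ],
    fun ξ => Complex.ofReal_im _⟩
  have hhR : FR n h := ⟨by rw [hh]; fun_prop, fun ξ => by
    rw [hh]
    simp only
    rw [Complex.norm_real]
    exact (Complex.abs_im_le_norm _).trans (hf1 ξ), fun ξ hξ => by rw [hh]; simp [hf0 ξ hξ],
    fun ξ => Complex.ofReal_im _⟩
  have h1 : f = fun ξ => g ξ + Complex.I * h ξ := by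
    funext ξ
    rw [hg, hh]
    simp only
    rw [mul_comm]
    exact (Complex.re_add_im (f ξ)).symm
  have h2 := NN_add' hq B hgR.int (hhR.int.const_mul Complex.I)
  rw [← h1] at h2
  refine h2.trans ?_
  have h3 : NN q B (fun ξ => Complex.I * h ξ) = NN q B h := by
    rw [NN_smul hq0, ← ofReal_norm, Complex.norm_I, ENNReal.ofReal_one, ENNReal.one_rpow, one_mul]
  rw [h3]
  calc 2 ^ (q - 1) * (NN q B g + NN q B h) ≤ 2 ^ (q - 1) * (D + D) := by
        gcongr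
        · exact hD g hgR
        · exact hD h hhR
    _ = 2 ^ (q - 1) * 2 ^ (1 : ℝ) * D := by rw [← two_mul, ENNReal.rpow_one]; ring
    _ = 2 ^ q * D := by
        rw [← ENNReal.rpow_add_of_nonneg _ _ (by linarith) zero_le_one]
        congr 2; ring

/-- from the small ball to the cube -/
theorem est_of_FR {q σ : ℝ} (hq : 1 ≤ q) (h : ∃ C : ℝ≥0, ∀ R : ℝ, 1 ≤ R → ∀ f, FR n f →
    NN q (BB n R) f ≤ C * ENNReal.ofReal (R ^ σ)) : Est n q σ := by
  obtain ⟨C, hC⟩ := h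
  have hq0 : 0 ≤ q := by linarith
  obtain ⟨c, hct, hc⟩ := NN_dil (n := n) (q := q) (l := (sc n)⁻¹) hq0 (inv_pos.2 (sc_pos n))
  set b : ℝ := (1 + (sc n)⁻¹) ^ 2 with hb
  have hs := inv_pos.2 (sc_pos n)
  have hb1 : 1 ≤ b := by
    rw [hb]
    have : (1 : ℝ) ≤ 1 + (sc n)⁻¹ := by linarith
    exact one_le_pow₀ this
  set K : ℝ≥0∞ := c * (2 ^ q * (C * ENNReal.ofReal (b ^ σ))) with hK
  have hKt : K ≠ ⊤ := ENNReal.mul_ne_top hct (ENNReal.mul_ne_top (by simp)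
    (ENNReal.mul_ne_top ENNReal.coe_ne_top ENNReal.ofReal_ne_top))
  refine ⟨K.toNNReal, fun f hf hf1 R hR => ?_⟩
  rw [ENNReal.coe_toNNReal hKt]
  have h1 : J volume q (TP f) R = NN q (BB n R) ((cube n).indicator f) := by
    unfold J NN
    rw [TP_eq]
  have hcint : Integrable (cmp f) := integrable_of_bdd (cmp_meas hf) (cmp_le hf1) (cmp_zero f)
  have h2 := hc (cmp f) hcint (BB n R) (BB n (b * R)) (BB_meas R) (BB_meas _)
    fun x hx => dil_mem hs hx
  rw [cmp_eq] at h2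
  rw [h1]
  refine h2.trans ?_
  have h3 := FR_split hq (B := BB n (b * R)) (D := C * ENNReal.ofReal ((b * R) ^ σ))
    (fun f hf => hC (b * R) (one_le_mul_of_one_le_of_one_le hb1 hR) f hf) (cmp_meas hf) (cmp_le hf1)
    (cmp_zero f)
  refine (mul_le_mul' le_rfl h3).trans (le_of_eq ?_)
  rw [Real.mul_rpow (by linarith) (by linarith), ENNReal.ofReal_mul (by positivity), hK]
  ring

/-- the hypothesis of the theorem on the removal of losses -/
theorem HL_of_Est {q : ℝ} (hq : 0 ≤ q) (h : ∀ ε : ℝ, 0 < ε → Est n q ε) : HL n q 3 := by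
  intro ε hε
  obtain ⟨C, hC⟩ := h ε hε
  obtain ⟨c, hct, hc⟩ := NN_dil (n := n) (q := q) (l := 3) hq (by norm_num)
  set K : ℝ≥0∞ := c * (C * ENNReal.ofReal (16 ^ ε)) with hK
  have hKt : K ≠ ⊤ := ENNReal.mul_ne_top hct
    (ENNReal.mul_ne_top ENNReal.coe_ne_top ENNReal.ofReal_ne_top)
  refine ⟨K.toNNReal, fun R hR f hf hf1 hf0 => ?_⟩
  rw [ENNReal.coe_toNNReal hKt]
  have hR1 : (1 : ℝ) ≤ R := by exact_mod_cast hR
  set g : E n → ℂ := fun ξ => f ((3 : ℝ) • ξ) with hg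
  have hgm : Measurable g := hf.comp (measurable_const_smul _)
  have hg0 : ∀ ξ, ξ ∉ ball (0 : E n) 1 → g ξ = 0 := fun ξ hξ => by
    refine hf0 _ fun h => hξ ?_
    rw [mem_ball_zero_iff] at h ⊢
    rw [norm_smul, Real.norm_ofNat] at h
    linarith
  have hgi : Integrable g := integrable_of_bdd hgm (M := 1) (fun ξ => hf1 _) hg0
  have h1 := hc g hgi (BB n R) (BB n ((1 + 3) ^ 2 * R)) (BB_meas _) (BB_meas _)
    fun x hx => dil_mem (by norm_num) hx
  have h2 : (fun ξ => g ((3 : ℝ)⁻¹ • ξ)) = f := by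
    funext ξ
    show f ((3 : ℝ) • (3 : ℝ)⁻¹ • ξ) = f ξ
    rw [smul_smul, mul_inv_cancel₀ (by norm_num), one_smul]
  rw [h2] at h1
  have h3 : (cube n).indicator g = g := by
    funext ξ
    by_cases hξ : ξ ∈ cube n
    · rw [indicator_of_mem hξ]
    · rw [indicator_of_notMem hξ, hg0 ξ fun h => hξ (ball_sub_cube (mem_ball_zero_iff.1 h).le)]
  have h4 := hC g hgm (fun ξ => hf1 _) ((1 + 3) ^ 2 * R) (by nlinarith)
  have h5 : J volume q (TP g) ((1 + 3) ^ 2 * R) = NN q (BB n ((1 + 3) ^ 2 * R)) g := by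
    unfold J NN
    rw [TP_eq, h3]
  rw [h5] at h4
  refine h1.trans ((mul_le_mul' le_rfl h4).trans (le_of_eq ?_))
  have e1 : ((1 : ℝ) + 3) ^ 2 = 16 := by norm_num
  rw [e1, Real.mul_rpow (by norm_num) R.coe_nonneg, ENNReal.ofReal_mul (by positivity), hK,
    ← ENNReal.ofReal_rpow_of_nonneg R.coe_nonneg hε.le, ENNReal.ofReal_coe_nnreal]
  ring

/-- **Removal of the losses, on the cube.** -/
theorem GE_of_eps (hn : 1 ≤ n) {p s : ℝ} (hp : 2 ≤ p) (h : ∀ ε : ℝ, 0 < ε → Est n p ε)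
    (hs : p < s) : GE n s := by
  obtain ⟨C, hCt, hC⟩ := eps_removal hn hp (HL_of_Est (by linarith) h) hs
  have hs0 : 0 ≤ s := by linarith
  have hsc := inv_pos.2 (sc_pos n)
  obtain ⟨c, hct, hc⟩ := NN_dil (n := n) (q := s) (l := (sc n)⁻¹) hs0 hsc
  have hKt : c * C ≠ ⊤ := ENNReal.mul_ne_top hct hCt
  refine ⟨(c * C).toNNReal, fun f hf hf1 => ?_⟩
  rw [ENNReal.coe_toNNReal hKt]
  have hcint : Integrable (cmp f) := integrable_of_bdd (cmp_meas hf) (cmp_le hf1) (cmp_zero f)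
  have h2 := hc (cmp f) hcint univ univ MeasurableSet.univ MeasurableSet.univ fun x _ => mem_univ _
  rw [cmp_eq] at h2
  unfold NN at h2
  rw [Measure.restrict_univ, ← TP_eq] at h2
  refine h2.trans ?_
  gcongr
  exact hC _ (cmp_meas hf) (cmp_le hf1) fun ξ hξ => cmp_zero f ξ fun h =>
    hξ (ball_subset_ball (by norm_num) h)

/-- from global estimates to local estimates with small losses -/
theorem Est_of_GE {p : ℝ} (hp : 0 < p) (h : ∀ s : ℝ, p < s → GE n s) {ε : ℝ} (hε : 0 < ε) :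
    Est n p ε := by
  -- the exponent `s`
  set θ : ℝ := min (1 / 2) (ε / (n + 1)) with hθ
  have hθ0 : 0 < θ := lt_min (by norm_num) (by positivity)
  have hθ1 : θ ≤ 1 / 2 := min_le_left _ _
  have hθε : ((n : ℝ) + 1) * θ ≤ ε := by
    have h1 : θ ≤ ε / (n + 1) := min_le_right _ _
    calc ((n : ℝ) + 1) * θ ≤ (n + 1) * (ε / (n + 1)) := by gcongr
      _ = ε := by field_simp
  set s : ℝ := p / (1 - θ) with hs
  have hs1 : p < s := by
    rw [hs, lt_div_iff₀ (by linarith)]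
    nlinarith
  have hs0 : 0 < s := by linarith
  have hps : p / s = 1 - θ := by
    rw [hs]; field_simp
  obtain ⟨C, hC⟩ := h s hs1
  set v : ℝ≥0∞ := volume (ball (0 : E n × ℝ) 1) with hv
  have hvt : v ≠ ⊤ := measure_ball_lt_top.ne
  set K : ℝ≥0∞ := (C : ℝ≥0∞) ^ (1 - θ) * v ^ θ with hK
  have hKt : K ≠ ⊤ := ENNReal.mul_ne_top (ENNReal.rpow_ne_top_of_nonneg (by linarith)
    ENNReal.coe_ne_top) (ENNReal.rpow_ne_top_of_nonneg hθ0.le hvt)
  refine ⟨K.toNNReal, fun f hf hf1 R hR => ?_⟩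
  rw [ENNReal.coe_toNNReal hKt]
  have hR0 : 0 ≤ R := by linarith
  have hFm : Measurable fun x => ‖TP f x‖ₑ := by
    rw [TP_eq]; exact TT_meas (ind_cube_int hf hf1)
  have hpq : (1 / (1 - θ)).HolderConjugate (1 / θ) := by
    rw [Real.holderConjugate_iff]
    refine ⟨?_, ?_⟩
    · rw [lt_div_iff₀ (by linarith)]; linarith
    · rw [one_div, one_div, inv_inv, inv_inv]; ring
  have h1 := ENNReal.lintegral_mul_le_Lp_mul_Lq (volume.restrict (BB n R)) hpq
    (f := fun x => ‖TP f x‖ₑ ^ p) (g := fun _ => 1) (hFm.pow_const p).aemeasurable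
    aemeasurable_const
  simp only [Pi.mul_apply, mul_one, ENNReal.one_rpow, lintegral_const, one_div, inv_inv, one_mul,
    Measure.restrict_apply_univ] at h1
  refine h1.trans ?_
  have h2 : ∀ x, (‖TP f x‖ₑ ^ p) ^ (1 - θ)⁻¹ = ‖TP f x‖ₑ ^ s := fun x => by
    rw [← ENNReal.rpow_mul, hs, div_eq_mul_inv]
  simp only [h2]
  have h3 : ∫⁻ x in BB n R, ‖TP f x‖ₑ ^ s ≤ C :=
    (setLIntegral_le_lintegral _ _).trans (hC f hf hf1)
  have h4 : volume (BB n R) = ENNReal.ofReal R ^ ((n : ℝ) + 1) * v := by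
    have := vol_BB n R.toNNReal
    rw [Real.coe_toNNReal R hR0] at this
    rw [this]
    rfl
  rw [h4]
  calc (∫⁻ x in BB n R, ‖TP f x‖ₑ ^ s) ^ (1 - θ) * (ENNReal.ofReal R ^ ((n : ℝ) + 1) * v) ^ θ
      ≤ (C : ℝ≥0∞) ^ (1 - θ) * (ENNReal.ofReal R ^ ((n : ℝ) + 1) * v) ^ θ := by
        gcongr
        linarith
    _ = K * ENNReal.ofReal R ^ (((n : ℝ) + 1) * θ) := by
        rw [ENNReal.mul_rpow_of_nonneg _ _ hθ0.le, ← ENNReal.rpow_mul, hK]
        ring
    _ ≤ K * ENNReal.ofReal R ^ ε := by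
        gcongr
        rw [← ENNReal.ofReal_one]
        exact ENNReal.ofReal_le_ofReal hR
    _ = _ := by rw [ENNReal.ofReal_rpow_of_nonneg hR0 hε.le]

theorem TP_uni (φ : E n → ℝ) (R : ℝ) :
    TP (fun ξ => Complex.exp ((R * φ ξ : ℝ) * Complex.I)) = TT (uni (cube n) φ R) := by
  rw [TP_eq]; rfl

theorem SL_of_Est {q τ : ℝ} (k : ℕ) (h : Est n q τ) : SL n k q τ := by
  obtain ⟨C, hC⟩ := h
  refine ⟨C, fun φ hφ _ _ R hR => ?_⟩
  have h1 := hC (fun ξ => Complex.exp ((R * φ ξ : ℝ) * Complex.I)) (by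
    have := hφ.continuous.measurable
    fun_prop) (fun ξ => by rw [Complex.norm_exp_ofReal_mul_I]) R hR
  unfold J at h1
  rw [TP_uni] at h1
  exact h1

/-- **Phases with finitely many bounded derivatives: the quantitative statement.** -/
theorem Est_of_SL {q τ : ℝ} (hq : 1 ≤ q) {k : ℕ} (hk : 1 ≤ k) (hτ1 : τ < 1)
    (h : SL n k q τ) : Est n q (k * τ) := est_of_FR hq (ck_ball hq hk hτ1 h)

/-- **Phases with finitely many bounded derivatives: equivalence.** -/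
theorem GE_iff_SL (hn : 1 ≤ n) {p : ℝ} (hp : 2 ≤ p) :
    (∀ s : ℝ, p < s → GE n s) ↔ ∀ ε : ℝ, 0 < ε → ∃ k : ℕ, 1 ≤ k ∧ SL n k p (ε / k) := by
  constructor
  · intro h ε hε
    refine ⟨1, le_rfl, SL_of_Est 1 ?_⟩
    rw [Nat.cast_one, div_one]
    exact Est_of_GE (by linarith) h hε
  · intro h s hs
    refine GE_of_eps hn hp (fun ε hε => ?_) hs
    obtain ⟨k, hk, hS⟩ := h (min ε (1 / 2)) (lt_min hε (by norm_num))
    have hk1 : (1 : ℝ) ≤ k := by exact_mod_cast hk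
    have h1 : min ε (1 / 2) ≤ 1 / 2 := min_le_right _ _
    have h0 : 0 < min ε (1 / 2) := lt_min hε (by norm_num)
    have h2 := Est_of_SL (by linarith) hk (by
      rw [div_lt_one (by linarith)]; linarith) hS
    rw [mul_div_cancel₀ _ (by linarith : (k : ℝ) ≠ 0)] at h2
    exact Est_mono (min_le_left _ _) h2

end Pool.Agent.H222.ER
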