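import Pool.Agent.H222.ER.Core

/-!
Gaussian averages of the characters of the paraboloid.
-/

open MeasureTheory Set Filter Metric
open scoped ENNReal NNReal Topology

namespace Pool.Agent.H222.ER

open Pool.Agent.Helper184.PH GaussianFourier

variable {n : ℕ}

/-- the Gaussian weight of width `r` -/
noncomputable def gw (r : ℝ) (ζ ξ : E n) : ℝ := Real.exp (-(Real.pi / r ^ 2) * ‖ξ - ζ‖ ^ 2)

theorem gw_pos (r : ℝ) (ζ ξ : E n) : 0 < gw r ζ ξ := Real.exp_pos _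

theorem gw_cont (r : ℝ) : Continuous fun p : E n × E n => gw r p.1 p.2 := by
  unfold gw; fun_prop

theorem gw_cont_right (r : ℝ) (ζ : E n) : Continuous fun ξ : E n => gw r ζ ξ := by
  unfold gw; fun_prop

theorem gauss_int {b : ℝ} (hb : 0 < b) : Integrable fun ξ : E n => Real.exp (-b * ‖ξ‖ ^ 2) := by
  have h := integral_rexp_neg_mul_sq_norm (V := E n) hb
  by_contra hc
  rw [integral_undef hc] at h
  have : 0 < (Real.pi / b) ^ ((Module.finrank ℝ (E n) : ℝ) / 2) := by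
    have := Real.pi_pos
    positivity
  rw [← h] at this
  exact lt_irrefl _ this

theorem gw_int {r : ℝ} (hr : 0 < r) (ζ : E n) : Integrable fun ξ : E n => gw r ζ ξ := by
  have hb : 0 < Real.pi / r ^ 2 := by have := Real.pi_pos; positivity
  exact (gauss_int (n := n) hb).comp_sub_right ζ

theorem gw_integral {r : ℝ} (hr : 0 < r) (ζ : E n) : ∫ ξ, gw r ζ ξ = r ^ n := by
  have hb : 0 < Real.pi / r ^ 2 := by have := Real.pi_pos; positivity
  have h1 : ∫ ξ, gw r ζ ξ = ∫ ξ : E n, Real.exp (-(Real.pi / r ^ 2) * ‖ξ‖ ^ 2) :=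
    integral_sub_right_eq_self (fun ξ : E n => Real.exp (-(Real.pi / r ^ 2) * ‖ξ‖ ^ 2)) ζ
  rw [h1, integral_rexp_neg_mul_sq_norm hb, finrank_euclideanSpace, Fintype.card_fin]
  have h2 : Real.pi / (Real.pi / r ^ 2) = r ^ 2 := by
    have := Real.pi_pos
    field_simp
  rw [h2, ← Real.rpow_natCast r 2, ← Real.rpow_mul hr.le, ← Real.rpow_natCast]
  congr 1
  push_cast
  ring

theorem gw_lint {r : ℝ} (hr : 0 < r) (ζ : E n) :
    ∫⁻ ξ, ENNReal.ofReal (gw r ζ ξ) = ENNReal.ofReal (r ^ n) := by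
  rw [← ofReal_integral_eq_lintegral_ofReal (gw_int hr ζ)
    (Eventually.of_forall fun ξ => (gw_pos r ζ ξ).le), gw_integral hr]

/-- the first moment -/
theorem gw_moment {r : ℝ} (hr : 0 < r) (ζ : E n) :
    ∫⁻ ξ, ENNReal.ofReal (gw r ζ ξ * ‖ξ - ζ‖) ≤ ENNReal.ofReal (2 ^ n * r ^ (n + 1)) := by
  set s : ℝ := Real.sqrt 2 * r with hs
  have hs0 : 0 < s := by positivity
  have hs2 : s ^ 2 = 2 * r ^ 2 := by
    rw [hs, mul_pow, Real.sq_sqrt (by norm_num)]
  have hpi := Real.pi_gt_three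
  have hpt : ∀ ξ, gw r ζ ξ * ‖ξ - ζ‖ ≤ r * gw s ζ ξ := fun ξ => by
    set u : ℝ := ‖ξ - ζ‖ / r with hu
    have hu0 : 0 ≤ u := by positivity
    have h1 : ‖ξ - ζ‖ = r * u := by rw [hu]; field_simp
    have h2 : gw r ζ ξ = gw s ζ ξ * Real.exp (-(Real.pi / 2) * u ^ 2) := by
      unfold gw
      rw [← Real.exp_add]
      congr 1
      rw [hs2, h1]
      field_simp
      ring
    have h3 : u ≤ Real.exp (Real.pi / 2 * u ^ 2) := by
      have h4 := Real.add_one_le_exp (Real.pi / 2 * u ^ 2)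
      nlinarith [sq_nonneg (u - 1)]
    have h5 : Real.exp (-(Real.pi / 2) * u ^ 2) * u ≤ 1 := by
      calc Real.exp (-(Real.pi / 2) * u ^ 2) * u
          ≤ Real.exp (-(Real.pi / 2) * u ^ 2) * Real.exp (Real.pi / 2 * u ^ 2) := by gcongr
        _ = 1 := by rw [← Real.exp_add]; simp
    rw [h2, h1]
    calc gw s ζ ξ * Real.exp (-(Real.pi / 2) * u ^ 2) * (r * u)
        = r * gw s ζ ξ * (Real.exp (-(Real.pi / 2) * u ^ 2) * u) := by ring
      _ ≤ r * gw s ζ ξ * 1 := by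
          have := (gw_pos s ζ ξ).le
          gcongr
      _ = _ := mul_one _
  calc ∫⁻ ξ, ENNReal.ofReal (gw r ζ ξ * ‖ξ - ζ‖)
      ≤ ∫⁻ ξ, ENNReal.ofReal r * ENNReal.ofReal (gw s ζ ξ) := by
        refine lintegral_mono fun ξ => ?_
        rw [← ENNReal.ofReal_mul hr.le]
        exact ENNReal.ofReal_le_ofReal (hpt ξ)
    _ = ENNReal.ofReal r * ENNReal.ofReal (s ^ n) := by
        rw [lintegral_const_mul' _ _ ENNReal.ofReal_ne_top, gw_lint hs0]
    _ ≤ ENNReal.ofReal (2 ^ n * r ^ (n + 1)) := by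
        rw [← ENNReal.ofReal_mul hr.le]
        apply ENNReal.ofReal_le_ofReal
        have h6 : s ≤ 2 * r := by
          rw [hs]
          have : Real.sqrt 2 ≤ 2 := by
            rw [Real.sqrt_le_left (by norm_num)]; norm_num
          gcongr
        calc r * s ^ n ≤ r * (2 * r) ^ n := by gcongr
          _ = _ := by rw [mul_pow, pow_succ]; ring

/-- lower bound for the mass near a point -/
theorem gw_lower {r : ℝ} (hr : 0 < r) (hr1 : r ≤ 1) {ξ : E n} (hξ : ξ ∈ ball (0 : E n) 1) :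
    ENNReal.ofReal (Real.exp (-Real.pi)) * volume (ball (0 : E n) 1) * ENNReal.ofReal (r ^ n) ≤
      ∫⁻ ζ in ball (0 : E n) 2, ENNReal.ofReal (gw r ζ ξ) := by
  have hsub : ball ξ r ⊆ ball (0 : E n) 2 := fun ζ hζ => by
    rw [mem_ball_zero_iff] at hξ ⊢
    rw [mem_ball, dist_eq_norm] at hζ
    calc ‖ζ‖ = ‖(ζ - ξ) + ξ‖ := by rw [sub_add_cancel]
      _ ≤ ‖ζ - ξ‖ + ‖ξ‖ := norm_add_le _ _
      _ < 2 := by linarith
  have hvol : volume (ball ξ r) = ENNReal.ofReal (r ^ n) * volume (ball (0 : E n) 1) := by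
    rw [Measure.addHaar_ball_of_pos _ _ hr, finrank_euclideanSpace, Fintype.card_fin]
  calc ENNReal.ofReal (Real.exp (-Real.pi)) * volume (ball (0 : E n) 1) * ENNReal.ofReal (r ^ n)
      = ENNReal.ofReal (Real.exp (-Real.pi)) * volume (ball ξ r) := by rw [hvol]; ring
    _ = ∫⁻ ζ in ball ξ r, ENNReal.ofReal (Real.exp (-Real.pi)) := by rw [setLIntegral_const]
    _ ≤ ∫⁻ ζ in ball ξ r, ENNReal.ofReal (gw r ζ ξ) := by
        refine setLIntegral_mono' measurableSet_ball fun ζ hζ => ?_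
        apply ENNReal.ofReal_le_ofReal
        unfold gw
        apply Real.exp_le_exp.2
        rw [mem_ball, dist_eq_norm, norm_sub_rev] at hζ
        have hpi := Real.pi_pos
        have h1 : ‖ξ - ζ‖ ^ 2 ≤ r ^ 2 := by gcongr
        have h2 : Real.pi / r ^ 2 * ‖ξ - ζ‖ ^ 2 ≤ Real.pi / r ^ 2 * r ^ 2 := by gcongr
        rw [div_mul_cancel₀ _ (by positivity)] at h2
        linarith
    _ ≤ _ := lintegral_mono_set hsub

/-- the Gaussian average of a character, exactly -/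
theorem gw_char {r : ℝ} (hr : 0 < r) (ζ : E n) (y : E n × ℝ) :
    ‖∫ ξ, (gw r ζ ξ : ℂ) * KP ξ y‖ =
      (Real.pi / ‖((Real.pi / r ^ 2 : ℝ) : ℂ) - ((2 * Real.pi * y.2 : ℝ) : ℂ) * Complex.I‖) ^
        ((n : ℝ) / 2) *
      Real.exp (-(Real.pi ^ 2 * ‖y.1 + (2 * y.2) • ζ‖ ^ 2 * (Real.pi / r ^ 2) /
        ((Real.pi / r ^ 2) ^ 2 + (2 * Real.pi * y.2) ^ 2))) := by
  have hpi := Real.pi_pos
  set β : ℝ := Real.pi / r ^ 2 with hβ
  have hβ0 : 0 < β := by positivity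
  set b : ℂ := (β : ℂ) - ((2 * Real.pi * y.2 : ℝ) : ℂ) * Complex.I with hb
  have hbre : b.re = β := by simp [hb]
  have hbim : b.im = -(2 * Real.pi * y.2) := by simp [hb]
  have hbre0 : 0 < b.re := by rw [hbre]; exact hβ0
  set w : E n := y.1 + (2 * y.2) • ζ with hw
  have h1 : ∫ ξ, (gw r ζ ξ : ℂ) * KP ξ y = KP ζ y * ∫ η : E n, Complex.exp (-b * ‖η‖ ^ 2 +
      (2 * Real.pi * Complex.I) * inner ℝ w η) := by
    rw [← integral_const_mul,
      ← integral_sub_right_eq_self (fun η : E n => KP ζ y * Complex.exp (-b * ‖η‖ ^ 2 +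
        (2 * Real.pi * Complex.I) * inner ℝ w η)) ζ]
    refine integral_congr_ae (Eventually.of_forall fun ξ => ?_)
    show (gw r ζ ξ : ℂ) * KP ξ y = KP ζ y * Complex.exp (-b * ‖ξ - ζ‖ ^ 2 +
        (2 * Real.pi * Complex.I) * inner ℝ w (ξ - ζ))
    have h2 := KP_galilei ζ (ξ - ζ) 1 one_ne_zero y
    have h3 : ζ + (1 : ℝ) • (ξ - ζ) = ξ := by rw [one_smul]; abel
    have h4 : Lm ζ 1 one_ne_zero y = (w, y.2) := by
      show ((1 : ℝ) • (y.1 + (2 * y.2) • ζ), (1 : ℝ) ^ 2 * y.2) = _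
      rw [one_smul, one_pow, one_mul]
    rw [h3, h4] at h2
    rw [h2, mul_left_comm]
    congr 1
    unfold gw KP
    rw [Complex.ofReal_exp, ← Complex.exp_add]
    congr 1
    rw [hb, hβ, real_inner_comm (ξ - ζ) w]
    push_cast
    ring
  rw [h1, integral_cexp_neg_mul_sq_norm_add hbre0, norm_mul, KP_norm_eq, one_mul, norm_mul]
  congr 1
  · have h2 : ((Module.finrank ℝ (E n) : ℂ) / 2) = (((n : ℝ) / 2 : ℝ) : ℂ) := by
      rw [finrank_euclideanSpace, Fintype.card_fin]; push_cast; rfl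
    rw [h2, Complex.norm_cpow_real, norm_div, Complex.norm_real, Real.norm_of_nonneg hpi.le]
  · rw [Complex.norm_exp]
    congr 1
    have h3 : (2 * (Real.pi : ℂ) * Complex.I) ^ 2 * (‖w‖ : ℂ) ^ 2 / (4 * b) =
        ((-(Real.pi ^ 2 * ‖w‖ ^ 2) : ℝ) : ℂ) * b⁻¹ := by
      rw [mul_pow, Complex.I_sq, mul_pow]
      push_cast
      field_simp
      ring
    rw [h3, Complex.re_ofReal_mul, Complex.inv_re, hbre, Complex.normSq_apply, hbre, hbim]
    field_simp

/-- decay of the Gaussian averages -/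
theorem gw_decay (hn : 1 ≤ n) {r N : ℝ} (hr : 0 < r) (hr1 : r ≤ 1) (hN : 1 ≤ N) {ζ : E n}
    (hζ : ‖ζ‖ ≤ 2) {y : E n × ℝ} (hy : N * (1 / r + 6 * (N ^ 4 / r ^ (2 * n))) ≤ ‖y‖) :
    ‖∫ ξ, (gw r ζ ξ : ℂ) * KP ξ y‖ ≤ r ^ n / N ^ 2 := by
  have hpi := Real.pi_pos
  have hpi3 := Real.pi_gt_three
  rw [gw_char hr]
  set β : ℝ := Real.pi / r ^ 2 with hβ
  have hβ0 : 0 < β := by positivity
  set T : ℝ := N ^ 4 / r ^ (2 * n) with hT
  have hrn1 : r ^ (2 * n) ≤ 1 := pow_le_one₀ hr.le hr1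
  have hrn0 : 0 < r ^ (2 * n) := by positivity
  have hN4 : 1 ≤ N ^ 4 := one_le_pow₀ hN
  have hT1 : 1 ≤ T := by
    rw [hT, le_div_iff₀ hrn0]; linarith
  set nb : ℝ := ‖(β : ℂ) - ((2 * Real.pi * y.2 : ℝ) : ℂ) * Complex.I‖ with hnb
  have hnbβ : β ≤ nb := by
    have h1 := Complex.abs_re_le_norm ((β : ℂ) - ((2 * Real.pi * y.2 : ℝ) : ℂ) * Complex.I)
    simp at h1
    rw [abs_of_pos hβ0] at h1
    rw [hnb]
    simpa using h1
  have hnbt : 2 * Real.pi * |y.2| ≤ nb := by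
    have h1 := Complex.abs_im_le_norm ((β : ℂ) - ((2 * Real.pi * y.2 : ℝ) : ℂ) * Complex.I)
    simp only [Complex.sub_im, Complex.ofReal_im, Complex.mul_im, Complex.ofReal_re,
      Complex.I_im, Complex.I_re, mul_one, mul_zero, add_zero, zero_sub, abs_neg] at h1
    rw [abs_mul, abs_of_pos (by positivity : 0 < 2 * Real.pi)] at h1
    exact h1
  have hnb0 : 0 < nb := lt_of_lt_of_le hβ0 hnbβ
  have hexp1 : Real.exp (-(Real.pi ^ 2 * ‖y.1 + (2 * y.2) • ζ‖ ^ 2 * β /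
      (β ^ 2 + (2 * Real.pi * y.2) ^ 2))) ≤ 1 := by
    rw [Real.exp_le_one_iff, neg_nonpos]
    positivity
  have hn2 : (1 : ℝ) / 2 ≤ (n : ℝ) / 2 := by
    have : (1 : ℝ) ≤ n := by exact_mod_cast hn
    linarith
  by_cases ht : T ≤ |y.2|
  · -- large time
    have h1 : Real.pi / nb ≤ 1 / T := by
      rw [div_le_div_iff₀ hnb0 (by linarith)]
      have h2 : 2 * Real.pi * T ≤ nb := le_trans (by gcongr) hnbt
      nlinarith
    have h2 : (Real.pi / nb) ^ ((n : ℝ) / 2) ≤ (1 / T) ^ ((1 : ℝ) / 2) := by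
      calc (Real.pi / nb) ^ ((n : ℝ) / 2) ≤ (1 / T) ^ ((n : ℝ) / 2) :=
            Real.rpow_le_rpow (by positivity) h1 (by positivity)
        _ ≤ (1 / T) ^ ((1 : ℝ) / 2) :=
            Real.rpow_le_rpow_of_exponent_ge (by positivity)
              ((div_le_one (by linarith)).2 hT1) hn2
    have h3 : (1 / T) ^ ((1 : ℝ) / 2) = r ^ n / N ^ 2 := by
      have e1 : 1 / T = (r ^ n / N ^ 2) ^ 2 := by
        rw [hT, pow_mul']
        field_simp
      rw [e1, ← Real.sqrt_eq_rpow, Real.sqrt_sq (by positivity)]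
    calc _ ≤ (1 / T) ^ ((1 : ℝ) / 2) * 1 := by gcongr
      _ = _ := by rw [mul_one, h3]
  · -- small time
    push Not at ht
    have hx : N * (1 / r + 6 * T) ≤ ‖y.1‖ := by
      rw [Prod.norm_def] at hy
      rcases le_max_iff.1 hy with h | h
      · exact h
      · exfalso
        rw [Real.norm_eq_abs] at h
        have h1 : 0 < 1 / r := by positivity
        nlinarith
    have hw : N * (1 / r + 2 * T) ≤ ‖y.1 + (2 * y.2) • ζ‖ := by
      have h1 : ‖(2 * y.2) • ζ‖ ≤ 4 * T := by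
        rw [norm_smul, norm_mul, Real.norm_ofNat, Real.norm_eq_abs]
        calc 2 * |y.2| * ‖ζ‖ ≤ 2 * T * 2 := by gcongr
          _ = 4 * T := by ring
      have h2 : ‖y.1‖ ≤ ‖y.1 + (2 * y.2) • ζ‖ + ‖(2 * y.2) • ζ‖ := by
        calc ‖y.1‖ = ‖(y.1 + (2 * y.2) • ζ) - (2 * y.2) • ζ‖ := by rw [add_sub_cancel_right]
          _ ≤ _ := norm_sub_le _ _
      nlinarith
    set W : ℝ := ‖y.1 + (2 * y.2) • ζ‖ with hW
    have hr1' : 1 ≤ 1 / r := by rw [le_div_iff₀ hr]; linarith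
    have h1 : (Real.pi / nb) ^ ((n : ℝ) / 2) ≤ r ^ n := by
      have h2 : Real.pi / nb ≤ r ^ 2 := by
        rw [div_le_iff₀ hnb0]
        calc Real.pi = r ^ 2 * β := by rw [hβ]; field_simp
          _ ≤ r ^ 2 * nb := by gcongr
      calc (Real.pi / nb) ^ ((n : ℝ) / 2) ≤ (r ^ 2) ^ ((n : ℝ) / 2) :=
            Real.rpow_le_rpow (by positivity) h2 (by positivity)
        _ = r ^ n := by
            rw [← Real.rpow_natCast r 2, ← Real.rpow_mul hr.le, ← Real.rpow_natCast]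
            congr 1
            push_cast
            ring
    have h2 : N ^ 2 ≤ Real.pi ^ 2 * W ^ 2 * β / (β ^ 2 + (2 * Real.pi * y.2) ^ 2) := by
      rw [le_div_iff₀ (by positivity)]
      have h3 : y.2 ^ 2 ≤ T ^ 2 := by
        rw [← sq_abs]
        have := abs_nonneg y.2
        gcongr
      have h4 : N ^ 2 * (1 / r ^ 2 + 4 * T ^ 2) ≤ W ^ 2 := by
        have h5 : (N * (1 / r + 2 * T)) ^ 2 ≤ W ^ 2 := by
          have : 0 ≤ N * (1 / r + 2 * T) := by positivity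
          gcongr
        have h6 : N ^ 2 * (1 / r ^ 2 + 4 * T ^ 2) ≤ (N * (1 / r + 2 * T)) ^ 2 := by
          have h7 : (1 / r) ^ 2 = 1 / r ^ 2 := by rw [div_pow, one_pow]
          have h8 : 0 ≤ N ^ 2 * (4 * (1 / r) * T) := by positivity
          nlinarith
        linarith
      have h5 : β = Real.pi * (1 / r ^ 2) := by rw [hβ]; ring
      set q : ℝ := 1 / r ^ 2 with hq
      have hq1 : 1 ≤ q := by
        rw [hq, le_div_iff₀ (by positivity)]
        have : r ^ 2 ≤ 1 := pow_le_one₀ hr.le hr1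
        linarith
      have h6 : N ^ 2 * (β ^ 2 + (2 * Real.pi * y.2) ^ 2) ≤
          N ^ 2 * (Real.pi ^ 2 * (q ^ 2 + 4 * T ^ 2)) := by
        have : β ^ 2 + (2 * Real.pi * y.2) ^ 2 ≤ Real.pi ^ 2 * (q ^ 2 + 4 * T ^ 2) := by
          rw [h5]
          nlinarith [sq_nonneg Real.pi]
        gcongr
      have h7 : q ^ 2 + 4 * T ^ 2 ≤ q * (q + 4 * T ^ 2) := by nlinarith [sq_nonneg T]
      calc N ^ 2 * (β ^ 2 + (2 * Real.pi * y.2) ^ 2)
          ≤ N ^ 2 * (Real.pi ^ 2 * (q ^ 2 + 4 * T ^ 2)) := h6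
        _ ≤ N ^ 2 * (Real.pi ^ 2 * (q * (q + 4 * T ^ 2))) := by gcongr
        _ = Real.pi ^ 2 * q * (N ^ 2 * (q + 4 * T ^ 2)) := by ring
        _ ≤ Real.pi ^ 2 * q * W ^ 2 := by gcongr
        _ ≤ Real.pi ^ 2 * q * W ^ 2 * Real.pi := by
            have : 0 ≤ Real.pi ^ 2 * q * W ^ 2 := by positivity
            nlinarith
        _ = Real.pi ^ 2 * W ^ 2 * β := by rw [h5]; ring
    have h3 : Real.exp (-(Real.pi ^ 2 * W ^ 2 * β / (β ^ 2 + (2 * Real.pi * y.2) ^ 2))) ≤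
        1 / N ^ 2 := by
      set u : ℝ := Real.pi ^ 2 * W ^ 2 * β / (β ^ 2 + (2 * Real.pi * y.2) ^ 2) with hu
      rw [Real.exp_neg, ← one_div]
      apply one_div_le_one_div_of_le (by positivity)
      have := Real.add_one_le_exp u
      linarith
    calc _ ≤ r ^ n * (1 / N ^ 2) := by gcongr
      _ = _ := by ring

end Pool.Agent.H222.ER
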