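import Pool.Agent.H222.ER.Core

/-!
Greedy superposition of translates, local norms, all dimensions.
-/

open MeasureTheory Set Filter Metric
open scoped ENNReal NNReal Topology

namespace Pool.Agent.H222.ER

open Pool.Agent.Helper184.PH

variable {n : ℕ}

theorem two_point {q : ℝ} (hq : 2 ≤ q) (w z : ℂ) :
    2 * (‖w‖ₑ ^ q + ‖z‖ₑ ^ q) ≤ ‖w + z‖ₑ ^ q + ‖w - z‖ₑ ^ q := by
  have hp : 1 ≤ q / 2 := by linarith
  have hpar : ‖w + z‖₊ ^ 2 + ‖w - z‖₊ ^ 2 = 2 * (‖w‖₊ ^ 2 + ‖z‖₊ ^ 2) := by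
    apply NNReal.coe_injective
    push_cast
    have := parallelogram_law_with_norm ℝ w z
    nlinarith
  have h1 : (‖w‖₊ ^ 2) ^ (q / 2) + (‖z‖₊ ^ 2) ^ (q / 2) ≤ (‖w‖₊ ^ 2 + ‖z‖₊ ^ 2) ^ (q / 2) :=
    NNReal.add_rpow_le_rpow_add _ _ hp
  have h2 : (‖w‖₊ ^ 2 + ‖z‖₊ ^ 2) ^ (q / 2) ≤
      (1 / 2) * (‖w + z‖₊ ^ 2) ^ (q / 2) + (1 / 2) * (‖w - z‖₊ ^ 2) ^ (q / 2) := by
    have h3 := NNReal.rpow_arith_mean_le_arith_mean2_rpow (1 / 2) (1 / 2) (‖w + z‖₊ ^ 2)
      (‖w - z‖₊ ^ 2) (by rw [← two_mul]; norm_num) hp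
    rw [← mul_add, hpar, ← mul_assoc] at h3
    norm_num at h3
    norm_num
    exact h3
  have h4 : ∀ a : ℝ≥0, (a ^ 2) ^ (q / 2) = a ^ q := fun a => by
    rw [← NNReal.rpow_natCast, ← NNReal.rpow_mul]
    congr 1
    push_cast
    ring
  rw [h4, h4] at h1
  rw [h4, h4] at h2
  have h5 : 2 * (‖w‖₊ ^ q + ‖z‖₊ ^ q) ≤ ‖w + z‖₊ ^ q + ‖w - z‖₊ ^ q := by
    have h6 := h1.trans h2
    have h7 : (2 : ℝ≥0) * (‖w‖₊ ^ q + ‖z‖₊ ^ q) ≤
        2 * ((1 / 2) * ‖w + z‖₊ ^ q + (1 / 2) * ‖w - z‖₊ ^ q) := by gcongr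
    refine h7.trans_eq ?_
    ring
  have hq0 : 0 ≤ q := by linarith
  simp only [enorm_eq_nnnorm]
  rw [← ENNReal.coe_rpow_of_nonneg _ hq0, ← ENNReal.coe_rpow_of_nonneg _ hq0,
    ← ENNReal.coe_rpow_of_nonneg _ hq0, ← ENNReal.coe_rpow_of_nonneg _ hq0]
  exact_mod_cast h5

theorem sign_step {q : ℝ} (hq : 2 ≤ q) (B : Set (E n × ℝ)) {f g : E n → ℂ} (hf : Integrable f)
    (hg : Integrable g) :
    NN q B f + NN q B g ≤ NN q B (fun ξ => f ξ + g ξ) ∨
      NN q B f + NN q B g ≤ NN q B (fun ξ => f ξ - g ξ) := by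
  by_contra hc
  push Not at hc
  obtain ⟨h1, h2⟩ := hc
  have h3 : 2 * (NN q B f + NN q B g) ≤
      NN q B (fun ξ => f ξ + g ξ) + NN q B (fun ξ => f ξ - g ξ) := by
    have hfg : Integrable fun ξ => f ξ + g ξ := hf.add hg
    unfold NN
    rw [← lintegral_add_left ((TT_meas hf).pow_const q),
      ← lintegral_add_left ((TT_meas hfg).pow_const q),
      ← lintegral_const_mul' _ _ (by simp)]
    refine lintegral_mono fun x => ?_
    rw [TT_add hf hg x, TT_sub hf hg x]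
    exact two_point hq _ _
  rw [two_mul] at h3
  exact absurd (ENNReal.add_lt_add h1 h2) (not_lt.2 h3)

theorem exists_shift {A : Set (E n)} (hA : MeasurableSet A) {g : E n → ℝ≥0∞}
    (hg : Measurable g) : ∃ v ∈ ball (0 : E n) 1,
      ∫⁻ x, g x * A.indicator (fun _ => 1) (x - v) ≤
        (volume (ball (0 : E n) 1))⁻¹ * volume A * ∫⁻ x, g x := by
  have hb0 : volume (ball (0 : E n) 1) ≠ 0 := (measure_ball_pos _ _ one_pos).ne'
  have hbt : volume (ball (0 : E n) 1) ≠ ∞ := measure_ball_lt_top.ne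
  have hm : Measurable fun p : E n × E n => g p.2 * A.indicator (fun _ => (1 : ℝ≥0∞)) (p.2 - p.1) := by
    refine (hg.comp measurable_snd).mul ?_
    exact (measurable_const.indicator hA).comp (measurable_snd.sub measurable_fst)
  have hm2 : Measurable fun v => ∫⁻ x, g x * A.indicator (fun _ => (1 : ℝ≥0∞)) (x - v) :=
    hm.lintegral_prod_right'
  obtain ⟨v, hv, hle⟩ := exists_le_setLAverage hb0 hbt hm2.aemeasurable.restrict
  refine ⟨v, hv, hle.trans ?_⟩
  rw [setLAverage_eq, ENNReal.div_eq_inv_mul, mul_assoc]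
  gcongr
  calc ∫⁻ v in ball (0 : E n) 1, ∫⁻ x, g x * A.indicator (fun _ => (1 : ℝ≥0∞)) (x - v)
      ≤ ∫⁻ v, ∫⁻ x, g x * A.indicator (fun _ => (1 : ℝ≥0∞)) (x - v) :=
        setLIntegral_le_lintegral _ _
    _ = ∫⁻ x, ∫⁻ v, g x * A.indicator (fun _ => (1 : ℝ≥0∞)) (x - v) :=
        lintegral_lintegral_swap hm.aemeasurable
    _ = ∫⁻ x, g x * volume A := by
        refine lintegral_congr fun x => ?_
        have hm3 : Measurable fun v : E n => A.indicator (fun _ => (1 : ℝ≥0∞)) (x - v) :=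
          (measurable_const.indicator hA).comp (measurable_id.const_sub x)
        rw [lintegral_const_mul _ hm3]
        congr 1
        rw [lintegral_sub_left_eq_self (fun y => A.indicator (fun _ => (1 : ℝ≥0∞)) y) x,
          lintegral_indicator hA, setLIntegral_one]
    _ = volume A * ∫⁻ x, g x := by
        rw [lintegral_mul_const _ hg, mul_comm]

theorem greedy {q : ℝ} (hq : 2 ≤ q) {R : ℝ} (hR : 0 ≤ R) {A : Set (E n)} (hA : MeasurableSet A)
    (hAb : A ⊆ ball (0 : E n) 2) {f : E n → ℂ} (hf : Measurable f) (hf1 : ∀ x, ‖f x‖ ≤ 1)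
    (hfA : ∀ x, x ∉ A → f x = 0) {t : ℝ≥0} (K : ℕ) :
    ∃ (F : E n → ℂ) (N : E n → ℕ), Measurable F ∧ Measurable N ∧ (∀ x, ‖F x‖ ≤ N x) ∧
      (∀ x, N x ≤ K) ∧ (∀ x, x ∉ ball (0 : E n) 3 → N x = 0) ∧
      (∫⁻ x in ball (0 : E n) 3, (t : ℝ≥0∞) ^ (N x)) ≤
        (1 + t * ((volume (ball (0 : E n) 1))⁻¹ * volume A)) ^ K * volume (ball (0 : E n) 3) ∧
      K * NN q (BB n R) f ≤ NN q (BB n (3 * R)) F := by
  have hfi : Integrable f := integrable_of_bdd hf hf1 fun x hx => hfA x fun h => hx (hAb h)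
  induction K with
  | zero =>
    refine ⟨fun _ => 0, fun _ => 0, measurable_const, measurable_const, fun x => by simp,
      fun x => le_rfl, fun x _ => rfl, by simp, by simp⟩
  | succ K ih =>
    obtain ⟨F, N, hF, hN, hFN, hNK, hN0, hint, hKF⟩ := ih
    have hgm : Measurable ((ball (0 : E n) 3).indicator fun x => (t : ℝ≥0∞) ^ (N x)) := by
      refine Measurable.indicator ?_ measurableSet_ball
      exact (measurable_from_nat (f := fun n : ℕ => (t : ℝ≥0∞) ^ n)).comp hN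
    obtain ⟨v, hv, hle⟩ := exists_shift hA hgm
    have hv1 : ‖v‖ ≤ 1 := (mem_ball_zero_iff.1 hv).le
    have hFi : Integrable F := integrable_of_bdd hF (M := K) (R := 3)
      (fun x => (hFN x).trans (by exact_mod_cast hNK x)) fun x hx => by
        have h1 := hFN x
        rw [hN0 x hx] at h1
        simpa using h1
    have hgi : Integrable fun x => f (x - v) := hfi.comp_sub_right v
    have hsh : Measurable fun x : E n => x - v := measurable_id.sub_const v
    have hgm' : Measurable fun x => f (x - v) := hf.comp hsh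
    have hshift := NN_shift q hfi hv1 hR
    obtain ⟨G, hGm, hGb, hGN⟩ : ∃ G : E n → ℂ, Measurable G ∧
        (∀ x, ‖G x‖ ≤ ‖F x‖ + ‖f (x - v)‖) ∧
        NN q (BB n (3 * R)) F + NN q (BB n R) f ≤ NN q (BB n (3 * R)) G := by
      rcases sign_step hq (BB n (3 * R)) hFi hgi with h | h
      · exact ⟨_, hF.add hgm', fun x => norm_add_le _ _, (add_le_add le_rfl hshift).trans h⟩
      · exact ⟨_, hF.sub hgm', fun x => norm_sub_le _ _, (add_le_add le_rfl hshift).trans h⟩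
    set N' : E n → ℕ := fun x => N x + A.indicator (fun _ => 1) (x - v) with hN'
    have hN'm : Measurable N' := hN.add ((measurable_const.indicator hA).comp hsh)
    refine ⟨G, N', hGm, hN'm, fun x => ?_, fun x => ?_, fun x hx => ?_, ?_, ?_⟩
    · refine (hGb x).trans ?_
      rw [hN']
      push_cast
      refine add_le_add (hFN x) ?_
      by_cases hx : x - v ∈ A
      · rw [indicator_of_mem hx]; simpa using hf1 (x - v)
      · rw [indicator_of_notMem hx, hfA _ hx]; simp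
    · rw [hN']
      refine add_le_add (hNK x) ?_
      by_cases hx : x - v ∈ A
      · rw [indicator_of_mem hx]
      · rw [indicator_of_notMem hx]; exact zero_le_one
    · rw [hN']
      simp only
      rw [hN0 x hx, indicator_of_notMem, add_zero]
      intro hc
      have h1 := hAb hc
      rw [mem_ball_zero_iff] at h1 hx hv
      apply hx
      calc ‖x‖ = ‖(x - v) + v‖ := by rw [sub_add_cancel]
        _ ≤ ‖x - v‖ + ‖v‖ := norm_add_le _ _
        _ < 3 := by linarith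
    · have e1 : ∀ x, (t : ℝ≥0∞) ^ (N' x) ≤ (t : ℝ≥0∞) ^ (N x) +
          t * ((t : ℝ≥0∞) ^ (N x) * A.indicator (fun _ => 1) (x - v)) := fun x => by
        rw [hN']
        simp only
        by_cases hx : x - v ∈ A
        · rw [indicator_of_mem hx, indicator_of_mem hx, pow_succ, mul_one, mul_comm]
          exact le_add_self
        · rw [indicator_of_notMem hx, indicator_of_notMem hx, add_zero, mul_zero, mul_zero,
            add_zero]
      have htN : Measurable fun x => (t : ℝ≥0∞) ^ (N x) :=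
        (measurable_from_nat (f := fun n : ℕ => (t : ℝ≥0∞) ^ n)).comp hN
      have e2 : (∫⁻ x in ball (0 : E n) 3, (t : ℝ≥0∞) ^ (N x) * A.indicator (fun _ => 1) (x - v)) =
          ∫⁻ x, (ball (0 : E n) 3).indicator (fun x => (t : ℝ≥0∞) ^ (N x)) x *
            A.indicator (fun _ => 1) (x - v) := by
        rw [← lintegral_indicator measurableSet_ball]
        refine lintegral_congr fun x => ?_
        by_cases hx : x ∈ ball (0 : E n) 3
        · rw [indicator_of_mem hx, indicator_of_mem hx]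
        · rw [indicator_of_notMem hx, indicator_of_notMem hx, zero_mul]
      rw [lintegral_indicator measurableSet_ball] at hle
      calc ∫⁻ x in ball (0 : E n) 3, (t : ℝ≥0∞) ^ (N' x)
          ≤ ∫⁻ x in ball (0 : E n) 3, ((t : ℝ≥0∞) ^ (N x) +
              t * ((t : ℝ≥0∞) ^ (N x) * A.indicator (fun _ => 1) (x - v))) :=
            lintegral_mono fun x => e1 x
        _ = (∫⁻ x in ball (0 : E n) 3, (t : ℝ≥0∞) ^ (N x)) +
              t * ∫⁻ x in ball (0 : E n) 3, (t : ℝ≥0∞) ^ (N x) *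
                A.indicator (fun _ => 1) (x - v) := by
            rw [lintegral_add_left htN, lintegral_const_mul' _ _ ENNReal.coe_ne_top]
        _ ≤ (∫⁻ x in ball (0 : E n) 3, (t : ℝ≥0∞) ^ (N x)) +
              t * ((volume (ball (0 : E n) 1))⁻¹ * volume A *
                ∫⁻ x in ball (0 : E n) 3, (t : ℝ≥0∞) ^ (N x)) := by
            rw [e2]; gcongr
        _ = (1 + t * ((volume (ball (0 : E n) 1))⁻¹ * volume A)) *
              ∫⁻ x in ball (0 : E n) 3, (t : ℝ≥0∞) ^ (N x) := by ring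
        _ ≤ (1 + t * ((volume (ball (0 : E n) 1))⁻¹ * volume A)) *
              ((1 + t * ((volume (ball (0 : E n) 1))⁻¹ * volume A)) ^ K *
                volume (ball (0 : E n) 3)) := by gcongr
        _ = _ := by rw [pow_succ]; ring
    · refine le_trans ?_ hGN
      push_cast
      rw [add_mul, one_mul]
      gcongr

theorem LI_scale {q : ℝ} (hq : 0 ≤ q) {B : Set (E n × ℝ)} {O : Set (E n)} {C : ℝ≥0∞}
    (hC : ∀ f : E n → ℂ, Measurable f → (∀ x, ‖f x‖ ≤ 1) → (∀ x, x ∉ O → f x = 0) → NN q B f ≤ C)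
    {M : ℝ} (hM : 0 < M) {f : E n → ℂ} (hf : Measurable f) (hfM : ∀ x, ‖f x‖ ≤ M)
    (h0 : ∀ x, x ∉ O → f x = 0) : NN q B f ≤ ENNReal.ofReal M ^ q * C := by
  have h1 : f = fun x => (M : ℂ) * ((M : ℂ)⁻¹ * f x) := by
    funext x
    have : (M : ℂ) ≠ 0 := by exact_mod_cast hM.ne'
    field_simp
  have h2 : NN q B f = ENNReal.ofReal M ^ q * NN q B (fun x => (M : ℂ)⁻¹ * f x) := by
    conv_lhs => rw [h1]
    rw [NN_smul hq, ← ofReal_norm, Complex.norm_real, Real.norm_of_nonneg hM.le]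
  rw [h2]
  gcongr
  refine hC _ (hf.const_mul _) (fun x => ?_) fun x hx => by rw [h0 x hx, mul_zero]
  rw [norm_mul, norm_inv, Complex.norm_real, Real.norm_of_nonneg hM.le]
  rw [inv_mul_le_iff₀ hM, mul_one]
  exact hfM x

theorem exp_bound {x : ℝ} (hx : 0 ≤ x) {K : ℕ} {c : ℝ} (h : K * x ≤ c) :
    (1 + x) ^ K ≤ Real.exp c := by
  calc (1 + x) ^ K ≤ (Real.exp x) ^ K := by
        gcongr
        linarith [Real.add_one_le_exp x]
    _ = Real.exp (K * x) := by rw [← Real.exp_nat_mul]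
    _ ≤ Real.exp c := Real.exp_le_exp.2 h

/-- the local estimate with arbitrarily small losses, for bounded functions supported in a ball -/
def HL (n : ℕ) (p ρ : ℝ) : Prop :=
  ∀ ε : ℝ, 0 < ε → ∃ C : ℝ≥0, ∀ R : ℝ≥0, 1 ≤ R → ∀ f : E n → ℂ, Measurable f →
    (∀ ξ, ‖f ξ‖ ≤ 1) → (∀ ξ, ξ ∉ ball (0 : E n) ρ → f ξ = 0) →
    NN p (BB n R) f ≤ C * (R : ℝ≥0∞) ^ ε

theorem vol_BB (n : ℕ) (R : ℝ≥0) :
    volume (BB n R) = (R : ℝ≥0∞) ^ ((n : ℝ) + 1) * volume (ball (0 : E n × ℝ) 1) := by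
  rw [Measure.addHaar_closedBall _ _ R.coe_nonneg]
  congr 1
  have h1 : Module.finrank ℝ (E n × ℝ) = n + 1 := by
    rw [Module.finrank_prod, finrank_euclideanSpace, Fintype.card_fin, Module.finrank_self]
  rw [h1, ENNReal.ofReal_pow R.coe_nonneg, ENNReal.ofReal_coe_nnreal, ← ENNReal.rpow_natCast]
  push_cast
  rfl

theorem le_geom {x X Y : ℝ≥0∞} {θ : ℝ} (hθ0 : 0 ≤ θ) (hθ1 : θ ≤ 1) (hX : x ≤ X) (hY : x ≤ Y) :
    x ≤ X ^ θ * Y ^ (1 - θ) := by
  calc x = x ^ (θ + (1 - θ)) := by rw [add_sub_cancel, ENNReal.rpow_one]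
    _ = x ^ θ * x ^ (1 - θ) := ENNReal.rpow_add_of_nonneg _ _ hθ0 (by linarith)
    _ ≤ X ^ θ * Y ^ (1 - θ) := by
        gcongr

end Pool.Agent.H222.ER
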