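import Pool.Agent.H222.ER.Ser

/-!
Bounded real functions as combinations of unimodular functions; derivatives of convolutions.
-/

open MeasureTheory Set Filter Metric
open scoped ENNReal NNReal Topology ContDiff

namespace Pool.Agent.H222.ER

open Pool.Agent.Helper184.PH

variable {n : ℕ}

theorem bern_sum {x : ℝ} (hx : x ∈ Icc (0 : ℝ) 1) :
    HasSum (fun m : ℕ => 1 / (m : ℝ) ^ 2 * Real.cos (2 * Real.pi * m * x))
      (Real.pi ^ 2 * (x ^ 2 - x + 1 / 6)) := by
  have h1 := hasSum_one_div_nat_pow_mul_cos (k := 1) one_ne_zero hx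
  simp only [mul_one] at h1
  convert! h1 using 1
  have h2 : (Polynomial.map (algebraMap ℚ ℝ) (Polynomial.bernoulli 2)).eval x = x ^ 2 - x + 1 / 6 := by
    rw [Polynomial.bernoulli_def]
    simp only [Finset.sum_range_succ, Finset.sum_range_zero, zero_add, Nat.sub_zero,
      Nat.sub_self, bernoulli_zero, bernoulli_one, bernoulli_two, Nat.reduceSub,
      Nat.choose_self, Nat.choose_zero_right, Polynomial.map_add, Polynomial.map_monomial,
      Polynomial.eval_add, Polynomial.eval_monomial, Nat.choose_one_right]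
    push_cast
    simp
    ring
  rw [h2]
  have h3 : ((Nat.factorial 2 : ℕ) : ℝ) = 2 := by simp [Nat.factorial]
  rw [h3]
  ring

/-- a real number in `[-1,1]` as a combination of cosines -/
theorem lin_series {y : ℝ} (hy : y ∈ Icc (-1 : ℝ) 1) :
    HasSum (fun m : ℕ => 4 / Real.pi ^ 2 / (m : ℝ) ^ 2 *
      (Real.cos (Real.pi * m / 2 - Real.pi * m / 2 * y) -
        Real.cos (3 * Real.pi * m / 2 - Real.pi * m / 2 * y))) y := by
  have hπ := Real.pi_pos
  obtain ⟨hy0, hy1⟩ := hy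
  have h1 := bern_sum (x := (1 - y) / 4) ⟨by linarith, by linarith⟩
  have h2 := bern_sum (x := (1 - y) / 4 + 1 / 2) ⟨by linarith, by linarith⟩
  have h3 := (h1.sub h2).mul_left (4 / Real.pi ^ 2)
  convert! h3 using 1
  · funext m
    have e1 : Real.pi * m / 2 - Real.pi * m / 2 * y = 2 * Real.pi * m * ((1 - y) / 4) := by ring
    have e2 : 3 * Real.pi * m / 2 - Real.pi * m / 2 * y =
        2 * Real.pi * m * ((1 - y) / 4 + 1 / 2) := by ring
    rw [e1, e2]
    ring
  · field_simp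
    ring

/-- the unimodular functions -/
noncomputable def uni (Q : Set (E n)) (φ : E n → ℝ) (s : ℝ) : E n → ℂ :=
  Q.indicator fun ξ => Complex.exp ((s * φ ξ : ℝ) * Complex.I)

theorem uni_le (Q : Set (E n)) (φ : E n → ℝ) (s : ℝ) (ξ : E n) : ‖uni Q φ s ξ‖ ≤ 1 := by
  unfold uni
  refine (norm_indicator_le_norm_self _ _).trans ?_
  rw [Complex.norm_exp_ofReal_mul_I]

theorem uni_meas {Q : Set (E n)} (hQ : MeasurableSet Q) {φ : E n → ℝ} (hφ : Measurable φ) (s : ℝ) :
    Measurable (uni Q φ s) := by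
  unfold uni
  refine Measurable.indicator ?_ hQ
  fun_prop

theorem uni_int {Q : Set (E n)} (hQ : MeasurableSet Q) (hQv : volume Q ≠ ⊤) {φ : E n → ℝ}
    (hφ : Measurable φ) (s : ℝ) : Integrable (uni Q φ s) := by
  unfold uni
  rw [integrable_indicator_iff hQ]
  have : IsFiniteMeasure (volume.restrict Q) := ⟨by rw [Measure.restrict_apply_univ]; exact hQv.lt_top⟩
  refine Integrable.of_bound (by fun_prop) 1 (Eventually.of_forall fun ξ => ?_)
  rw [Complex.norm_exp_ofReal_mul_I]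

theorem cos_exp (α t : ℝ) : ((Real.cos (α - t) : ℝ) : ℂ) =
    Complex.exp (α * Complex.I) / 2 * Complex.exp ((-t : ℝ) * Complex.I) +
      Complex.exp (-α * Complex.I) / 2 * Complex.exp ((t : ℝ) * Complex.I) := by
  rw [Complex.ofReal_cos, Complex.cos, div_mul_eq_mul_div, div_mul_eq_mul_div, ← Complex.exp_add,
    ← Complex.exp_add, ← add_div]
  congr 2
  · congr 1
    push_cast
    ring
  · congr 1
    push_cast
    ring

/-- representation of a bounded real function -/
theorem TT_rep {Q : Set (E n)} (hQ : MeasurableSet Q) (hQv : volume Q ≠ ⊤) {φ : E n → ℝ}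
    (hφ : Measurable φ) (hφ1 : ∀ ξ ∈ Q, φ ξ ∈ Icc (-1 : ℝ) 1) (x : E n × ℝ) :
    ‖TT (Q.indicator fun ξ => (φ ξ : ℂ)) x‖ₑ ≤ ∑' m : ℕ × Bool,
      ENNReal.ofReal (1 / (m.1 : ℝ) ^ 2) *
        ‖TT (uni Q φ ((if m.2 then 1 else -1) * (Real.pi * m.1 / 2))) x‖ₑ := by
  have hπ := Real.pi_pos
  have hπ3 := Real.pi_gt_three
  set c : ℕ → ℝ := fun m => 4 / Real.pi ^ 2 / (m : ℝ) ^ 2 with hc
  have hc0 : ∀ m, 0 ≤ c m := fun m => by rw [hc]; positivity
  have hcle : ∀ m, c m ≤ 1 / (m : ℝ) ^ 2 := fun m => by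
    rw [hc]
    simp only
    gcongr
    rw [div_le_one (by positivity)]
    nlinarith
  have hcs : Summable c := by
    have h1 : Summable fun m : ℕ => 1 / (m : ℝ) ^ 2 :=
      Real.summable_one_div_nat_pow.2 (by norm_num)
    exact Summable.of_nonneg_of_le hc0 hcle h1
  set H : ℕ → E n → ℝ := fun m ξ => c m * (Real.cos (Real.pi * m / 2 - Real.pi * m / 2 * φ ξ) -
        Real.cos (3 * Real.pi * m / 2 - Real.pi * m / 2 * φ ξ)) with hH
  have hHm : ∀ m, Measurable (H m) := fun m => by rw [hH]; fun_prop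
  have hHle : ∀ m ξ, ‖H m ξ‖ ≤ 2 * c m := fun m ξ => by
    rw [hH]
    simp only
    rw [norm_mul, Real.norm_of_nonneg (hc0 m), mul_comm 2]
    refine mul_le_mul_of_nonneg_left ?_ (hc0 m)
    refine (norm_sub_le _ _).trans ?_
    have h1 := Real.abs_cos_le_one (Real.pi * m / 2 - Real.pi * m / 2 * φ ξ)
    have h2 := Real.abs_cos_le_one (3 * Real.pi * m / 2 - Real.pi * m / 2 * φ ξ)
    rw [Real.norm_eq_abs, Real.norm_eq_abs]
    linarith
  set G : ℕ → E n → ℂ := fun m ξ => (Q.indicator (fun ξ => (H m ξ : ℂ)) ξ) * KP ξ x with hG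
  have hGint : ∀ m, Integrable (Q.indicator (fun ξ => (H m ξ : ℂ))) := fun m => by
    rw [integrable_indicator_iff hQ]
    have : IsFiniteMeasure (volume.restrict Q) :=
      ⟨by rw [Measure.restrict_apply_univ]; exact hQv.lt_top⟩
    refine Integrable.of_bound (Complex.measurable_ofReal.comp (hHm m)).aestronglyMeasurable
      (2 * c m) (Eventually.of_forall fun ξ => ?_)
    rw [Complex.norm_real]
    exact hHle m ξ
  have hGi : ∀ m, Integrable (G m) := fun m => TT_int (hGint m) x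
  have hQi : Integrable (Q.indicator fun _ => (1 : ℝ)) := by
    rw [integrable_indicator_iff hQ]
    exact integrableOn_const hQv
  have hGle : ∀ m ξ, ‖G m ξ‖ ≤ Q.indicator (fun _ => (1 : ℝ)) ξ * (2 * c m) := fun m ξ => by
    rw [hG]
    simp only
    rw [norm_mul, KP_norm_eq, mul_one]
    by_cases hξ : ξ ∈ Q
    · rw [indicator_of_mem hξ, indicator_of_mem hξ, one_mul, Complex.norm_real]
      exact hHle m ξ
    · rw [indicator_of_notMem hξ, indicator_of_notMem hξ]; simp
  have hGs : Summable fun m => ∫ ξ, ‖G m ξ‖ := by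
    refine Summable.of_nonneg_of_le (fun m => integral_nonneg fun ξ => norm_nonneg _)
      (fun m => ?_) ((hcs.mul_left 2).mul_left (∫ ξ, Q.indicator (fun _ => (1 : ℝ)) ξ))
    calc ∫ ξ, ‖G m ξ‖ ≤ ∫ ξ, Q.indicator (fun _ => (1 : ℝ)) ξ * (2 * c m) :=
          integral_mono (hGi m).norm (hQi.mul_const _) (hGle m)
      _ = _ := integral_mul_const _ _
  have h1 := hasSum_integral_of_summable_integral_norm hGi hGs
  have h2 : ∫ ξ, ∑' m, G m ξ = TT (Q.indicator fun ξ => (φ ξ : ℂ)) x := by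
    unfold TT
    refine integral_congr_ae (Eventually.of_forall fun ξ => ?_)
    show ∑' m, G m ξ = (Q.indicator (fun ξ => (φ ξ : ℂ)) ξ) * KP ξ x
    rw [hG]
    simp only
    rw [tsum_mul_right]
    congr 1
    by_cases hξ : ξ ∈ Q
    · simp only [indicator_of_mem hξ]
      rw [← Complex.ofReal_tsum]
      congr 1
      exact (lin_series (hφ1 ξ hξ)).tsum_eq
    · simp only [indicator_of_notMem hξ, tsum_zero]
  rw [← h2, ← h1.tsum_eq]
  refine enorm_tsum_le_tsum_enorm.trans ?_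
  rw [ENNReal.tsum_prod']
  refine ENNReal.tsum_le_tsum fun m => ?_
  rw [tsum_bool]
  simp only [Bool.false_eq_true, if_false, if_true, one_mul, neg_mul]
  set A : ℂ := TT (uni Q φ (-(Real.pi * m / 2))) x with hA
  set B : ℂ := TT (uni Q φ (Real.pi * m / 2)) x with hB
  have h3 : ∫ ξ, G m ξ = c m * ((Complex.exp ((Real.pi * m / 2 : ℝ) * Complex.I) / 2 * A +
      Complex.exp (-(Real.pi * m / 2 : ℝ) * Complex.I) / 2 * B) -
      (Complex.exp ((3 * Real.pi * m / 2 : ℝ) * Complex.I) / 2 * A +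
      Complex.exp (-(3 * Real.pi * m / 2 : ℝ) * Complex.I) / 2 * B)) := by
    have iA := TT_int (uni_int hQ hQv hφ (-(Real.pi * m / 2))) x
    have iB := TT_int (uni_int hQ hQv hφ (Real.pi * m / 2)) x
    have e1 : ∀ ξ, G m ξ = (c m * (Complex.exp ((Real.pi * m / 2 : ℝ) * Complex.I) / 2 -
        Complex.exp ((3 * Real.pi * m / 2 : ℝ) * Complex.I) / 2)) *
          (uni Q φ (-(Real.pi * m / 2)) ξ * KP ξ x) +
        (c m * (Complex.exp (-(Real.pi * m / 2 : ℝ) * Complex.I) / 2 -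
        Complex.exp (-(3 * Real.pi * m / 2 : ℝ) * Complex.I) / 2)) *
          (uni Q φ (Real.pi * m / 2) ξ * KP ξ x) := fun ξ => by
      rw [hG]
      simp only
      unfold uni
      by_cases hξ : ξ ∈ Q
      · simp only [indicator_of_mem hξ]
        rw [hH]
        simp only
        rw [Complex.ofReal_mul, Complex.ofReal_sub, cos_exp, cos_exp]
        have e2 : -(Real.pi * m / 2) * φ ξ = -(Real.pi * m / 2 * φ ξ) := by ring
        rw [e2]
        ring
      · simp only [indicator_of_notMem hξ]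
        ring
    rw [integral_congr_ae (Eventually.of_forall e1), integral_add (iA.const_mul _) (iB.const_mul _),
      integral_const_mul, integral_const_mul]
    show _ * A + _ * B = _
    ring
  rw [h3]
  have hn : ∀ α : ℝ, ‖Complex.exp ((α : ℝ) * Complex.I) / 2‖ₑ = 2⁻¹ := fun α => by
    rw [← ofReal_norm, norm_div, Complex.norm_exp_ofReal_mul_I, Complex.norm_ofNat, one_div,
      ENNReal.ofReal_inv_of_pos (by norm_num), ENNReal.ofReal_ofNat]
  have hn' : ∀ α : ℝ, ‖Complex.exp (-(α : ℝ) * Complex.I) / 2‖ₑ = 2⁻¹ := fun α => by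
    have := hn (-α)
    push_cast at this
    exact this
  have hcm : ‖((c m : ℝ) : ℂ)‖ₑ ≤ ENNReal.ofReal (1 / (m : ℝ) ^ 2) := by
    rw [← ofReal_norm, Complex.norm_real, Real.norm_of_nonneg (hc0 m)]
    exact ENNReal.ofReal_le_ofReal (hcle m)
  rw [enorm_mul, ← mul_add]
  refine mul_le_mul' hcm ?_
  refine (enorm_sub_le).trans ?_
  have h4 : ∀ α : ℝ, ‖Complex.exp ((α : ℝ) * Complex.I) / 2 * A +
      Complex.exp (-(α : ℝ) * Complex.I) / 2 * B‖ₑ ≤ 2⁻¹ * (‖A‖ₑ + ‖B‖ₑ) := fun α => by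
    refine (enorm_add_le _ _).trans ?_
    rw [enorm_mul, enorm_mul, hn, hn', mul_add]
  calc _ ≤ 2⁻¹ * (‖A‖ₑ + ‖B‖ₑ) + 2⁻¹ * (‖A‖ₑ + ‖B‖ₑ) := add_le_add (h4 _) (h4 _)
    _ = ‖A‖ₑ + ‖B‖ₑ := by rw [← add_mul, ENNReal.inv_two_add_inv_two, one_mul]

/-- derivatives of convolutions -/
theorem conv_deriv (j : ℕ) : ∀ {F : Type} [NormedAddCommGroup F] [NormedSpace ℝ F] [CompleteSpace F]
    (g : E n → F), ContDiff ℝ ∞ g → HasCompactSupport g → ∀ u : E n → ℝ, Measurable u →
      (∀ t, ‖u t‖ ≤ 1) → LocallyIntegrable u → ∀ x,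
      ‖iteratedFDeriv ℝ j (convolution u g (ContinuousLinearMap.lsmul ℝ ℝ) volume) x‖ ≤
        ∫ t, ‖iteratedFDeriv ℝ j g t‖ := by
  induction j with
  | zero =>
    intro F _ _ _ g hg hgc u hu hu1 hul x
    rw [norm_iteratedFDeriv_zero]
    have h1 : ∫ t, ‖iteratedFDeriv ℝ 0 g t‖ = ∫ t, ‖g t‖ := by
      refine integral_congr_ae (Eventually.of_forall fun t => ?_)
      exact norm_iteratedFDeriv_zero
    rw [h1, convolution_def]
    have hgi : Integrable g := hg.continuous.integrable_of_hasCompactSupport hgc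
    calc ‖∫ t, (ContinuousLinearMap.lsmul ℝ ℝ) (u t) (g (x - t))‖
        ≤ ∫ t, ‖g (x - t)‖ := by
          refine norm_integral_le_of_norm_le ((hgi.comp_sub_left x).norm)
            (Eventually.of_forall fun t => ?_)
          rw [ContinuousLinearMap.lsmul_apply, norm_smul]
          calc ‖u t‖ * ‖g (x - t)‖ ≤ 1 * ‖g (x - t)‖ := by gcongr; exact hu1 t
            _ = _ := one_mul _
      _ = ∫ t, ‖g t‖ := integral_sub_left_eq_self (fun t => ‖g t‖) volume x
  | succ j ih =>
    intro F _ _ _ g hg hgc u hu hu1 hul x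
    have h1 : ∀ x, HasFDerivAt (convolution u g (ContinuousLinearMap.lsmul ℝ ℝ) volume)
        (convolution u (fderiv ℝ g) ((ContinuousLinearMap.lsmul ℝ ℝ).precompR (E n)) volume x) x :=
      fun x => hgc.hasFDerivAt_convolution_right _ hul (hg.of_le (by exact_mod_cast le_top)) x
    have h2 : fderiv ℝ (convolution u g (ContinuousLinearMap.lsmul ℝ ℝ) volume) =
        convolution u (fderiv ℝ g) (ContinuousLinearMap.lsmul ℝ ℝ) volume := by
      funext x
      rw [(h1 x).fderiv, convolution_def, convolution_def]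
      refine integral_congr_ae (Eventually.of_forall fun t => ?_)
      ext v
      simp
    rw [← norm_iteratedFDeriv_fderiv, h2]
    have h3 : ∫ t, ‖iteratedFDeriv ℝ (j + 1) g t‖ = ∫ t, ‖iteratedFDeriv ℝ j (fderiv ℝ g) t‖ := by
      refine integral_congr_ae (Eventually.of_forall fun t => ?_)
      exact norm_iteratedFDeriv_fderiv.symm
    rw [h3]
    exact ih (fderiv ℝ g) (hg.fderiv_right (m := ∞) (by simp)) (hgc.fderiv ℝ) u hu hu1 hul x

end Pool.Agent.H222.ER
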