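import Pool.Agent.H222.ER.Gauss
import Pool.Agent.H222.ER.Disc

/-!
Orthogonality of clusters that are far apart.
-/

open MeasureTheory Set Filter Metric
open scoped ENNReal NNReal Topology

namespace Pool.Agent.H222.ER

open Pool.Agent.Helper184.PH

variable {n : ℕ}

theorem sum_rpow_le {ι : Type*} (s : Finset ι) (x : ι → ℝ≥0∞) {α : ℝ} (hα : 1 ≤ α) :
    ∑ i ∈ s, x i ^ α ≤ (∑ i ∈ s, x i) ^ α := by
  classical
  induction s using Finset.induction_on with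
  | empty => simp
  | insert i s hi ih =>
    rw [Finset.sum_insert hi, Finset.sum_insert hi]
    exact (add_le_add le_rfl ih).trans (ENNReal.add_rpow_le_rpow_add _ _ hα)

theorem sqrt_sum_le {ι : Type*} (s : Finset ι) (x : ι → ℝ≥0∞) {q : ℝ} (hq : 1 ≤ q) (hq2 : q ≤ 2) :
    (∑ i ∈ s, x i ^ (2 : ℝ) + 1) ^ (1 / 2 : ℝ) ≤ (∑ i ∈ s, x i ^ q) ^ (1 / q) + 1 := by
  have hq0 : 0 < q := by linarith
  have h1 : ∑ i ∈ s, x i ^ (2 : ℝ) ≤ (∑ i ∈ s, x i ^ q) ^ (2 / q) := by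
    have h2 := sum_rpow_le s (fun i => x i ^ q) (α := 2 / q) (by rw [le_div_iff₀ hq0]; linarith)
    refine le_trans (le_of_eq ?_) h2
    refine Finset.sum_congr rfl fun i _ => ?_
    rw [← ENNReal.rpow_mul]
    congr 1
    field_simp
  calc (∑ i ∈ s, x i ^ (2 : ℝ) + 1) ^ (1 / 2 : ℝ)
      ≤ (∑ i ∈ s, x i ^ (2 : ℝ)) ^ (1 / 2 : ℝ) + 1 ^ (1 / 2 : ℝ) :=
        ENNReal.rpow_add_le_add_rpow _ _ (by norm_num) (by norm_num)
    _ ≤ ((∑ i ∈ s, x i ^ q) ^ (2 / q)) ^ (1 / 2 : ℝ) + 1 := by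
        rw [ENNReal.one_rpow]
        gcongr
    _ = _ := by
        rw [← ENNReal.rpow_mul]
        congr 2
        field_simp

theorem KP_sub_KP {ξ ζ : E n} (hξ : ‖ξ‖ ≤ 1) (hζ : ‖ζ‖ ≤ 2) {u : E n × ℝ} {R : ℝ}
    (hu : ‖u‖ ≤ R) : ‖KP ξ u - KP ζ u‖ ≤ 8 * Real.pi * R * ‖ξ - ζ‖ := by
  have hpi := Real.pi_pos
  have hR : 0 ≤ R := (norm_nonneg u).trans hu
  have h1 : KP ξ u - KP ζ u = KP ζ u * (Complex.exp (Complex.I *
      ((2 * Real.pi * (inner ℝ (ξ - ζ) u.1 + (‖ξ‖ ^ 2 - ‖ζ‖ ^ 2) * u.2) : ℝ) : ℂ)) - 1) := by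
    rw [mul_sub, mul_one]
    congr 1
    unfold KP
    rw [← Complex.exp_add]
    congr 1
    rw [inner_sub_left]
    push_cast
    ring
  rw [h1, norm_mul, KP_norm_eq, one_mul]
  refine Real.norm_exp_I_mul_ofReal_sub_one_le.trans ?_
  rw [norm_mul, Real.norm_of_nonneg (by positivity : 0 ≤ 2 * Real.pi)]
  have h2 : ‖inner ℝ (ξ - ζ) u.1 + (‖ξ‖ ^ 2 - ‖ζ‖ ^ 2) * u.2‖ ≤ 4 * R * ‖ξ - ζ‖ := by
    refine (norm_add_le _ _).trans ?_
    have e1 : ‖inner ℝ (ξ - ζ) u.1‖ ≤ ‖ξ - ζ‖ * R :=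
      (norm_inner_le_norm _ _).trans (by gcongr; exact (norm_fst_le u).trans hu)
    have e2 : ‖(‖ξ‖ ^ 2 - ‖ζ‖ ^ 2) * u.2‖ ≤ 3 * ‖ξ - ζ‖ * R := by
      rw [norm_mul]
      have e3 : ‖‖ξ‖ ^ 2 - ‖ζ‖ ^ 2‖ ≤ 3 * ‖ξ - ζ‖ := by
        have e4 : ‖ξ‖ ^ 2 - ‖ζ‖ ^ 2 = (‖ξ‖ + ‖ζ‖) * (‖ξ‖ - ‖ζ‖) := by ring
        rw [e4, norm_mul]
        have e5 : ‖‖ξ‖ + ‖ζ‖‖ ≤ 3 := by
          rw [Real.norm_of_nonneg (by positivity)]; linarith
        have e6 : ‖‖ξ‖ - ‖ζ‖‖ ≤ ‖ξ - ζ‖ := by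
          rw [Real.norm_eq_abs]; exact abs_norm_sub_norm_le ξ ζ
        gcongr
      gcongr
      exact (norm_snd_le u).trans hu
    linarith
  calc 2 * Real.pi * ‖inner ℝ (ξ - ζ) u.1 + (‖ξ‖ ^ 2 - ‖ζ‖ ^ 2) * u.2‖
      ≤ 2 * Real.pi * (4 * R * ‖ξ - ζ‖) := by gcongr
    _ = _ := by ring

/-- the part of the exponential sum that belongs to the cluster `y`, recentred -/
noncomputable def hh [DecidableEq (E n × ℝ)] (X : Finset (E n × ℝ)) (cl : E n × ℝ → E n × ℝ)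
    (a : E n × ℝ → ℂ) (y : E n × ℝ) (ξ : E n) : ℂ :=
  ∑ x ∈ X.filter (fun x => cl x = y), a x * KP ξ (x - y)

variable [DecidableEq (E n × ℝ)]

theorem hh_cont (X : Finset (E n × ℝ)) (cl : E n × ℝ → E n × ℝ) (a : E n × ℝ → ℂ) (y : E n × ℝ) :
    Continuous (hh X cl a y) := by
  unfold hh
  exact continuous_finsetSum _ fun x _ => continuous_const.mul (KP_cont_left _)

theorem hh_le (X : Finset (E n × ℝ)) (cl : E n × ℝ → E n × ℝ) {a : E n × ℝ → ℂ}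
    (ha : ∀ x, ‖a x‖ ≤ 1) (y : E n × ℝ) (ξ : E n) :
    ‖hh X cl a y ξ‖ ≤ (X.filter (fun x => cl x = y)).card := by
  unfold hh
  refine (norm_sum_le _ _).trans ?_
  calc ∑ x ∈ X.filter (fun x => cl x = y), ‖a x * KP ξ (x - y)‖
      ≤ ∑ x ∈ X.filter (fun x => cl x = y), (1 : ℝ) := Finset.sum_le_sum fun x _ => by
        rw [norm_mul, KP_norm_eq, mul_one]; exact ha x
    _ = _ := by simp

/-- the quadratic form -/
theorem quad {r ω : ℝ} (hr : 0 < r) (Y : Finset (E n × ℝ)) (c : E n × ℝ → ℂ) {N : ℝ}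
    (hN : ∑ y ∈ Y, ‖c y‖ ≤ N) {ζ : E n} (hω : 0 ≤ ω)
    (hosc : ∀ y ∈ Y, ∀ y' ∈ Y, y ≠ y' → ‖∫ ξ, (gw r ζ ξ : ℂ) * KP ξ (y - y')‖ ≤ ω) :
    ∫⁻ ξ, ENNReal.ofReal (gw r ζ ξ) * ‖∑ y ∈ Y, c y * KP ξ y‖ₑ ^ (2 : ℝ) ≤
      ENNReal.ofReal (r ^ n) * ∑ y ∈ Y, ‖c y‖ₑ ^ (2 : ℝ) + ENNReal.ofReal (ω * N ^ 2) := by
  have hN0 : 0 ≤ N := (Finset.sum_nonneg fun y _ => norm_nonneg _).trans hN
  set G : E n → ℂ := fun ξ => ∑ y ∈ Y, c y * KP ξ y with hG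
  have hGc : Continuous G := continuous_finsetSum _ fun y _ => continuous_const.mul (KP_cont_left y)
  have hGN : ∀ ξ, ‖G ξ‖ ≤ N := fun ξ => by
    refine (norm_sum_le _ _).trans (le_trans (Finset.sum_le_sum fun y _ => ?_) hN)
    rw [norm_mul, KP_norm_eq, mul_one]
  have hGi : Integrable fun ξ => gw r ζ ξ * ‖G ξ‖ ^ 2 := by
    refine (gw_int hr ζ).mul_bdd (c := N ^ 2) (hGc.norm.pow 2).aestronglyMeasurable
      (Eventually.of_forall fun ξ => ?_)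
    rw [norm_pow, norm_norm]
    have := hGN ξ
    gcongr
  have h1 : ∫⁻ ξ, ENNReal.ofReal (gw r ζ ξ) * ‖∑ y ∈ Y, c y * KP ξ y‖ₑ ^ (2 : ℝ) =
      ENNReal.ofReal (∫ ξ, gw r ζ ξ * ‖G ξ‖ ^ 2) := by
    rw [ofReal_integral_eq_lintegral_ofReal hGi (Eventually.of_forall fun ξ => by
      have := (gw_pos r ζ ξ).le
      positivity)]
    refine lintegral_congr fun ξ => ?_
    rw [ENNReal.ofReal_mul (gw_pos r ζ ξ).le, ← ofReal_norm, show (2 : ℝ) = ((2 : ℕ) : ℝ) by norm_num,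
      ENNReal.rpow_natCast, ENNReal.ofReal_pow (norm_nonneg _)]
  have hterm : ∀ y y' : E n × ℝ, Integrable fun ξ => (gw r ζ ξ : ℂ) *
      (c y * (starRingEnd ℂ) (c y') * KP ξ (y - y')) := fun y y' => by
    refine (gw_int hr ζ).ofReal.mul_bdd (c := ‖c y‖ * ‖c y'‖)
      (continuous_const.mul (KP_cont_left _)).aestronglyMeasurable
      (Eventually.of_forall fun ξ => ?_)
    rw [norm_mul, norm_mul, KP_norm_eq, mul_one, RCLike.norm_conj]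
  have h2 : ((∫ ξ, gw r ζ ξ * ‖G ξ‖ ^ 2 : ℝ) : ℂ) =
      ∑ y ∈ Y, ∑ y' ∈ Y, c y * (starRingEnd ℂ) (c y') * ∫ ξ, (gw r ζ ξ : ℂ) * KP ξ (y - y') := by
    have e0 : ((∫ ξ, gw r ζ ξ * ‖G ξ‖ ^ 2 : ℝ) : ℂ) =
        ∫ ξ, ((gw r ζ ξ * ‖G ξ‖ ^ 2 : ℝ) : ℂ) := integral_complex_ofReal.symm
    have e1 : ∀ ξ, ((gw r ζ ξ * ‖G ξ‖ ^ 2 : ℝ) : ℂ) = ∑ y ∈ Y, ∑ y' ∈ Y,
        (gw r ζ ξ : ℂ) * (c y * (starRingEnd ℂ) (c y') * KP ξ (y - y')) := fun ξ => by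
      have e2 := Complex.mul_conj (G ξ)
      rw [Complex.normSq_eq_norm_sq] at e2
      rw [Complex.ofReal_mul, ← e2, hG]
      simp only
      rw [map_sum, Finset.sum_mul_sum, Finset.mul_sum]
      refine Finset.sum_congr rfl fun y _ => ?_
      rw [Finset.mul_sum]
      refine Finset.sum_congr rfl fun y' _ => ?_
      rw [map_mul, sub_eq_add_neg, KP_add, KP_neg]
      ring
    rw [e0, integral_congr_ae (Eventually.of_forall e1),
      integral_finsetSum _ fun y _ => integrable_finsetSum _ fun y' _ => hterm y y']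
    refine Finset.sum_congr rfl fun y _ => ?_
    rw [integral_finsetSum _ fun y' _ => hterm y y']
    refine Finset.sum_congr rfl fun y' _ => ?_
    rw [← integral_const_mul]
    refine integral_congr_ae (Eventually.of_forall fun ξ => ?_)
    show (gw r ζ ξ : ℂ) * (c y * (starRingEnd ℂ) (c y') * KP ξ (y - y')) =
      c y * (starRingEnd ℂ) (c y') * ((gw r ζ ξ : ℂ) * KP ξ (y - y'))
    ring
  have hdiag : ∀ y : E n × ℝ, ‖∫ ξ, (gw r ζ ξ : ℂ) * KP ξ (y - y)‖ = r ^ n := fun y => by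
    have e1 : ∀ ξ, (gw r ζ ξ : ℂ) * KP ξ (y - y) = (gw r ζ ξ : ℂ) := fun ξ => by
      rw [sub_self, KP_zero, mul_one]
    have e2 : ∫ ξ, (gw r ζ ξ : ℂ) = ((∫ ξ, gw r ζ ξ : ℝ) : ℂ) := integral_complex_ofReal
    rw [integral_congr_ae (Eventually.of_forall e1), e2, gw_integral hr, Complex.norm_real,
      Real.norm_of_nonneg (by positivity)]
  have h3 : ∫ ξ, gw r ζ ξ * ‖G ξ‖ ^ 2 ≤ r ^ n * ∑ y ∈ Y, ‖c y‖ ^ 2 + ω * N ^ 2 := by
    have e1 : ∫ ξ, gw r ζ ξ * ‖G ξ‖ ^ 2 ≤ ‖((∫ ξ, gw r ζ ξ * ‖G ξ‖ ^ 2 : ℝ) : ℂ)‖ := by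
      rw [Complex.norm_real]; exact le_abs_self _
    rw [h2] at e1
    refine e1.trans ?_
    calc ‖∑ y ∈ Y, ∑ y' ∈ Y, c y * (starRingEnd ℂ) (c y') * ∫ ξ, (gw r ζ ξ : ℂ) * KP ξ (y - y')‖
        ≤ ∑ y ∈ Y, ∑ y' ∈ Y, ((if y = y' then r ^ n * ‖c y‖ ^ 2 else 0) + ω * (‖c y‖ * ‖c y'‖)) := by
          refine (norm_sum_le _ _).trans (Finset.sum_le_sum fun y hy => ?_)
          refine (norm_sum_le _ _).trans (Finset.sum_le_sum fun y' hy' => ?_)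
          rw [norm_mul, norm_mul, RCLike.norm_conj]
          by_cases hyy : y = y'
          · subst hyy
            rw [if_pos rfl, hdiag]
            have : 0 ≤ ω * (‖c y‖ * ‖c y‖) := by positivity
            nlinarith
          · rw [if_neg hyy, zero_add]
            calc ‖c y‖ * ‖c y'‖ * ‖∫ ξ, (gw r ζ ξ : ℂ) * KP ξ (y - y')‖
                ≤ ‖c y‖ * ‖c y'‖ * ω := by
                  gcongr
                  exact hosc y hy y' hy' hyy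
              _ = _ := by ring
      _ = r ^ n * ∑ y ∈ Y, ‖c y‖ ^ 2 + ω * (∑ y ∈ Y, ‖c y‖) ^ 2 := by
          simp only [Finset.sum_add_distrib]
          congr 1
          · rw [Finset.mul_sum]
            refine Finset.sum_congr rfl fun y hy => ?_
            rw [Finset.sum_ite_eq Y y (fun _ => r ^ n * ‖c y‖ ^ 2), if_pos hy]
          · rw [sq, Finset.sum_mul_sum, Finset.mul_sum]
            refine Finset.sum_congr rfl fun y _ => ?_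
            rw [Finset.mul_sum]
      _ ≤ r ^ n * ∑ y ∈ Y, ‖c y‖ ^ 2 + ω * N ^ 2 := by
          have : 0 ≤ ∑ y ∈ Y, ‖c y‖ := Finset.sum_nonneg fun y _ => norm_nonneg _
          gcongr
  rw [h1]
  refine (ENNReal.ofReal_le_ofReal h3).trans ?_
  rw [ENNReal.ofReal_add (by positivity) (by positivity), ENNReal.ofReal_mul (by positivity)]
  gcongr
  rw [ENNReal.ofReal_sum_of_nonneg fun y _ => by positivity]
  refine le_of_eq (Finset.sum_congr rfl fun y _ => ?_)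
  rw [← ofReal_norm, show (2 : ℝ) = ((2 : ℕ) : ℝ) by norm_num,
      ENNReal.rpow_natCast, ENNReal.ofReal_pow (norm_nonneg _)]

/-- the width of the Gaussians -/
noncomputable def rad (n : ℕ) (N R : ℝ) : ℝ := 1 / (2 ^ (n + 5) * N * R)

/-- the separation of the clusters -/
noncomputable def LL (n : ℕ) (N R : ℝ) : ℝ :=
  N * (1 / rad n N R + 6 * (N ^ 4 / rad n N R ^ (2 * n)))

omit [DecidableEq (E n × ℝ)] in
theorem rad_pos {N R : ℝ} (hN : 1 ≤ N) (hR : 1 ≤ R) : 0 < rad n N R := by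
  unfold rad; positivity

omit [DecidableEq (E n × ℝ)] in
theorem rad_le {N R : ℝ} (hN : 1 ≤ N) (hR : 1 ≤ R) : rad n N R ≤ 1 := by
  unfold rad
  rw [div_le_one (by positivity)]
  have h1 : (1 : ℝ) ≤ 2 ^ (n + 5) := one_le_pow₀ (by norm_num)
  have h2 : (1 : ℝ) ≤ 2 ^ (n + 5) * N := one_le_mul_of_one_le_of_one_le h1 hN
  exact one_le_mul_of_one_le_of_one_le h2 hR

theorem ES_sub {X Y : Finset (E n × ℝ)} {cl : E n × ℝ → E n × ℝ} (hcl : ∀ x ∈ X, cl x ∈ Y)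
    {R : ℝ} (hclR : ∀ x ∈ X, ‖x - cl x‖ ≤ R) {a : E n × ℝ → ℂ} (ha : ∀ x, ‖a x‖ ≤ 1)
    {ξ ζ : E n} (hξ : ‖ξ‖ ≤ 1) (hζ : ‖ζ‖ ≤ 2) :
    ‖ES X a ξ - ∑ y ∈ Y, hh X cl a y ζ * KP ξ y‖ ≤ X.card * (8 * Real.pi * R * ‖ξ - ζ‖) := by
  have h1 : ∑ y ∈ Y, hh X cl a y ζ * KP ξ y = ∑ x ∈ X, a x * KP ζ (x - cl x) * KP ξ (cl x) := by
    rw [← Finset.sum_fiberwise_of_maps_to hcl]
    refine Finset.sum_congr rfl fun y _ => ?_
    unfold hh
    rw [Finset.sum_mul]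
    refine Finset.sum_congr rfl fun x hx => ?_
    rw [(Finset.mem_filter.1 hx).2]
  rw [h1]
  unfold ES
  rw [← Finset.sum_sub_distrib]
  refine (norm_sum_le _ _).trans ?_
  calc ∑ x ∈ X, ‖a x * KP ξ x - a x * KP ζ (x - cl x) * KP ξ (cl x)‖
      ≤ ∑ x ∈ X, 8 * Real.pi * R * ‖ξ - ζ‖ := by
        refine Finset.sum_le_sum fun x hx => ?_
        have e1 : a x * KP ξ x - a x * KP ζ (x - cl x) * KP ξ (cl x) =
            a x * (KP ξ (cl x) * (KP ξ (x - cl x) - KP ζ (x - cl x))) := by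
          have e2 : KP ξ x = KP ξ (cl x) * KP ξ (x - cl x) := by
            rw [← KP_add, add_sub_cancel]
          rw [e2]; ring
        rw [e1, norm_mul, norm_mul, KP_norm_eq, one_mul]
        calc ‖a x‖ * ‖KP ξ (x - cl x) - KP ζ (x - cl x)‖
            ≤ 1 * ‖KP ξ (x - cl x) - KP ζ (x - cl x)‖ := by
              gcongr
              exact ha x
          _ ≤ _ := by rw [one_mul]; exact KP_sub_KP hξ hζ (hclR x hx)
    _ = _ := by rw [Finset.sum_const, nsmul_eq_mul]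

/-- one Gaussian window -/
theorem window (hn : 1 ≤ n) {q : ℝ} (hq : 1 ≤ q) (hq2 : q ≤ 2) {X Y : Finset (E n × ℝ)}
    {cl : E n × ℝ → E n × ℝ} (hcl : ∀ x ∈ X, cl x ∈ Y) {R : ℝ} (hR : 1 ≤ R)
    (hclR : ∀ x ∈ X, ‖x - cl x‖ ≤ R) {a : E n × ℝ → ℂ} (ha : ∀ x, ‖a x‖ ≤ 1)
    (hX : 1 ≤ X.card)
    (hsep : ∀ y ∈ Y, ∀ y' ∈ Y, y ≠ y' → LL n X.card R ≤ ‖y - y'‖) {ζ : E n} (hζ : ‖ζ‖ ≤ 2) :
    ∫⁻ ξ in ball (0 : E n) 1, ENNReal.ofReal (gw (rad n X.card R) ζ ξ) * ‖ES X a ξ‖ₑ ≤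
      ENNReal.ofReal (rad n X.card R ^ n) * ((∑ y ∈ Y, ‖hh X cl a y ζ‖ₑ ^ q) ^ (1 / q) + 2) := by
  have hpi := Real.pi_pos
  set N : ℝ := (X.card : ℝ) with hNdef
  have hN : 1 ≤ N := by rw [hNdef]; exact_mod_cast hX
  set r : ℝ := rad n N R with hr
  have hr0 : 0 < r := rad_pos hN hR
  have hr1 : r ≤ 1 := rad_le hN hR
  set G : E n → ℂ := fun ξ => ∑ y ∈ Y, hh X cl a y ζ * KP ξ y with hG
  have hGc : Continuous G := continuous_finsetSum _ fun y _ => continuous_const.mul (KP_cont_left y)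
  have hwm : Measurable fun ξ => ENNReal.ofReal (gw r ζ ξ) :=
    (gw_cont_right r ζ).measurable.ennreal_ofReal
  -- the sum of the norms
  have hsumN : ∑ y ∈ Y, ‖hh X cl a y ζ‖ ≤ N := by
    refine (Finset.sum_le_sum fun y _ => hh_le X cl ha y ζ).trans ?_
    rw [← Nat.cast_sum, ← Finset.card_eq_sum_card_fiberwise hcl]
  -- first part
  have hA : ∫⁻ ξ in ball (0 : E n) 1, ENNReal.ofReal (gw r ζ ξ) * ‖ES X a ξ - G ξ‖ₑ ≤
      ENNReal.ofReal (r ^ n) := by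
    calc ∫⁻ ξ in ball (0 : E n) 1, ENNReal.ofReal (gw r ζ ξ) * ‖ES X a ξ - G ξ‖ₑ
        ≤ ∫⁻ ξ in ball (0 : E n) 1, ENNReal.ofReal (N * (8 * Real.pi * R)) *
            ENNReal.ofReal (gw r ζ ξ * ‖ξ - ζ‖) := by
          refine setLIntegral_mono' measurableSet_ball fun ξ hξ => ?_
          have h1 := ES_sub hcl hclR ha (mem_ball_zero_iff.1 hξ).le hζ
          rw [← ofReal_norm, ← ENNReal.ofReal_mul (gw_pos r ζ ξ).le,
            ← ENNReal.ofReal_mul (by positivity)]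
          apply ENNReal.ofReal_le_ofReal
          calc gw r ζ ξ * ‖ES X a ξ - G ξ‖ ≤ gw r ζ ξ * (N * (8 * Real.pi * R * ‖ξ - ζ‖)) := by
                have := (gw_pos r ζ ξ).le
                gcongr
            _ = _ := by ring
      _ ≤ ∫⁻ ξ, ENNReal.ofReal (N * (8 * Real.pi * R)) *
            ENNReal.ofReal (gw r ζ ξ * ‖ξ - ζ‖) := setLIntegral_le_lintegral _ _
      _ ≤ ENNReal.ofReal (N * (8 * Real.pi * R)) * ENNReal.ofReal (2 ^ n * r ^ (n + 1)) := by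
          rw [lintegral_const_mul' _ _ ENNReal.ofReal_ne_top]
          gcongr
          exact gw_moment hr0 ζ
      _ ≤ ENNReal.ofReal (r ^ n) := by
          rw [← ENNReal.ofReal_mul (by positivity)]
          apply ENNReal.ofReal_le_ofReal
          have h1 : r * (2 ^ (n + 5) * N * R) = 1 := by
            rw [hr]; unfold rad; field_simp
          have h2 : Real.pi ≤ 4 := Real.pi_le_four
          calc N * (8 * Real.pi * R) * (2 ^ n * r ^ (n + 1))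
              ≤ N * (8 * 4 * R) * (2 ^ n * r ^ (n + 1)) := by gcongr
            _ = r ^ n * (r * (2 ^ (n + 5) * N * R)) := by rw [pow_succ, pow_add]; ring
            _ = r ^ n := by rw [h1, mul_one]
  -- second part
  have hB : ∫⁻ ξ, ENNReal.ofReal (gw r ζ ξ) * ‖G ξ‖ₑ ≤
      ENNReal.ofReal (r ^ n) * ((∑ y ∈ Y, ‖hh X cl a y ζ‖ₑ ^ q) ^ (1 / q) + 1) := by
    have hq1 := quad hr0 Y (fun y => hh X cl a y ζ) hsumN (ζ := ζ) (ω := r ^ n / N ^ 2)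
      (by positivity) fun y hy y' hy' hyy => gw_decay hn hr0 hr1 hN hζ (hsep y hy y' hy' hyy)
    have hq3 : r ^ n / N ^ 2 * N ^ 2 = r ^ n := by
      have : N ≠ 0 := by linarith
      field_simp
    rw [hq3] at hq1
    have hj := jensen ((volume : Measure (E n)).withDensity fun ξ => ENNReal.ofReal (gw r ζ ξ))
      (q := 2) (by norm_num) G hGc.measurable
    rw [lintegral_withDensity_eq_lintegral_mul _ hwm hGc.measurable.enorm,
      lintegral_withDensity_eq_lintegral_mul _ hwm (hGc.measurable.enorm.pow_const 2),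
      withDensity_apply _ MeasurableSet.univ, setLIntegral_univ, gw_lint hr0,
      show (2 : ℝ) - 1 = 1 by norm_num, ENNReal.rpow_one] at hj
    have hj2 : (∫⁻ ξ, ENNReal.ofReal (gw r ζ ξ) * ‖G ξ‖ₑ) ^ (2 : ℝ) ≤
        (ENNReal.ofReal (r ^ n) * ((∑ y ∈ Y, ‖hh X cl a y ζ‖ₑ ^ q) ^ (1 / q) + 1)) ^ (2 : ℝ) := by
      refine hj.trans ?_
      calc (∫⁻ ξ, ((fun ξ => ENNReal.ofReal (gw r ζ ξ)) * fun ξ => ‖G ξ‖ₑ ^ (2 : ℝ)) ξ) *
            ENNReal.ofReal (r ^ n)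
          ≤ (ENNReal.ofReal (r ^ n) * ∑ y ∈ Y, ‖hh X cl a y ζ‖ₑ ^ (2 : ℝ) +
              ENNReal.ofReal (r ^ n)) * ENNReal.ofReal (r ^ n) := by
            gcongr
            exact hq1
        _ = ENNReal.ofReal (r ^ n) ^ (2 : ℝ) *
              (∑ y ∈ Y, ‖hh X cl a y ζ‖ₑ ^ (2 : ℝ) + 1) := by
            rw [show ENNReal.ofReal (r ^ n) ^ (2 : ℝ) = ENNReal.ofReal (r ^ n) *
              ENNReal.ofReal (r ^ n) by
                rw [show (2 : ℝ) = ((2 : ℕ) : ℝ) by norm_num, ENNReal.rpow_natCast, sq]]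
            ring
        _ ≤ ENNReal.ofReal (r ^ n) ^ (2 : ℝ) *
              ((∑ y ∈ Y, ‖hh X cl a y ζ‖ₑ ^ q) ^ (1 / q) + 1) ^ (2 : ℝ) := by
            gcongr
            have h1 := sqrt_sum_le Y (fun y => ‖hh X cl a y ζ‖ₑ) hq hq2
            calc ∑ y ∈ Y, ‖hh X cl a y ζ‖ₑ ^ (2 : ℝ) + 1
                = ((∑ y ∈ Y, ‖hh X cl a y ζ‖ₑ ^ (2 : ℝ) + 1) ^ (1 / 2 : ℝ)) ^ (2 : ℝ) := by
                  rw [← ENNReal.rpow_mul]; norm_num
              _ ≤ _ := ENNReal.rpow_le_rpow h1 (by norm_num)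
        _ = _ := by rw [ENNReal.mul_rpow_of_nonneg _ _ (by norm_num)]
    exact (ENNReal.rpow_le_rpow_iff (by norm_num : (0 : ℝ) < 2)).1 hj2
  calc ∫⁻ ξ in ball (0 : E n) 1, ENNReal.ofReal (gw r ζ ξ) * ‖ES X a ξ‖ₑ
      ≤ ∫⁻ ξ in ball (0 : E n) 1, (ENNReal.ofReal (gw r ζ ξ) * ‖ES X a ξ - G ξ‖ₑ +
          ENNReal.ofReal (gw r ζ ξ) * ‖G ξ‖ₑ) := by
        refine lintegral_mono fun ξ => ?_
        rw [← mul_add]
        gcongr
        calc ‖ES X a ξ‖ₑ = ‖(ES X a ξ - G ξ) + G ξ‖ₑ := by rw [sub_add_cancel]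
          _ ≤ _ := enorm_add_le _ _
    _ = (∫⁻ ξ in ball (0 : E n) 1, ENNReal.ofReal (gw r ζ ξ) * ‖ES X a ξ - G ξ‖ₑ) +
          ∫⁻ ξ in ball (0 : E n) 1, ENNReal.ofReal (gw r ζ ξ) * ‖G ξ‖ₑ :=
        lintegral_add_left (hwm.mul ((ES_cont X a).sub hGc).measurable.enorm) _
    _ ≤ ENNReal.ofReal (r ^ n) +
          ENNReal.ofReal (r ^ n) * ((∑ y ∈ Y, ‖hh X cl a y ζ‖ₑ ^ q) ^ (1 / q) + 1) :=
        add_le_add hA ((setLIntegral_le_lintegral _ _).trans hB)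
    _ = _ := by ring

/-- clusters that are far apart -/
theorem clusters (hn : 1 ≤ n) {p q : ℝ} (hpq : p.HolderConjugate q) (hq2 : q ≤ 2)
    {X Y : Finset (E n × ℝ)} {cl : E n × ℝ → E n × ℝ} (hcl : ∀ x ∈ X, cl x ∈ Y) {R : ℝ}
    (hR : 1 ≤ R) (hclR : ∀ x ∈ X, ‖x - cl x‖ ≤ R) {a : E n × ℝ → ℂ} (ha : ∀ x, ‖a x‖ ≤ 1)
    (hX : 1 ≤ X.card)
    (hsep : ∀ y ∈ Y, ∀ y' ∈ Y, y ≠ y' → LL n X.card R ≤ ‖y - y'‖) {M : ℝ≥0∞}
    (hM : ∀ y ∈ Y, ∫⁻ ζ in ball (0 : E n) 2, ‖hh X cl a y ζ‖ₑ ^ q ≤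
      M * (X.filter (fun x => cl x = y)).card) :
    ENNReal.ofReal (Real.exp (-Real.pi)) * volume (ball (0 : E n) 1) *
        ∫⁻ ξ in ball (0 : E n) 1, ‖ES X a ξ‖ₑ ≤
      volume (ball (0 : E n) 2) ^ (1 / p) * (M * X.card) ^ (1 / q) +
        2 * volume (ball (0 : E n) 2) := by
  have hq1 : 1 ≤ q := hpq.symm.lt.le
  have hq0 : 0 < q := by linarith
  set N : ℝ := (X.card : ℝ) with hNdef
  have hN : 1 ≤ N := by rw [hNdef]; exact_mod_cast hX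
  set r : ℝ := rad n N R with hr
  have hr0 : 0 < r := rad_pos hN hR
  have hr1 : r ≤ 1 := rad_le hN hR
  set c : ℝ≥0∞ := ENNReal.ofReal (Real.exp (-Real.pi)) * volume (ball (0 : E n) 1) with hc
  have hwm2 : Measurable fun z : E n × E n => ENNReal.ofReal (gw r z.2 z.1) * ‖ES X a z.1‖ₑ := by
    refine Measurable.mul ?_ ((ES_cont X a).comp continuous_fst).measurable.enorm
    exact ((gw_cont r).comp (continuous_snd.prodMk continuous_fst)).measurable.ennreal_ofReal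
  have h1 : c * ENNReal.ofReal (r ^ n) * ∫⁻ ξ in ball (0 : E n) 1, ‖ES X a ξ‖ₑ ≤
      ENNReal.ofReal (r ^ n) * ∫⁻ ζ in ball (0 : E n) 2,
        ((∑ y ∈ Y, ‖hh X cl a y ζ‖ₑ ^ q) ^ (1 / q) + 2) := by
    calc c * ENNReal.ofReal (r ^ n) * ∫⁻ ξ in ball (0 : E n) 1, ‖ES X a ξ‖ₑ
        = ∫⁻ ξ in ball (0 : E n) 1, c * ENNReal.ofReal (r ^ n) * ‖ES X a ξ‖ₑ := by
          rw [lintegral_const_mul _ (ES_cont X a).measurable.enorm]
      _ ≤ ∫⁻ ξ in ball (0 : E n) 1, (∫⁻ ζ in ball (0 : E n) 2,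
            ENNReal.ofReal (gw r ζ ξ)) * ‖ES X a ξ‖ₑ := by
          refine setLIntegral_mono' measurableSet_ball fun ξ hξ => ?_
          gcongr
          exact gw_lower hr0 hr1 hξ
      _ = ∫⁻ ξ in ball (0 : E n) 1, ∫⁻ ζ in ball (0 : E n) 2,
            ENNReal.ofReal (gw r ζ ξ) * ‖ES X a ξ‖ₑ := by
          refine lintegral_congr fun ξ => ?_
          rw [lintegral_mul_const' _ _ enorm_ne_top]
      _ = ∫⁻ ζ in ball (0 : E n) 2, ∫⁻ ξ in ball (0 : E n) 1,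
            ENNReal.ofReal (gw r ζ ξ) * ‖ES X a ξ‖ₑ :=
          lintegral_lintegral_swap hwm2.aemeasurable
      _ ≤ ∫⁻ ζ in ball (0 : E n) 2, ENNReal.ofReal (r ^ n) *
            ((∑ y ∈ Y, ‖hh X cl a y ζ‖ₑ ^ q) ^ (1 / q) + 2) := by
          refine setLIntegral_mono' measurableSet_ball fun ζ hζ => ?_
          exact window hn hq1 hq2 hcl hR hclR ha hX hsep (mem_ball_zero_iff.1 hζ).le
      _ = _ := lintegral_const_mul' _ _ ENNReal.ofReal_ne_top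
  have hrn0 : ENNReal.ofReal (r ^ n) ≠ 0 := by
    have : 0 < r ^ n := by positivity
    simpa using this
  have h2 : c * ∫⁻ ξ in ball (0 : E n) 1, ‖ES X a ξ‖ₑ ≤ ∫⁻ ζ in ball (0 : E n) 2,
        ((∑ y ∈ Y, ‖hh X cl a y ζ‖ₑ ^ q) ^ (1 / q) + 2) := by
    refine (ENNReal.mul_le_mul_iff_right hrn0 ENNReal.ofReal_ne_top).1 ?_
    refine le_trans (le_of_eq ?_) h1
    ring
  refine h2.trans ?_
  have hSm : Measurable fun ζ => ∑ y ∈ Y, ‖hh X cl a y ζ‖ₑ ^ q :=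
    Finset.measurable_sum _ fun y _ => (hh_cont X cl a y).measurable.enorm.pow_const q
  rw [lintegral_add_right _ measurable_const, setLIntegral_const]
  gcongr
  have h3 := ENNReal.lintegral_mul_le_Lp_mul_Lq (volume.restrict (ball (0 : E n) 2)) hpq
    (f := fun _ => (1 : ℝ≥0∞)) (g := fun ζ => (∑ y ∈ Y, ‖hh X cl a y ζ‖ₑ ^ q) ^ (1 / q))
    aemeasurable_const (hSm.pow_const _).aemeasurable
  simp only [Pi.mul_apply, one_mul, ENNReal.one_rpow, ← ENNReal.rpow_mul,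
    one_div_mul_cancel hq0.ne', ENNReal.rpow_one] at h3
  rw [setLIntegral_one] at h3
  refine h3.trans ?_
  gcongr
  rw [lintegral_finsetSum _ fun y _ => (hh_cont X cl a y).measurable.enorm.pow_const q]
  refine (Finset.sum_le_sum hM).trans ?_
  rw [← Finset.mul_sum, ← Nat.cast_sum, ← Finset.card_eq_sum_card_fiberwise hcl]

end Pool.Agent.H222.ER
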