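import Pool.Agent.H222.ER.Lin
import Pool.Agent.H222.ER.Poly

/-!
Averages against polynomial kernels.
-/

open MeasureTheory Set Filter Metric
open scoped ENNReal NNReal Topology

namespace Pool.Agent.H222.ER

open Pool.Agent.Helper184.PH

variable {n : ℕ}

/-- real functions bounded by one on a small ball -/
def FRB (x₀ : E n) (r : ℝ) (f : E n → ℂ) : Prop := FR n f ∧ ∀ ξ, ξ ∉ ball x₀ r → f ξ = 0

theorem Cl.FRB (x₀ : E n) (r : ℝ) : Cl (FRB x₀ r) := by
  refine ⟨fun _ h => h.1, fun f h v ρ m hρ hv => ⟨h.1.lin hρ hv m, fun ξ hξ => ?_⟩⟩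
  unfold mul_lin
  rw [h.2 ξ hξ, zero_mul]

/-- the estimate with the loss `D ^ τ` for all polynomial phases of degree at most `D` and absolute
value at most `c` on `U`, on the ball of radius `D` -/
def PL (n : ℕ) (U : Set (E n)) (c q τ : ℝ) : Prop :=
  ∃ C : ℝ≥0, ∀ D : ℕ, 1 ≤ D → ∀ P : MvPolynomial (Fin n) ℝ, P.totalDegree ≤ D →
    (∀ ξ ∈ U, |ev P ξ| ≤ c) →
    NN q (BB n D) (uni U (ev P) 1) ≤ C * ENNReal.ofReal ((D : ℝ) ^ τ)

/-- the size of the tail -/
theorem tail_small (n : ℕ) {δ : ℝ} (hδ : 0 < δ) (K b : ℝ) (hb : 0 < b) :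
    ∃ R₀ : ℝ, 1 ≤ R₀ ∧ ∀ R : ℝ, R₀ ≤ R →
      K * R ^ (2 * n + 1) * Real.exp (-(b * R ^ δ)) ≤ 1 := by
  have h1 := (tendsto_rpow_mul_exp_neg_mul_atTop_nhds_zero ((2 * n + 1) / δ) b hb).comp
    (tendsto_rpow_atTop hδ)
  have h2 := h1.const_mul K
  rw [mul_zero] at h2
  have h3 := h2.eventually (gt_mem_nhds (zero_lt_one' ℝ))
  obtain ⟨R₁, hR₁⟩ := (h3.and (eventually_ge_atTop 1)).exists_forall_of_atTop
  refine ⟨max 1 R₁, le_max_left _ _, fun R hR => ?_⟩
  have h4 := (hR₁ R ((le_max_right _ _).trans hR)).1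
  have hR1 : 1 ≤ R := (le_max_left _ _).trans hR
  have hR0 : 0 ≤ R := by linarith
  simp only [Function.comp_apply] at h4
  have e1 : (R ^ δ) ^ ((2 * (n : ℝ) + 1) / δ) = R ^ (2 * n + 1) := by
    rw [← Real.rpow_mul hR0, ← Real.rpow_natCast]
    congr 1
    push_cast
    field_simp
  rw [e1] at h4
  rw [mul_assoc, ← neg_mul]
  exact h4.le

/-- the mass of the kernel -/
noncomputable def ZZ (n m : ℕ) (A : ℝ) : ℝ := ∫ v in closedBall (0 : E n) A, kk m A v

theorem kk_intOn (m : ℕ) (A : ℝ) : IntegrableOn (kk m A : E n → ℝ) (closedBall 0 A) :=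
  (kk_cont m A).continuousOn.integrableOn_compact (isCompact_closedBall _ _)

theorem ZZ_ge {A : ℝ} (hA0 : 0 < A) (hA1 : A ≤ 1) (m : ℕ) :
    Real.exp (m * A / 2) / 2 * ((A / 2) ^ n * (volume : Measure (E n)).real (closedBall 0 1)) ≤
      ZZ n m A := by
  have h1 : closedBall (0 : E n) (A / 2) ⊆ closedBall 0 A := closedBall_subset_closedBall (by linarith)
  have h2 : ∫ v in closedBall (0 : E n) (A / 2), Real.exp (m * A / 2) / 2 ≤
      ∫ v in closedBall (0 : E n) (A / 2), kk m A v := by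
    refine setIntegral_mono_on ?_ ((kk_intOn m A).mono_set h1) measurableSet_closedBall
      fun v hv => ?_
    · exact integrableOn_const measure_closedBall_lt_top.ne
    · exact kk_big hA0.le hA1 (mem_closedBall_zero_iff.1 hv)
  have h3 : ∫ v in closedBall (0 : E n) (A / 2), kk m A v ≤ ZZ n m A := by
    refine setIntegral_mono_set (kk_intOn m A) ?_ (Eventually.of_forall h1)
    filter_upwards [ae_restrict_mem measurableSet_closedBall] with v hv
    exact zero_le_one.trans (kk_pos (mem_closedBall_zero_iff.1 hv))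
  rw [setIntegral_const, smul_eq_mul, Measure.addHaar_real_closedBall' _ _ (by positivity),
    finrank_euclideanSpace, Fintype.card_fin] at h2
  exact (le_of_eq (mul_comm _ _)).trans (h2.trans h3)

theorem vol_pos (n : ℕ) : 0 < (volume : Measure (E n)).real (closedBall 0 1) := by
  rw [measureReal_def]
  exact ENNReal.toReal_pos (measure_closedBall_pos _ _ one_pos).ne' measure_closedBall_lt_top.ne

theorem ZZ_pos {A : ℝ} (hA0 : 0 < A) (hA1 : A ≤ 1) (m : ℕ) : 0 < ZZ n m A := by
  refine lt_of_lt_of_le ?_ (ZZ_ge hA0 hA1 m)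
  have := vol_pos n
  positivity

/-- the tail is small compared with the mass -/
theorem ZZ_tail (n : ℕ) {δ : ℝ} (hδ : 0 < δ) (V : ℝ) (hV : 0 ≤ V) :
    ∃ R₁ : ℝ, 1 ≤ R₁ ∧ ∀ R : ℝ, R₁ ≤ R → ∀ m : ℕ, R ^ (1 + δ) ≤ m →
      V / ZZ n m (1 / (32 * Real.pi * R)) * R ^ (n + 1) ≤ 1 := by
  have hπ := Real.pi_pos
  have hπ3 := Real.pi_gt_three
  have hv₁0 := vol_pos n
  set v₁ : ℝ := (volume : Measure (E n)).real (closedBall 0 1) with hv₁
  obtain ⟨R₁, hR₁, htail⟩ := tail_small n hδ (2 * V * (64 * Real.pi) ^ n / v₁)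
    (1 / (64 * Real.pi)) (by positivity)
  refine ⟨R₁, hR₁, fun R hR m hm => ?_⟩
  have hR1 : 1 ≤ R := hR₁.trans hR
  have hR0 : 0 < R := by linarith
  have hA0 : 0 < 1 / (32 * Real.pi * R) := by positivity
  have hA1 : 1 / (32 * Real.pi * R) ≤ 1 := by
    rw [div_le_one (by positivity)]
    nlinarith
  refine le_trans ?_ (htail R hR)
  have hZ0 := ZZ_pos (n := n) hA0 hA1 m
  have hZ := ZZ_ge (n := n) hA0 hA1 m
  rw [← hv₁] at hZ
  have h1 : Real.exp (1 / (64 * Real.pi) * R ^ δ) ≤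
      Real.exp (m * (1 / (32 * Real.pi * R)) / 2) := by
    refine Real.exp_le_exp.2 ?_
    have e1 : R ^ (1 + δ) = R * R ^ δ := by rw [Real.rpow_add hR0, Real.rpow_one]
    rw [e1] at hm
    have e2 : (m : ℝ) * (1 / (32 * Real.pi * R)) / 2 = m / (64 * Real.pi * R) := by
      field_simp; ring
    rw [e2, le_div_iff₀ (by positivity)]
    calc 1 / (64 * Real.pi) * R ^ δ * (64 * Real.pi * R) = R * R ^ δ := by field_simp
      _ ≤ m := hm
  have h2 : Real.exp (1 / (64 * Real.pi) * R ^ δ) / 2 *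
      ((1 / (32 * Real.pi * R) / 2) ^ n * v₁) ≤ ZZ n m (1 / (32 * Real.pi * R)) := by
    refine le_trans ?_ hZ
    gcongr
  have e3 : (1 / (32 * Real.pi * R) / 2) ^ n = 1 / ((64 * Real.pi) ^ n * R ^ n) := by
    rw [← mul_pow, ← one_div_pow]
    congr 1
    field_simp
    norm_num
  rw [e3] at h2
  have hexp := Real.exp_pos (1 / (64 * Real.pi) * R ^ δ)
  rw [div_mul_eq_mul_div, div_le_iff₀ hZ0]
  have h4 : 0 ≤ 2 * V * (64 * Real.pi) ^ n / v₁ * R ^ (2 * n + 1) *
      Real.exp (-(1 / (64 * Real.pi) * R ^ δ)) := by positivity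
  refine le_trans (le_of_eq ?_) (mul_le_mul_of_nonneg_left h2 h4)
  rw [Real.exp_neg]
  have hRn : R ^ (2 * n + 1) = R ^ (n + 1) * R ^ n := by rw [← pow_add]; congr 1; omega
  rw [hRn]
  field_simp

/-- the normalised kernel -/
noncomputable def kap (n m : ℕ) (A : ℝ) : E n → ℝ :=
  (closedBall (0 : E n) A).indicator fun v => kk m A v / ZZ n m A

theorem kap_nonneg {m : ℕ} {A : ℝ} (hZ : 0 < ZZ n m A) (v : E n) : 0 ≤ kap n m A v := by
  unfold kap
  refine indicator_nonneg (fun v hv => ?_) v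
  have := kk_pos (m := m) (mem_closedBall_zero_iff.1 hv)
  positivity

theorem kap_meas (m : ℕ) (A : ℝ) : Measurable (kap n m A) :=
  ((kk_cont m A).measurable.div_const _).indicator measurableSet_closedBall

theorem kap_int (m : ℕ) (A : ℝ) : Integrable (kap n m A) := by
  unfold kap
  rw [integrable_indicator_iff measurableSet_closedBall]
  exact (kk_intOn m A).div_const _

theorem kap_one {m : ℕ} {A : ℝ} (hZ : 0 < ZZ n m A) : ∫ v, kap n m A v = 1 := by
  unfold kap
  rw [integral_indicator measurableSet_closedBall, integral_div]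
  exact div_self hZ.ne'

/-- the normalised kernel as a measure -/
noncomputable def mu (n m : ℕ) (A : ℝ) : Measure (E n) :=
  (volume : Measure (E n)).withDensity fun v => ENNReal.ofReal (kap n m A v)

theorem mu_prob {m : ℕ} {A : ℝ} (hZ : 0 < ZZ n m A) : IsProbabilityMeasure (mu n m A) := by
  refine ⟨?_⟩
  unfold mu
  rw [withDensity_apply _ MeasurableSet.univ, Measure.restrict_univ,
    ← ofReal_integral_eq_lintegral_ofReal (kap_int m A) (Eventually.of_forall (kap_nonneg hZ)),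
    kap_one hZ, ENNReal.ofReal_one]

theorem mu_supp (m : ℕ) (A : ℝ) : ∀ᵐ v ∂(mu n m A), ‖v‖ ≤ A := by
  unfold mu
  rw [ae_withDensity_iff (kap_meas m A).ennreal_ofReal]
  refine Eventually.of_forall fun v hv => ?_
  by_contra hcon
  refine hv ?_
  unfold kap
  rw [indicator_of_notMem (fun h => hcon (mem_closedBall_zero_iff.1 h)), ENNReal.ofReal_zero]

theorem avg_mu {m : ℕ} {A : ℝ} (hZ : 0 < ZZ n m A) (u : E n → ℝ) :
    avg (mu n m A) (fun ξ => (u ξ : ℂ)) =
      fun ξ => ((∫ v, kap n m A v * u (ξ - v) : ℝ) : ℂ) := by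
  funext ξ
  unfold avg mu
  rw [integral_withDensity_eq_integral_toReal_smul (kap_meas m A).ennreal_ofReal
    (Eventually.of_forall fun v => ENNReal.ofReal_lt_top)]
  have e1 : ((∫ v, kap n m A v * u (ξ - v) : ℝ) : ℂ) = ∫ v, ((kap n m A v * u (ξ - v) : ℝ) : ℂ) :=
    (integral_ofReal (𝕜 := ℂ)).symm
  rw [e1]
  refine integral_congr_ae (Eventually.of_forall fun v => ?_)
  simp only [ENNReal.toReal_ofReal (kap_nonneg hZ v), Complex.real_smul]
  push_cast
  ring

/-- averages of real functions are close to polynomials -/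
theorem avg_near {m : ℕ} {A : ℝ} (hA0 : 0 ≤ A) (hZ : 0 < ZZ n m A) {u : E n → ℝ}
    (hu : Measurable u) (hu1 : ∀ ξ, ‖u ξ‖ ≤ 1) (hu0 : ∀ ξ, ξ ∉ ball (0 : E n) (1 / 2) → u ξ = 0) :
    ∃ P : MvPolynomial (Fin n) ℝ, P.totalDegree ≤ 2 * m ∧ ∀ ξ ∈ ball (0 : E n) (1 / 2),
      |ev P ξ - ∫ v, kap n m A v * u (ξ - v)| ≤
        (volume : Measure (E n)).real (ball 0 (1 / 2)) / ZZ n m A := by
  obtain ⟨P₀, hP₀, hP₀ev⟩ := poly_int (kpol n m A) hu hu1
    (fun ξ hξ => hu0 ξ fun h => hξ (ball_subset_ball (by norm_num) h))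
  simp only [kpol_ev] at hP₀ev
  have hui : Integrable u := by
    have h1 : Integrable fun ξ => (u ξ : ℂ) := integrable_of_bdd
      (Complex.measurable_ofReal.comp hu) (M := 1) (fun ξ => by
        rw [Complex.norm_real]; exact hu1 ξ) (R := 1 / 2) fun ξ hξ => by rw [hu0 ξ hξ]; rfl
    exact h1.re
  refine ⟨MvPolynomial.C (ZZ n m A)⁻¹ * P₀, (deg_C_mul _ _).trans (hP₀.trans (kpol_deg m A)),
    fun ξ hξ => ?_⟩
  have h1 : ∫ v, kap n m A v * u (ξ - v) = ∫ η, kap n m A (ξ - η) * u η := by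
    rw [← integral_sub_left_eq_self (fun v => kap n m A v * u (ξ - v)) volume ξ]
    refine integral_congr_ae (Eventually.of_forall fun η => ?_)
    simp only [sub_sub_cancel]
  have h2 : ev (MvPolynomial.C (ZZ n m A)⁻¹ * P₀) ξ =
      ∫ η, (ZZ n m A)⁻¹ * (u η * kk m A (ξ - η)) := by
    rw [ev_C_mul, hP₀ev, integral_const_mul]
  have hi1 : Integrable fun η => (ZZ n m A)⁻¹ * (u η * kk m A (ξ - η)) := by
    refine Integrable.const_mul ?_ _
    obtain ⟨M', hM'⟩ := (isCompact_closedBall (0 : E n) 1).exists_bound_of_continuousOn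
      (f := fun η => kk m A (ξ - η)) ((kk_cont m A).comp (by fun_prop)).continuousOn
    have h5 : Measurable fun η => kk m A (ξ - η) := ((kk_cont m A).comp (by fun_prop)).measurable
    refine (hui.norm.mul_const M').mono' (hu.mul h5).aestronglyMeasurable
      (Eventually.of_forall fun η => ?_)
    rw [norm_mul]
    by_cases hη : η ∈ closedBall (0 : E n) 1
    · have := hM' η hη
      gcongr
    · rw [hu0 η fun h => hη (ball_subset_closedBall (ball_subset_ball (by norm_num) h)),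
        norm_zero, zero_mul, zero_mul]
  have hi2 : Integrable fun η => kap n m A (ξ - η) * u η := by
    have h7 : Integrable fun v => kap n m A v * u (ξ - v) :=
      (kap_int m A).mul_bdd (c := 1) (hu.comp (measurable_const.sub measurable_id)).aestronglyMeasurable
        (Eventually.of_forall fun v => hu1 _)
    have h6 := h7.comp_sub_left ξ
    simpa only [sub_sub_cancel] using h6
  rw [h1, h2, ← integral_sub hi1 hi2]
  have h3 : ∀ η, ‖(ZZ n m A)⁻¹ * (u η * kk m A (ξ - η)) - kap n m A (ξ - η) * u η‖ ≤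
      (ball (0 : E n) (1 / 2)).indicator (fun _ => (ZZ n m A)⁻¹) η := fun η => by
    by_cases hη : η ∈ ball (0 : E n) (1 / 2)
    · rw [indicator_of_mem hη]
      have hle1 : ‖ξ - η‖ ≤ 1 := by
        have e1 := mem_ball_zero_iff.1 hξ
        have e2 := mem_ball_zero_iff.1 hη
        exact (norm_sub_le _ _).trans (by linarith)
      by_cases hB' : ξ - η ∈ closedBall (0 : E n) A
      · have e3 : (ZZ n m A)⁻¹ * (u η * kk m A (ξ - η)) - kap n m A (ξ - η) * u η = 0 := by
          unfold kap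
          rw [indicator_of_mem hB']
          ring
        rw [e3, norm_zero]
        positivity
      · have e4 : A ≤ ‖ξ - η‖ := by
          by_contra hcon
          exact hB' (mem_closedBall_zero_iff.2 (not_le.1 hcon).le)
        have e5 := kk_small (m := m) hA0 e4 hle1
        unfold kap
        rw [indicator_of_notMem hB', zero_mul, sub_zero, norm_mul, norm_mul, norm_inv,
          Real.norm_of_nonneg hZ.le]
        calc (ZZ n m A)⁻¹ * (‖u η‖ * ‖kk m A (ξ - η)‖) ≤ (ZZ n m A)⁻¹ * (1 * 1) := by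
              gcongr
              · exact hu1 η
              · exact e5
          _ = (ZZ n m A)⁻¹ := by ring
    · rw [indicator_of_notMem hη, hu0 η hη]
      simp
  rw [← Real.norm_eq_abs]
  calc ‖∫ η, ((ZZ n m A)⁻¹ * (u η * kk m A (ξ - η)) - kap n m A (ξ - η) * u η)‖
      ≤ ∫ η, (ball (0 : E n) (1 / 2)).indicator (fun _ => (ZZ n m A)⁻¹) η := by
        refine norm_integral_le_of_norm_le ?_ (Eventually.of_forall h3)
        rw [integrable_indicator_iff measurableSet_ball]
        exact integrableOn_const measure_ball_lt_top.ne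
    _ = (volume : Measure (E n)).real (ball 0 (1 / 2)) / ZZ n m A := by
        rw [integral_indicator_const _ measurableSet_ball, smul_eq_mul]
        rfl

end Pool.Agent.H222.ER
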