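import Pool.Agent.H222.ER.PolyC
import Pool.Agent.H222.ER.Fin

/-!
From polynomial phases to bounded functions.
-/

open MeasureTheory Set Filter Metric
open scoped ENNReal NNReal Topology

namespace Pool.Agent.H222.ER

open Pool.Agent.Helper184.PH

variable {n : ℕ}

/-- the trivial constant -/
noncomputable def S2 (n : ℕ) (q : ℝ) : ℝ≥0∞ :=
  volume (ball (0 : E n) (1 / 2)) ^ q * volume (ball (0 : E n × ℝ) 1)

theorem S2_ne_top {q : ℝ} (hq : 0 ≤ q) : S2 n q ≠ ∞ :=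
  ENNReal.mul_ne_top (ENNReal.rpow_ne_top_of_nonneg hq measure_ball_lt_top.ne)
    measure_ball_lt_top.ne

/-- comparison of the class with a slightly larger one -/
theorem poly_step {U : Set (E n)} (hU : MeasurableSet U) (hUb : U ⊆ ball 0 (1 / 2)) {x₀ : E n}
    {r : ℝ} (hrU : ball x₀ (2 * r) ⊆ U) {q s : ℝ} (hq : 1 ≤ q) (hs0 : 0 < s) (hs1 : s ≤ 1 / 4)
    {D m : ℕ} {R : ℝ} (hR1 : 1 ≤ R) (hm : 2 * m ≤ D) {A : ℝ} (hA : A = 1 / (32 * Real.pi * R))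
    {L : ℝ≥0∞} (hL : ∀ P : MvPolynomial (Fin n) ℝ, P.totalDegree ≤ D →
      (∀ ξ ∈ U, |ev P ξ| ≤ 2 * s) → NN q (BB n R) (uni U (ev P) 1) ≤ L)
    (htR : 2 * (volume : Measure (E n)).real (ball 0 (1 / 2)) / ZZ n m A * R ^ (n + 1) ≤ 1)
    {ρ : ℝ} (hρ : ρ + A ≤ 2 * r) {T : ℝ≥0∞}
    (hT : ∀ f, FRB x₀ (ρ + A) f → NN q (BB n R) f ≤ T) {f : E n → ℂ} (hf : FRB x₀ ρ f) :
    NN q (BB n R) f ≤ 2 ^ q * (2 ^ (q - 1) * (ENNReal.ofReal s⁻¹ ^ q * L + 2 ^ (q - 1) *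
      (ENNReal.ofReal (2 * s ^ 2) ^ q * T + S2 n q))) := by
  have hπ := Real.pi_pos
  have hπ3 := Real.pi_gt_three
  have hR0 : 0 < R := by linarith
  have hA0 : 0 < A := by rw [hA]; positivity
  have hA1 : A ≤ 1 := by
    rw [hA, div_le_one (by positivity)]
    nlinarith
  have hZ0 : 0 < ZZ n m A := ZZ_pos hA0 hA1 m
  have ht0 : 0 ≤ (volume : Measure (E n)).real (ball 0 (1 / 2)) / ZZ n m A :=
    div_nonneg measureReal_nonneg hZ0.le
  rw [mul_div_assoc] at htR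
  generalize ht : (volume : Measure (E n)).real (ball 0 (1 / 2)) / ZZ n m A = t at htR ht0
  have ht1 : 2 * t ≤ 1 := by
    have : 1 ≤ R ^ (n + 1) := one_le_pow₀ hR1
    nlinarith
  have hρU : ball x₀ (ρ + A) ⊆ U := (ball_subset_ball hρ).trans hrU
  have hprob : IsProbabilityMeasure (mu n m A) := mu_prob hZ0
  have hreal : ∀ f, FRB x₀ ρ f → ∃ (a : E n → ℝ) (P : MvPolynomial (Fin n) ℝ), Measurable a ∧
      (∀ ξ, ‖a ξ‖ ≤ 1) ∧ (∀ ξ, ξ ∉ ball x₀ (ρ + A) → a ξ = 0) ∧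
      avg (mu n m A) f = (fun ξ => (a ξ : ℂ)) ∧
      P.totalDegree ≤ 2 * m ∧ ∀ ξ ∈ U, |ev P ξ - a ξ| ≤ t := fun f hf => by
    obtain ⟨u, hu, hu1, hu0, hur, rfl⟩ : ∃ u : E n → ℝ, Measurable u ∧ (∀ ξ, ‖u ξ‖ ≤ 1) ∧
        (∀ ξ, ξ ∉ ball (0 : E n) (1 / 2) → u ξ = 0) ∧ (∀ ξ, ξ ∉ ball x₀ ρ → u ξ = 0) ∧
        f = fun ξ => (u ξ : ℂ) := by
      refine ⟨fun ξ => (f ξ).re, Complex.measurable_re.comp hf.1.1, fun ξ => ?_, fun ξ hξ => ?_,
        fun ξ hξ => ?_, ?_⟩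
      · exact (Complex.abs_re_le_norm _).trans (hf.1.2.1 ξ)
      · show (f ξ).re = 0
        rw [hf.1.2.2.1 ξ hξ]; rfl
      · show (f ξ).re = 0
        rw [hf.2 ξ hξ]; rfl
      · funext ξ
        have := hf.1.2.2.2 ξ
        apply Complex.ext
        · simp
        · simp [this]
    obtain ⟨P, hP, hPa⟩ := avg_near hA0.le hZ0 hu hu1 hu0
    rw [ht] at hPa
    refine ⟨fun ξ => ∫ v, kap n m A v * u (ξ - v), P, ?_, fun ξ => ?_, fun ξ hξ => ?_,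
      avg_mu hZ0 u, hP, fun ξ hξ => hPa ξ (hUb hξ)⟩
    · have h1 : Measurable (Function.uncurry fun (ξ v : E n) => kap n m A v * u (ξ - v)) :=
        ((kap_meas m A).comp measurable_snd).mul (hu.comp (measurable_fst.sub measurable_snd))
      exact h1.stronglyMeasurable.integral_prod_right.measurable
    · calc ‖∫ v, kap n m A v * u (ξ - v)‖ ≤ ∫ v, kap n m A v := by
            refine norm_integral_le_of_norm_le (kap_int m A) (Eventually.of_forall fun v => ?_)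
            rw [norm_mul, Real.norm_of_nonneg (kap_nonneg hZ0 v)]
            calc kap n m A v * ‖u (ξ - v)‖ ≤ kap n m A v * 1 :=
                  mul_le_mul_of_nonneg_left (hu1 _) (kap_nonneg hZ0 v)
              _ = _ := mul_one _
        _ = 1 := kap_one hZ0
    · have h1 : ∀ v, kap n m A v * u (ξ - v) = 0 := fun v => by
        by_cases hv : v ∈ closedBall (0 : E n) A
        · rw [hur (ξ - v) fun h => hξ ?_, mul_zero]
          rw [mem_ball, dist_eq_norm] at h ⊢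
          have h2 : ‖v‖ ≤ A := mem_closedBall_zero_iff.1 hv
          calc ‖ξ - x₀‖ = ‖(ξ - v - x₀) + v‖ := by congr 1; abel
            _ ≤ ‖ξ - v - x₀‖ + ‖v‖ := norm_add_le _ _
            _ < ρ + A := by linarith
        · unfold kap
          rw [indicator_of_notMem hv, zero_mul]
      show ∫ v, kap n m A v * u (ξ - v) = 0
      simp only [h1, integral_zero]
  refine avg_reduce_gen (Cl.FRB x₀ ρ) hq hR1 hA (mu_supp m A) (fun f hf => ?_) (fun f hf => ?_) hf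
  · obtain ⟨a, P, ham, ha1, haU, hav, -⟩ := hreal f hf
    rw [hav]
    refine integrable_of_bdd (Complex.measurable_ofReal.comp ham) (M := 1) (fun ξ => ?_)
      (R := 1 / 2) fun ξ hξ => ?_
    · show ‖((a ξ : ℝ) : ℂ)‖ ≤ 1
      rw [Complex.norm_real]; exact ha1 ξ
    · show ((a ξ : ℝ) : ℂ) = 0
      rw [haU ξ fun h => hξ (hUb (hρU h))]; rfl
  · obtain ⟨a, P, ham, ha1, haU, hav, hPd, hPa⟩ := hreal f hf
    rw [hav]
    exact near_part hU hUb hq hs0 hs1 hR0.le hL hρU hT ham ha1 haU ht0 ht1 htR (hPd.trans hm) hPa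

/-- the coefficient of the last term -/
theorem coef_le {q s : ℝ} (hq : 1 ≤ q) (hs0 : 0 < s) (hs1 : s ≤ 1 / 4) :
    (2 : ℝ≥0∞) ^ q * (2 ^ (q - 1) * (2 ^ (q - 1) * ENNReal.ofReal (2 * s ^ 2) ^ q)) ≤ 4⁻¹ := by
  have hq0 : 0 ≤ q := by linarith
  have e1 : (2 : ℝ≥0∞) ^ (q - 1) = 2 ^ q * 2⁻¹ := by
    rw [ENNReal.rpow_sub _ _ (by norm_num) (by norm_num), ENNReal.rpow_one]
    rfl
  have e2 : (2 : ℝ≥0∞) ^ q * (2 ^ (q - 1) * (2 ^ (q - 1) * ENNReal.ofReal (2 * s ^ 2) ^ q)) =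
      (2 * (2 * (2 * ENNReal.ofReal (2 * s ^ 2)))) ^ q * 4⁻¹ := by
    rw [e1, ENNReal.mul_rpow_of_nonneg _ _ hq0, ENNReal.mul_rpow_of_nonneg _ _ hq0,
      ENNReal.mul_rpow_of_nonneg _ _ hq0]
    have e3 : (4 : ℝ≥0∞)⁻¹ = 2⁻¹ * 2⁻¹ := by
      rw [← ENNReal.mul_inv (by norm_num) (by norm_num)]
      norm_num
    rw [e3]
    ring
  rw [e2]
  have e4 : (2 * (2 * (2 * ENNReal.ofReal (2 * s ^ 2))) : ℝ≥0∞) ≤ 1 := by
    rw [← ENNReal.ofReal_ofNat, ← ENNReal.ofReal_mul (by norm_num),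
      ← ENNReal.ofReal_mul (by norm_num), ← ENNReal.ofReal_mul (by norm_num), ← ENNReal.ofReal_one]
    refine ENNReal.ofReal_le_ofReal ?_
    nlinarith
  calc (2 * (2 * (2 * ENNReal.ofReal (2 * s ^ 2))) : ℝ≥0∞) ^ q * 4⁻¹ ≤ 1 * 4⁻¹ :=
        mul_le_mul' (ENNReal.rpow_le_one e4 hq0) le_rfl
    _ = 4⁻¹ := one_mul _

theorem iter_bound {F : ℝ → ℝ≥0∞} {A r₂ : ℝ} (hA : 0 ≤ A) {B T : ℝ≥0∞} (hT : ∀ ρ, F ρ ≤ T)
    (hF : ∀ ρ, ρ + A ≤ r₂ → F ρ ≤ B + 4⁻¹ * F (ρ + A)) (j : ℕ) :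
    ∀ ρ, ρ + j * A ≤ r₂ → F ρ ≤ 2 * B + 4⁻¹ ^ j * T := by
  induction j with
  | zero =>
    intro ρ _
    rw [pow_zero, one_mul]
    exact (hT ρ).trans le_add_self
  | succ j ih =>
    intro ρ hρ
    push_cast at hρ
    have hjA : 0 ≤ (j : ℝ) * A := by positivity
    have h1 := ih (ρ + A) (by linarith)
    calc F ρ ≤ B + 4⁻¹ * F (ρ + A) := hF ρ (by linarith)
      _ ≤ B + 4⁻¹ * (2 * B + 4⁻¹ ^ j * T) := by gcongr
      _ = (1 + 4⁻¹ * 2) * B + 4⁻¹ ^ (j + 1) * T := by rw [pow_succ]; ring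
      _ ≤ 2 * B + 4⁻¹ ^ (j + 1) * T := by
          gcongr
          have e1 : (4 : ℝ≥0∞)⁻¹ * 2 ≤ 1 := by
            have e2 : (4 : ℝ≥0∞) = 2 * 2 := by norm_num
            rw [e2, ENNReal.mul_inv (by norm_num) (by norm_num), mul_assoc,
              ENNReal.inv_mul_cancel (by norm_num) (by norm_num), mul_one]
            exact ENNReal.inv_le_one.2 (by norm_num)
          calc (1 : ℝ≥0∞) + 4⁻¹ * 2 ≤ 1 + 1 := by gcongr
            _ = 2 := one_add_one_eq_two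

/-- **From small polynomial phases to real functions, large radii.** -/
theorem poly_large {U : Set (E n)} (hU : MeasurableSet U) (hUb : U ⊆ ball 0 (1 / 2)) {x₀ : E n}
    {r : ℝ} (hr : 0 < r) (hrU : ball x₀ (2 * r) ⊆ U) {q τ c : ℝ} (hq : 1 ≤ q) (hτ : 0 ≤ τ)
    (hc : 0 < c) (h : PL n U c q τ) {δ : ℝ} (hδ : 0 < δ) :
    ∃ (C : ℝ≥0) (R₀ : ℝ), 1 ≤ R₀ ∧ ∀ R : ℝ, R₀ ≤ R →
      ∀ f, FRB x₀ r f → NN q (BB n R) f ≤ C * ENNReal.ofReal (R ^ ((1 + δ) * τ)) := by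
  obtain ⟨C, hC⟩ := h
  have hπ := Real.pi_pos
  have hπ3 := Real.pi_gt_three
  have hq0 : 0 < q := by linarith
  obtain ⟨s, hs0, hs1, hsc⟩ : ∃ s : ℝ, 0 < s ∧ s ≤ 1 / 4 ∧ 2 * s ≤ c :=
    ⟨min (c / 2) (1 / 4), lt_min (by positivity) (by norm_num), min_le_right _ _, by
      have := min_le_left (c / 2) (1 / 4 : ℝ); linarith⟩
  obtain ⟨R₁, hR₁, htail⟩ := ZZ_tail n hδ (2 * (volume : Measure (E n)).real (ball 0 (1 / 2)))
    (mul_nonneg (by norm_num) measureReal_nonneg)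
  obtain ⟨R₂, hR₂, htail2⟩ := tail_small n one_pos (Real.exp 1) (32 * Real.pi * r) (by positivity)
  -- the constant
  obtain ⟨M, hMt, hM⟩ : ∃ M : ℝ≥0∞, M ≠ ∞ ∧ ∀ R : ℝ, 1 ≤ R →
      2 * (2 ^ q * (2 ^ (q - 1) * (ENNReal.ofReal s⁻¹ ^ q * (C * ENNReal.ofReal
        ((4 * R ^ (1 + δ)) ^ τ)) + 2 ^ (q - 1) * S2 n q))) + S2 n q ≤
      M * ENNReal.ofReal (R ^ ((1 + δ) * τ)) := by
    refine ⟨2 * (2 ^ q * (2 ^ (q - 1) * (ENNReal.ofReal s⁻¹ ^ q * (C * ENNReal.ofReal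
        (4 ^ τ)) + 2 ^ (q - 1) * S2 n q))) + S2 n q, ?_, fun R hR => ?_⟩
    · have h2 : ∀ y : ℝ, (2 : ℝ≥0∞) ^ y ≠ ∞ := fun y =>
        ENNReal.rpow_ne_top_of_ne_zero (by norm_num) (by norm_num)
      refine ENNReal.add_ne_top.2 ⟨ENNReal.mul_ne_top (by norm_num) (ENNReal.mul_ne_top (h2 _)
        (ENNReal.mul_ne_top (h2 _) (ENNReal.add_ne_top.2 ⟨ENNReal.mul_ne_top
          (ENNReal.rpow_ne_top_of_nonneg hq0.le ENNReal.ofReal_ne_top)
          (ENNReal.mul_ne_top ENNReal.coe_ne_top ENNReal.ofReal_ne_top),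
          ENNReal.mul_ne_top (h2 _) (S2_ne_top hq0.le)⟩))), S2_ne_top hq0.le⟩
    · have hR0 : 0 ≤ R := by linarith
      have hRτ : 1 ≤ ENNReal.ofReal (R ^ ((1 + δ) * τ)) := by
        rw [← ENNReal.ofReal_one]
        exact ENNReal.ofReal_le_ofReal (Real.one_le_rpow hR (by positivity))
      have e1 : ENNReal.ofReal ((4 * R ^ (1 + δ)) ^ τ) =
          ENNReal.ofReal (4 ^ τ) * ENNReal.ofReal (R ^ ((1 + δ) * τ)) := by
        rw [← ENNReal.ofReal_mul (by positivity)]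
        congr 1
        rw [Real.mul_rpow (by norm_num) (by positivity), ← Real.rpow_mul hR0]
      rw [e1]
      generalize ENNReal.ofReal (R ^ ((1 + δ) * τ)) = Y at hRτ ⊢
      generalize S2 n q = S
      have hS : S ≤ S * Y := by
        calc S = S * 1 := (mul_one _).symm
          _ ≤ S * Y := mul_le_mul' le_rfl hRτ
      calc 2 * (2 ^ q * (2 ^ (q - 1) * (ENNReal.ofReal s⁻¹ ^ q * (C * (ENNReal.ofReal (4 ^ τ) *
              Y)) + 2 ^ (q - 1) * S))) + S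
          ≤ 2 * (2 ^ q * (2 ^ (q - 1) * (ENNReal.ofReal s⁻¹ ^ q * (C * (ENNReal.ofReal (4 ^ τ) *
              Y)) + 2 ^ (q - 1) * (S * Y)))) + S * Y := by
            refine add_le_add (mul_le_mul' le_rfl (mul_le_mul' le_rfl (mul_le_mul' le_rfl
              (add_le_add le_rfl (mul_le_mul' le_rfl hS))))) hS
        _ = _ := by ring
  refine ⟨M.toNNReal, max (max R₁ R₂) 1, le_max_right _ _, fun R hR f hf => ?_⟩
  rw [ENNReal.coe_toNNReal hMt]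
  have hRR₁ : R₁ ≤ R := (le_max_left _ _).trans ((le_max_left _ _).trans hR)
  have hRR₂ : R₂ ≤ R := (le_max_right _ _).trans ((le_max_left _ _).trans hR)
  have hR1 : 1 ≤ R := hR₁.trans hRR₁
  have hR0 : 0 < R := by linarith
  refine le_trans ?_ (hM R hR1)
  obtain ⟨A, hA⟩ : ∃ A : ℝ, A = 1 / (32 * Real.pi * R) := ⟨_, rfl⟩
  have hA0 : 0 < A := by rw [hA]; positivity
  obtain ⟨m, hm⟩ : ∃ m : ℕ, m = ⌈R ^ (1 + δ)⌉₊ := ⟨_, rfl⟩
  have hRδ1 : 1 ≤ R ^ (1 + δ) := Real.one_le_rpow hR1 (by linarith)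
  have hmle : R ^ (1 + δ) ≤ m := by rw [hm]; exact Nat.le_ceil _
  have hmge : (m : ℝ) ≤ 2 * R ^ (1 + δ) := by
    have := (Nat.ceil_lt_add_one (by positivity : 0 ≤ R ^ (1 + δ))).le
    rw [← hm] at this
    linarith
  have hRm : R ≤ m := by
    refine le_trans ?_ hmle
    calc R = R ^ (1 : ℝ) := (Real.rpow_one R).symm
      _ ≤ R ^ (1 + δ) := Real.rpow_le_rpow_of_exponent_le hR1 (by linarith)
  have hm1 : 1 ≤ m := by
    have : (1 : ℝ) ≤ m := hR1.trans hRm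
    exact_mod_cast this
  have htR := htail R hRR₁ m hmle
  rw [← hA] at htR
  have hRD : R ≤ ((2 * m : ℕ) : ℝ) := by push_cast; linarith
  have e7 : ENNReal.ofReal (((2 * m : ℕ) : ℝ) ^ τ) ≤
      ENNReal.ofReal ((4 * R ^ (1 + δ)) ^ τ) := by
    refine ENNReal.ofReal_le_ofReal (Real.rpow_le_rpow (by positivity) ?_ hτ)
    push_cast
    linarith
  obtain ⟨L, hLdef⟩ : ∃ L : ℝ≥0∞, L = C * ENNReal.ofReal ((4 * R ^ (1 + δ)) ^ τ) := ⟨_, rfl⟩
  rw [← hLdef]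
  have hL : ∀ P : MvPolynomial (Fin n) ℝ, P.totalDegree ≤ 2 * m →
      (∀ ξ ∈ U, |ev P ξ| ≤ 2 * s) → NN q (BB n R) (uni U (ev P) 1) ≤ L := fun P hP hPs => by
    have h3 := hC (2 * m) (by omega) P hP fun ξ hξ => (hPs ξ hξ).trans hsc
    rw [hLdef]
    exact (NN_mono q (closedBall_subset_closedBall hRD) _).trans
      (h3.trans (mul_le_mul' le_rfl e7))
  -- the iteration
  set F : ℝ → ℝ≥0∞ := fun ρ => ⨆ f : {f // FRB x₀ ρ f}, NN q (BB n R) f.1 with hFdef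
  have hFf : ∀ ρ f, FRB x₀ ρ f → NN q (BB n R) f ≤ F ρ := fun ρ f hf =>
    le_iSup (fun f : {f // FRB x₀ ρ f} => NN q (BB n R) f.1) ⟨f, hf⟩
  have hvol : volume (BB n R) = ENNReal.ofReal (R ^ (n + 1)) * volume (ball (0 : E n × ℝ) 1) := by
    rw [Measure.addHaar_closedBall _ _ hR0.le]
    have h1 : Module.finrank ℝ (E n × ℝ) = n + 1 := by
      rw [Module.finrank_prod, finrank_euclideanSpace, Fintype.card_fin, Module.finrank_self]
    rw [h1]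
  have hFT : ∀ ρ, F ρ ≤ S2 n q * ENNReal.ofReal (R ^ (n + 1)) := fun ρ => iSup_le fun f => by
    refine (NN_triv hq0.le _ _ (lint_le f.2.1.2.1 measurableSet_ball f.2.1.2.2.1)).trans
      (le_of_eq ?_)
    rw [hvol]
    unfold S2
    ring
  have hFs : ∀ ρ, ρ + A ≤ 2 * r → F ρ ≤
      2 ^ q * (2 ^ (q - 1) * (ENNReal.ofReal s⁻¹ ^ q * L + 2 ^ (q - 1) * S2 n q)) +
        4⁻¹ * F (ρ + A) := fun ρ hρ => iSup_le fun f => by
    refine (poly_step hU hUb hrU hq hs0 hs1 hR1 le_rfl hA hL htR hρ (hFf (ρ + A)) f.2).trans ?_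
    have h1 := coef_le hq hs0 hs1
    calc 2 ^ q * (2 ^ (q - 1) * (ENNReal.ofReal s⁻¹ ^ q * L + 2 ^ (q - 1) *
          (ENNReal.ofReal (2 * s ^ 2) ^ q * F (ρ + A) + S2 n q)))
        = 2 ^ q * (2 ^ (q - 1) * (ENNReal.ofReal s⁻¹ ^ q * L + 2 ^ (q - 1) * S2 n q)) +
          2 ^ q * (2 ^ (q - 1) * (2 ^ (q - 1) * ENNReal.ofReal (2 * s ^ 2) ^ q)) * F (ρ + A) := by
          ring
      _ ≤ _ := add_le_add le_rfl (mul_le_mul' h1 le_rfl)
  obtain ⟨k, hk⟩ : ∃ k : ℕ, k = ⌊r / A⌋₊ := ⟨_, rfl⟩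
  have hkA : r + k * A ≤ 2 * r := by
    have h1 : (k : ℝ) ≤ r / A := by rw [hk]; exact Nat.floor_le (by positivity)
    rw [le_div_iff₀ hA0] at h1
    linarith
  have hkge : 32 * Real.pi * r * R - 1 ≤ k := by
    have h1 : r / A < k + 1 := by rw [hk]; exact Nat.lt_floor_add_one _
    have h2 : r / A = 32 * Real.pi * r * R := by rw [hA]; field_simp
    linarith
  have h4k : (4⁻¹ : ℝ≥0∞) ^ k * ENNReal.ofReal (R ^ (n + 1)) ≤ 1 := by
    have e1 : (4⁻¹ : ℝ≥0∞) ^ k = ENNReal.ofReal ((4⁻¹ : ℝ) ^ k) := by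
      rw [ENNReal.ofReal_pow (by norm_num), ENNReal.ofReal_inv_of_pos (by norm_num),
        ENNReal.ofReal_ofNat]
    rw [e1, ← ENNReal.ofReal_mul (by positivity), ← ENNReal.ofReal_one]
    refine ENNReal.ofReal_le_ofReal (le_trans ?_ (htail2 R hRR₂))
    rw [Real.rpow_one]
    have e2 : (4⁻¹ : ℝ) ^ k ≤ Real.exp 1 * Real.exp (-(32 * Real.pi * r * R)) := by
      rw [← Real.exp_add]
      calc (4⁻¹ : ℝ) ^ k ≤ (Real.exp (-1)) ^ k := by
            gcongr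
            rw [Real.exp_neg]
            gcongr
            have := Real.exp_one_lt_d9
            linarith
        _ = Real.exp (-k) := by rw [← Real.exp_nat_mul]; congr 1; ring
        _ ≤ _ := by
            refine Real.exp_le_exp.2 ?_
            linarith
    have e3 : R ^ (n + 1) ≤ R ^ (2 * n + 1) := pow_le_pow_right₀ hR1 (by omega)
    calc (4⁻¹ : ℝ) ^ k * R ^ (n + 1) ≤
          Real.exp 1 * Real.exp (-(32 * Real.pi * r * R)) * R ^ (2 * n + 1) := by gcongr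
      _ = _ := by ring
  refine (hFf r f hf).trans ((iter_bound hA0.le hFT hFs k r hkA).trans
    (add_le_add le_rfl ?_))
  calc (4⁻¹ : ℝ≥0∞) ^ k * (S2 n q * ENNReal.ofReal (R ^ (n + 1)))
      = S2 n q * (4⁻¹ ^ k * ENNReal.ofReal (R ^ (n + 1))) := by ring
    _ ≤ S2 n q * 1 := mul_le_mul' le_rfl h4k
    _ = S2 n q := mul_one _

end Pool.Agent.H222.ER
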