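import Pool.Agent.H222.ER.PolyD

/-!
Small polynomial phases decide the growth of the local estimates.
-/

open MeasureTheory Set Filter Metric
open scoped ENNReal NNReal Topology

namespace Pool.Agent.H222.ER

open Pool.Agent.Helper184.PH

variable {n : ℕ}

/-- all radii, functions on a small ball -/
theorem poly_all {U : Set (E n)} (hU : MeasurableSet U) (hUb : U ⊆ ball 0 (1 / 2)) {x₀ : E n}
    {r : ℝ} (hr : 0 < r) (hrU : ball x₀ (2 * r) ⊆ U) {q τ c : ℝ} (hq : 1 ≤ q) (hτ : 0 ≤ τ)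
    (hc : 0 < c) (h : PL n U c q τ) {δ : ℝ} (hδ : 0 < δ) :
    ∃ C : ℝ≥0, ∀ R : ℝ, 1 ≤ R →
      ∀ f, FRB x₀ r f → NN q (BB n R) f ≤ C * ENNReal.ofReal (R ^ ((1 + δ) * τ)) := by
  obtain ⟨C, R₀, hR₀, hC⟩ := poly_large hU hUb hr hrU hq hτ hc h hδ
  have hKt : (C * ENNReal.ofReal (R₀ ^ ((1 + δ) * τ)) : ℝ≥0∞) ≠ ∞ :=
    ENNReal.mul_ne_top ENNReal.coe_ne_top ENNReal.ofReal_ne_top
  refine ⟨(C * ENNReal.ofReal (R₀ ^ ((1 + δ) * τ)) : ℝ≥0∞).toNNReal, fun R hR f hf => ?_⟩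
  rw [ENNReal.coe_toNNReal hKt]
  have h1 : R ≤ R₀ * R := by nlinarith
  have h2 : R₀ ≤ R₀ * R := by nlinarith
  refine (NN_mono q (closedBall_subset_closedBall h1) f).trans ((hC _ h2 f hf).trans
    (le_of_eq ?_))
  rw [Real.mul_rpow (by linarith) (by linarith), ENNReal.ofReal_mul (by positivity)]
  ring

/-- **From small polynomial phases to bounded functions on the cube.** -/
theorem Est_of_PL {U : Set (E n)} (hU : MeasurableSet U) (hUb : U ⊆ ball 0 (1 / 2))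
    (hUi : (interior U).Nonempty) {q τ c : ℝ} (hq : 1 ≤ q) (hτ : 0 ≤ τ) (hc : 0 < c)
    (h : PL n U c q τ) {δ : ℝ} (hδ : 0 < δ) : Est n q ((1 + δ) * τ) := by
  obtain ⟨x₀, hx₀⟩ := hUi
  obtain ⟨r', hr', hrU'⟩ := Metric.isOpen_iff.1 isOpen_interior x₀ hx₀
  obtain ⟨r, hr⟩ : ∃ r : ℝ, r = r' / 2 := ⟨_, rfl⟩
  have hr0 : 0 < r := by rw [hr]; positivity
  have hrU : ball x₀ (2 * r) ⊆ U := by
    rw [hr, mul_div_cancel₀ _ two_ne_zero]
    exact hrU'.trans interior_subset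
  have hx₀n : ‖-x₀‖ ≤ 1 := by
    rw [norm_neg]
    have := mem_ball_zero_iff.1 (hUb (interior_subset hx₀))
    linarith
  obtain ⟨C, hC⟩ := poly_all hU hUb hr0 hrU hq hτ hc h hδ
  have hq0 : 0 ≤ q := by linarith
  have hl0 : 0 < (2 * r)⁻¹ := by positivity
  obtain ⟨K, hKt, hK⟩ := NN_dil (n := n) (q := q) (l := (2 * r)⁻¹) hq0 hl0
  obtain ⟨b, hb⟩ : ∃ b : ℝ, b = 3 * (1 + (2 * r)⁻¹) ^ 2 := ⟨_, rfl⟩
  have hb1 : 1 ≤ b := by
    rw [hb]
    have h1 : (1 : ℝ) ≤ (1 + (2 * r)⁻¹) ^ 2 := one_le_pow₀ (by linarith)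
    linarith
  have hb0 : 0 ≤ b := by linarith
  have hMt : (K * (C * ENNReal.ofReal (b ^ ((1 + δ) * τ))) : ℝ≥0∞) ≠ ∞ :=
    ENNReal.mul_ne_top hKt (ENNReal.mul_ne_top ENNReal.coe_ne_top ENNReal.ofReal_ne_top)
  refine est_of_FR hq ⟨(K * (C * ENNReal.ofReal (b ^ ((1 + δ) * τ))) : ℝ≥0∞).toNNReal,
    fun R hR f hf => ?_⟩
  rw [ENNReal.coe_toNNReal hMt]
  have hR0 : 0 ≤ R := by linarith
  -- compression
  obtain ⟨g, hg⟩ : ∃ g : E n → ℂ, g = fun ξ => f ((2 * r)⁻¹ • ξ) := ⟨_, rfl⟩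
  have hgm : Measurable g := by rw [hg]; exact hf.1.comp (measurable_const_smul _)
  have hg1 : ∀ ξ, ‖g ξ‖ ≤ 1 := fun ξ => by rw [hg]; exact hf.2.1 _
  have hg0 : ∀ ξ, ξ ∉ ball (0 : E n) r → g ξ = 0 := fun ξ hξ => by
    rw [hg]
    refine hf.2.2.1 _ fun h => hξ ?_
    rw [mem_ball_zero_iff] at h ⊢
    rw [norm_smul, Real.norm_of_nonneg hl0.le] at h
    calc ‖ξ‖ = (2 * r) * ((2 * r)⁻¹ * ‖ξ‖) := by field_simp
      _ < (2 * r) * (1 / 2) := by gcongr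
      _ = r := by ring
  have hgi : Integrable g := integrable_of_bdd hgm hg1 hg0
  have hgim : ∀ ξ, (g ξ).im = 0 := fun ξ => by rw [hg]; exact hf.2.2.2 _
  have h1 := hK g hgi (BB n R) (BB n ((1 + (2 * r)⁻¹) ^ 2 * R)) (BB_meas _) (BB_meas _)
    fun x hx => dil_mem hl0 hx
  have e1 : (fun ξ => g (((2 * r)⁻¹)⁻¹ • ξ)) = f := by
    funext ξ
    rw [hg]
    simp only
    rw [smul_smul, mul_inv_cancel₀ hl0.ne', one_smul]
  rw [e1] at h1
  -- translation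
  obtain ⟨h, hh⟩ : ∃ h : E n → ℂ, h = fun ξ => g (ξ - x₀) := ⟨_, rfl⟩
  have hhm : Measurable h := by rw [hh]; exact hgm.comp (measurable_sub_const _)
  have hh1 : ∀ ξ, ‖h ξ‖ ≤ 1 := fun ξ => by rw [hh]; exact hg1 _
  have hhx : ∀ ξ, ξ ∉ ball x₀ r → h ξ = 0 := fun ξ hξ => by
    rw [hh]
    refine hg0 _ fun h => hξ ?_
    rw [mem_ball_zero_iff] at h
    rw [mem_ball, dist_eq_norm]
    exact h
  have hsub : ball x₀ r ⊆ ball (0 : E n) (1 / 2) :=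
    (ball_subset_ball (by linarith)).trans (hrU.trans hUb)
  have hFRB : FRB x₀ r h := by
    refine ⟨⟨hhm, hh1, fun ξ hξ => hhx ξ fun h => hξ (hsub h), fun ξ => ?_⟩, hhx⟩
    rw [hh]; exact hgim _
  have hx₀n' : ‖x₀‖ ≤ 1 := by rwa [norm_neg] at hx₀n
  have h2 := NN_shift q hgi hx₀n' (R := (1 + (2 * r)⁻¹) ^ 2 * R) (by positivity)
  rw [← hh] at h2
  have e3 : 3 * ((1 + (2 * r)⁻¹) ^ 2 * R) = b * R := by rw [hb]; ring
  rw [e3] at h2
  have h3 := hC (b * R) (one_le_mul_of_one_le_of_one_le hb1 hR) h hFRB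
  refine h1.trans ((mul_le_mul' le_rfl (h2.trans h3)).trans (le_of_eq ?_))
  rw [Real.mul_rpow hb0 hR0, ENNReal.ofReal_mul (by positivity)]
  ring

/-- from bounded functions on the cube to polynomial phases -/
theorem PL_of_Est {U : Set (E n)} (hU : MeasurableSet U) (hUb : U ⊆ ball 0 (1 / 2)) {q τ : ℝ}
    (c : ℝ) (h : Est n q τ) : PL n U c q τ := by
  obtain ⟨C, hC⟩ := h
  refine ⟨C, fun D hD P _ _ => ?_⟩
  have h1 := hC (uni U (ev P) 1) (uni_meas hU (ev_cont P).measurable 1) (uni_le _ _ _) D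
    (by exact_mod_cast hD)
  have h2 : (cube n).indicator (uni U (ev P) 1) = uni U (ev P) 1 := by
    funext ξ
    by_cases hξ : ξ ∈ cube n
    · rw [indicator_of_mem hξ]
    · rw [indicator_of_notMem hξ]
      unfold uni
      rw [indicator_of_notMem fun h => hξ (ball_sub_cube ?_)]
      have := mem_ball_zero_iff.1 (hUb h)
      linarith
  unfold J at h1
  rw [TP_eq, h2] at h1
  exact h1

/-- growth exponents -/
theorem exponents {U : Set (E n)} (hU : MeasurableSet U) (hUb : U ⊆ ball 0 (1 / 2))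
    (hUi : (interior U).Nonempty) {q c : ℝ} (hq : 1 ≤ q) (hc : 0 < c) {σ : ℝ} (hσ : 0 ≤ σ) :
    (∀ ε : ℝ, 0 < ε → Est n q (σ + ε)) ↔ ∀ ε : ℝ, 0 < ε → PL n U c q (σ + ε) := by
  constructor
  · exact fun h ε hε => PL_of_Est hU hUb c (h ε hε)
  · intro h ε hε
    have h1 := h (ε / 2) (by positivity)
    have hpos : 0 < σ + ε / 2 := by positivity
    have h2 := Est_of_PL hU hUb hUi hq hpos.le hc h1 (δ := ε / 2 / (σ + ε / 2)) (by positivity)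
    have e1 : (1 + ε / 2 / (σ + ε / 2)) * (σ + ε / 2) = σ + ε := by
      field_simp; ring
    rwa [e1] at h2

end Pool.Agent.H222.ER
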