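import Pool.Agent.H222.ER.Greedy

/-!
The restricted local estimate.
-/

open MeasureTheory Set Filter Metric
open scoped ENNReal NNReal Topology

namespace Pool.Agent.H222.ER

open Pool.Agent.Helper184.PH

variable {n : ℕ}

theorem restricted {p : ℝ} (hp : 2 ≤ p) (hL : HL n p 3) {ε : ℝ} (hε0 : 0 < ε) (hε1 : ε < 1) :
    ∃ C : ℝ≥0∞, C ≠ ∞ ∧ ∀ R : ℝ≥0, 1 ≤ R → ∀ A : Set (E n), MeasurableSet A →
      A ⊆ ball (0 : E n) 2 → ∀ a : ℝ≥0, 0 < a → a ≤ 1 → volume A ≤ a →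
      ∀ f : E n → ℂ, Measurable f → (∀ x, ‖f x‖ ≤ 1) → (∀ x, x ∉ A → f x = 0) →
        NN p (BB n R) f ≤ C * (R : ℝ≥0∞) ^ ε * (a : ℝ≥0∞) ^ (1 - ε) := by
  have hp0 : 0 < p := by linarith
  set θ : ℝ := ε / (2 * ((n : ℝ) + 1)) with hθ
  have hn1 : (1 : ℝ) ≤ (n : ℝ) + 1 := by linarith [(Nat.cast_nonneg n : (0 : ℝ) ≤ n)]
  have hθ0 : 0 < θ := by positivity
  have hθ1 : θ ≤ 1 := by
    rw [hθ, div_le_one (by positivity)]
    linarith
  have hθn : θ * ((n : ℝ) + 1) = ε / 2 := by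
    rw [hθ]; field_simp
  obtain ⟨C₁, hC₁⟩ := hL (ε / 2) (by linarith)
  obtain ⟨M, hM⟩ := exists_nat_ge (1 / (ε * θ))
  have hMpos : (0 : ℝ) < M := lt_of_lt_of_le (by positivity) hM
  have hMe : 0 ≤ ε * M * θ - 1 := by
    rw [div_le_iff₀ (by positivity)] at hM
    linarith
  have hb0 : volume (ball (0 : E n) 1) ≠ 0 := (measure_ball_pos _ _ one_pos).ne'
  have hbt : volume (ball (0 : E n) 1) ≠ ∞ := measure_ball_lt_top.ne
  set c : ℝ := ((volume (ball (0 : E n) 1))⁻¹).toReal with hc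
  have hc0 : 0 ≤ c := ENNReal.toReal_nonneg
  have hcc : (volume (ball (0 : E n) 1))⁻¹ = ENNReal.ofReal c :=
    (ENNReal.ofReal_toReal (ENNReal.inv_ne_top.2 hb0)).symm
  set W : ℝ≥0∞ := ENNReal.ofReal (Real.exp (2 * c)) * volume (ball (0 : E n) 3) with hW
  have hWt : W ≠ ∞ := ENNReal.mul_ne_top ENNReal.ofReal_ne_top measure_ball_lt_top.ne
  set V : ℝ≥0∞ := volume (ball (0 : E n × ℝ) 1) with hV
  have hVt : V ≠ ∞ := measure_ball_lt_top.ne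
  set D₁ : ℝ≥0∞ := ENNReal.ofReal M ^ p * (C₁ * 3 ^ (ε / 2)) with hD₁
  set D₂ : ℝ≥0∞ := 2 ^ p * (W ^ p) ^ θ * (3 ^ ((n : ℝ) + 1) * V) ^ θ *
    (C₁ * 3 ^ (ε / 2)) ^ (1 - θ) with hD₂
  have hC3 : (C₁ : ℝ≥0∞) * 3 ^ (ε / 2) ≠ ∞ := ENNReal.mul_ne_top ENNReal.coe_ne_top (by simp)
  have hD₁t : D₁ ≠ ∞ := ENNReal.mul_ne_top
    (ENNReal.rpow_ne_top_of_nonneg hp0.le ENNReal.ofReal_ne_top) hC3
  have hD₂t : D₂ ≠ ∞ := by
    refine ENNReal.mul_ne_top (ENNReal.mul_ne_top (ENNReal.mul_ne_top (by simp) ?_) ?_) ?_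
    · exact ENNReal.rpow_ne_top_of_nonneg hθ0.le (ENNReal.rpow_ne_top_of_nonneg hp0.le hWt)
    · exact ENNReal.rpow_ne_top_of_nonneg hθ0.le (ENNReal.mul_ne_top (by simp) hVt)
    · exact ENNReal.rpow_ne_top_of_nonneg (by linarith) hC3
  set D : ℝ≥0∞ := 2 ^ (p - 1) * (D₁ + D₂) with hD
  have hDt : D ≠ ∞ := ENNReal.mul_ne_top (by simp) (ENNReal.add_ne_top.2 ⟨hD₁t, hD₂t⟩)
  refine ⟨D, hDt, fun R hR A hA hAb a ha0 ha1 hAa f hf hf1 hfA => ?_⟩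
  have ha0' : (a : ℝ≥0∞) ≠ 0 := by exact_mod_cast ha0.ne'
  have hat : (a : ℝ≥0∞) ≠ ∞ := ENNReal.coe_ne_top
  have har : (0 : ℝ) < a := ha0
  have har1 : (a : ℝ) ≤ 1 := ha1
  have hR1 : (1 : ℝ≥0∞) ≤ R := by exact_mod_cast hR
  have hR0' : (R : ℝ≥0∞) ≠ 0 := (lt_of_lt_of_le one_pos hR1).ne'
  have hRt : (R : ℝ≥0∞) ≠ ∞ := ENNReal.coe_ne_top
  set t : ℝ≥0 := a ^ (-ε) with ht
  have ht1 : 1 ≤ t := by
    apply NNReal.coe_le_coe.1
    rw [ht, NNReal.coe_rpow, NNReal.coe_one]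
    exact Real.one_le_rpow_of_pos_of_le_one_of_nonpos har har1 (by linarith)
  set κ : ℝ := (a : ℝ) ^ (-(1 - ε)) with hκ
  have hκ1 : 1 ≤ κ := Real.one_le_rpow_of_pos_of_le_one_of_nonpos har har1 (by linarith)
  set K : ℕ := ⌈κ⌉₊ with hK
  have hKκ : κ ≤ K := Nat.le_ceil κ
  have hK2 : (K : ℝ) ≤ 2 * κ := by
    have := Nat.ceil_lt_add_one (by linarith : 0 ≤ κ)
    linarith
  have hK1 : (1 : ℝ) ≤ K := hκ1.trans hKκ
  have hK0 : (0 : ℝ) < K := by linarith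
  have hκa : κ ≤ (a : ℝ)⁻¹ := by
    rw [hκ, ← Real.rpow_neg_one]
    exact Real.rpow_le_rpow_of_exponent_ge har har1 (by linarith)
  obtain ⟨F, N, hF, hN, hFN, hNK, hN0, hint, hKF⟩ :=
    greedy hp R.coe_nonneg hA hAb hf hf1 hfA (t := t) K
  set B : Set (E n × ℝ) := BB n (3 * (R : ℝ)) with hB
  have hBC : ∀ g : E n → ℂ, Measurable g → (∀ ξ, ‖g ξ‖ ≤ 1) →
      (∀ ξ, ξ ∉ ball (0 : E n) 3 → g ξ = 0) → NN p B g ≤ C₁ * 3 ^ (ε / 2) * (R : ℝ≥0∞) ^ (ε / 2) := by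
    intro g hg hg1 hg0
    have h1 := hC₁ (3 * R) (le_trans hR (by
      have : (1 : ℝ≥0) * R ≤ 3 * R := by gcongr; norm_num
      rwa [one_mul] at this)) g hg hg1 hg0
    rw [ENNReal.coe_mul, ENNReal.mul_rpow_of_nonneg _ _ (by linarith), ← mul_assoc] at h1
    exact h1
  -- the size of the potential
  have hpot : (∫⁻ x in ball (0 : E n) 3, (t : ℝ≥0∞) ^ (N x)) ≤ W := by
    refine hint.trans ?_
    rw [hW]
    gcongr
    have e1 : (1 : ℝ≥0∞) + t * ((volume (ball (0 : E n) 1))⁻¹ * volume A) ≤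
        ENNReal.ofReal (1 + t * (c * a)) := by
      rw [hcc, ENNReal.ofReal_add zero_le_one (by positivity), ENNReal.ofReal_one,
        ENNReal.ofReal_mul (by positivity), ENNReal.ofReal_mul hc0, ENNReal.ofReal_coe_nnreal,
        ENNReal.ofReal_coe_nnreal]
      gcongr
    refine (pow_le_pow_left₀ (by positivity) e1 K).trans ?_
    rw [← ENNReal.ofReal_pow (by positivity)]
    apply ENNReal.ofReal_le_ofReal
    refine exp_bound (by positivity) ?_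
    have e2 : (t : ℝ) * a = (a : ℝ) ^ (1 - ε) := by
      rw [ht, NNReal.coe_rpow]
      nth_rewrite 2 [← Real.rpow_one (a : ℝ)]
      rw [← Real.rpow_add har]
      congr 1; ring
    have e3 : κ * (a : ℝ) ^ (1 - ε) = 1 := by
      rw [hκ, ← Real.rpow_add har]; simp
    calc (K : ℝ) * (t * (c * a)) = c * (K * (t * a)) := by ring
      _ ≤ c * (2 * κ * (t * a)) := by gcongr
      _ = 2 * c := by rw [e2, mul_assoc, e3]; ring
  -- the part of high multiplicity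
  set S : Set (E n) := {x | M ≤ N x} with hS
  have hSm : MeasurableSet S := hN measurableSet_Ici
  set G : E n → ℂ := S.indicator F with hG
  set H : E n → ℂ := Sᶜ.indicator F with hH
  have hGm : Measurable G := hF.indicator hSm
  have hHm : Measurable H := hF.indicator hSm.compl
  have hF0 : ∀ x, x ∉ ball (0 : E n) 3 → F x = 0 := fun x hx => by
    have h1 := hFN x
    rw [hN0 x hx] at h1
    simpa using h1
  have hFK : ∀ x, ‖F x‖ ≤ K := fun x => (hFN x).trans (by exact_mod_cast hNK x)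
  have hG0 : ∀ x, x ∉ ball (0 : E n) 3 → G x = 0 := fun x hx => by
    rw [hG]; exact indicator_apply_eq_zero.2 fun _ => hF0 x hx
  have hH0 : ∀ x, x ∉ ball (0 : E n) 3 → H x = 0 := fun x hx => by
    rw [hH]; exact indicator_apply_eq_zero.2 fun _ => hF0 x hx
  have hGK : ∀ x, ‖G x‖ ≤ K := fun x => by
    rw [hG]; exact (norm_indicator_le_norm_self _ _).trans (hFK x)
  have hHM : ∀ x, ‖H x‖ ≤ M := fun x => by
    by_cases hx : x ∈ S
    · rw [hH, indicator_of_notMem (by simpa using hx)]; simp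
    · rw [hH, indicator_of_mem (by simpa using hx)]
      have h1 : N x < M := not_le.1 hx
      exact (hFN x).trans (by exact_mod_cast h1.le)
  have hGi : Integrable G := integrable_of_bdd hGm hGK hG0
  have hHi : Integrable H := integrable_of_bdd hHm hHM hH0
  have hsum : F = fun x => H x + G x := by
    funext x
    by_cases hx : x ∈ S
    · rw [hG, hH, indicator_of_notMem (by simpa using hx), indicator_of_mem hx, zero_add]
    · rw [hG, hH, indicator_of_mem (by simpa using hx), indicator_of_notMem hx, add_zero]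
  have hs : (a : ℝ≥0∞) ^ (ε * M) * (t : ℝ≥0∞) ^ M = 1 := by
    rw [ht, ENNReal.coe_rpow_of_ne_zero ha0.ne', ← ENNReal.rpow_natCast, ← ENNReal.rpow_mul,
      ← ENNReal.rpow_add _ _ ha0' hat]
    simp
  have hKa : (K : ℝ≥0∞) ≤ 2 * (a : ℝ≥0∞)⁻¹ := by
    rw [← ENNReal.coe_inv ha0.ne']
    have : (K : ℝ≥0) ≤ 2 * a⁻¹ := by
      apply NNReal.coe_le_coe.1
      push_cast
      nlinarith
    exact_mod_cast this
  have hG1 : ∫⁻ x, ‖G x‖ₑ ≤ K * (a : ℝ≥0∞) ^ (ε * M) * W := by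
    have e1 : ∀ x, ‖G x‖ₑ ≤ (ball (0 : E n) 3).indicator (fun x =>
        K * (a : ℝ≥0∞) ^ (ε * M) * (t : ℝ≥0∞) ^ (N x)) x := fun x => by
      by_cases hx : x ∈ ball (0 : E n) 3
      · rw [indicator_of_mem hx]
        by_cases hxS : x ∈ S
        · have e2 : ‖G x‖ₑ ≤ K := by
            rw [← ofReal_norm, ← ENNReal.ofReal_natCast]
            exact ENNReal.ofReal_le_ofReal (hGK x)
          refine e2.trans ?_
          calc (K : ℝ≥0∞) = K * ((a : ℝ≥0∞) ^ (ε * M) * (t : ℝ≥0∞) ^ M) := by rw [hs, mul_one]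
            _ ≤ K * ((a : ℝ≥0∞) ^ (ε * M) * (t : ℝ≥0∞) ^ (N x)) := by
                have ht1' : (1 : ℝ≥0∞) ≤ t := by exact_mod_cast ht1
                gcongr
                exact hxS
            _ = _ := by ring
        · rw [hG, indicator_of_notMem hxS]; simp
      · rw [hG0 x hx]; simp
    refine (lintegral_mono e1).trans ?_
    rw [lintegral_indicator measurableSet_ball, lintegral_const_mul' _ _
      (ENNReal.mul_ne_top (ENNReal.natCast_ne_top K) (ENNReal.rpow_ne_top_of_nonneg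
        (by positivity) hat))]
    gcongr
  have hNG : NN p B G ≤ D₂ * (R : ℝ≥0∞) ^ ε := by
    have e1 := NN_triv hp0.le B G hG1
    have e2 := LI_scale hp0.le hBC hK0 hGm hGK hG0
    rw [ENNReal.ofReal_natCast] at e2
    have e3 : volume B = 3 ^ ((n : ℝ) + 1) * (R : ℝ≥0∞) ^ ((n : ℝ) + 1) * V := by
      have h4 : B = BB n ((3 * R : ℝ≥0) : ℝ) := by rw [hB]; push_cast; rfl
      rw [h4, vol_BB, ENNReal.coe_mul, ENNReal.mul_rpow_of_nonneg _ _ (by linarith)]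
      rfl
    rw [e3] at e1
    refine (le_geom hθ0.le hθ1 e1 e2).trans ?_
    have hpow : ∀ (x y z : ℝ≥0∞), (x * y * z) ^ p = x ^ p * y ^ p * z ^ p := fun x y z => by
      rw [ENNReal.mul_rpow_of_nonneg _ _ hp0.le, ENNReal.mul_rpow_of_nonneg _ _ hp0.le]
    calc ((K * (a : ℝ≥0∞) ^ (ε * M) * W) ^ p * (3 ^ ((n : ℝ) + 1) * (R : ℝ≥0∞) ^ ((n : ℝ) + 1) * V)) ^ θ *
          ((K : ℝ≥0∞) ^ p * (C₁ * 3 ^ (ε / 2) * (R : ℝ≥0∞) ^ (ε / 2))) ^ (1 - θ)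
        = (K : ℝ≥0∞) ^ p * (a : ℝ≥0∞) ^ (ε * M * p * θ) * ((W ^ p) ^ θ *
            (3 ^ ((n : ℝ) + 1) * V) ^ θ * (C₁ * 3 ^ (ε / 2)) ^ (1 - θ)) *
            (R : ℝ≥0∞) ^ (((n : ℝ) + 1) * θ + ε / 2 * (1 - θ)) := by
          have hθ1' : 0 ≤ 1 - θ := by linarith
          rw [hpow, ENNReal.mul_rpow_of_nonneg _ _ hθ0.le, ENNReal.mul_rpow_of_nonneg _ _ hθ0.le,
            ENNReal.mul_rpow_of_nonneg _ _ hθ0.le,
            show (3 : ℝ≥0∞) ^ ((n : ℝ) + 1) * (R : ℝ≥0∞) ^ ((n : ℝ) + 1) * V =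
              (3 ^ ((n : ℝ) + 1) * V) * (R : ℝ≥0∞) ^ ((n : ℝ) + 1) by ring,
            ENNReal.mul_rpow_of_nonneg _ _ hθ0.le, ENNReal.mul_rpow_of_nonneg _ _ hθ1',
            ENNReal.mul_rpow_of_nonneg _ _ hθ1', ← ENNReal.rpow_mul (a : ℝ≥0∞),
            ← ENNReal.rpow_mul (a : ℝ≥0∞), ← ENNReal.rpow_mul (R : ℝ≥0∞),
            ← ENNReal.rpow_mul (R : ℝ≥0∞), ENNReal.rpow_add _ _ hR0' hRt]
          have hKK : ((K : ℝ≥0∞) ^ p) ^ θ * ((K : ℝ≥0∞) ^ p) ^ (1 - θ) = (K : ℝ≥0∞) ^ p := by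
            rw [← ENNReal.rpow_add_of_nonneg _ _ hθ0.le hθ1', add_sub_cancel, ENNReal.rpow_one]
          calc _ = (((K : ℝ≥0∞) ^ p) ^ θ * ((K : ℝ≥0∞) ^ p) ^ (1 - θ)) *
                (a : ℝ≥0∞) ^ (ε * M * p * θ) * ((W ^ p) ^ θ *
            (3 ^ ((n : ℝ) + 1) * V) ^ θ * (C₁ * 3 ^ (ε / 2)) ^ (1 - θ)) *
              ((R : ℝ≥0∞) ^ (((n : ℝ) + 1) * θ) * (R : ℝ≥0∞) ^ (ε / 2 * (1 - θ))) := by ring
            _ = _ := by rw [hKK]
      _ ≤ (2 * (a : ℝ≥0∞)⁻¹) ^ p * (a : ℝ≥0∞) ^ (ε * M * p * θ) * ((W ^ p) ^ θ *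
            (3 ^ ((n : ℝ) + 1) * V) ^ θ * (C₁ * 3 ^ (ε / 2)) ^ (1 - θ)) * (R : ℝ≥0∞) ^ ε := by
          gcongr
          have : ε / 2 * (1 - θ) ≤ ε / 2 := by nlinarith
          linarith
      _ = D₂ * (R : ℝ≥0∞) ^ ε * (a : ℝ≥0∞) ^ (p * (ε * M * θ - 1)) := by
          rw [ENNReal.mul_rpow_of_nonneg _ _ hp0.le, ← ENNReal.rpow_neg_one, ← ENNReal.rpow_mul]
          have h5 : (a : ℝ≥0∞) ^ (-1 * p) * (a : ℝ≥0∞) ^ (ε * M * p * θ) =
              (a : ℝ≥0∞) ^ (p * (ε * M * θ - 1)) := by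
            rw [← ENNReal.rpow_add _ _ ha0' hat]
            congr 1; ring
          calc _ = (2 : ℝ≥0∞) ^ p * ((a : ℝ≥0∞) ^ (-1 * p) * (a : ℝ≥0∞) ^ (ε * M * p * θ)) *
                ((W ^ p) ^ θ * (3 ^ ((n : ℝ) + 1) * V) ^ θ * (C₁ * 3 ^ (ε / 2)) ^ (1 - θ)) *
                (R : ℝ≥0∞) ^ ε := by ring
            _ = _ := by rw [h5, hD₂]; ring
      _ ≤ D₂ * (R : ℝ≥0∞) ^ ε * 1 := by
          gcongr
          exact ENNReal.rpow_le_one (by exact_mod_cast ha1) (mul_nonneg hp0.le hMe)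
      _ = _ := mul_one _
  have hNH : NN p B H ≤ D₁ * (R : ℝ≥0∞) ^ ε := by
    refine (LI_scale hp0.le hBC hMpos hHm hHM hH0).trans ?_
    rw [hD₁]
    calc ENNReal.ofReal M ^ p * (C₁ * 3 ^ (ε / 2) * (R : ℝ≥0∞) ^ (ε / 2))
        = ENNReal.ofReal M ^ p * (C₁ * 3 ^ (ε / 2)) * (R : ℝ≥0∞) ^ (ε / 2) := by ring
      _ ≤ _ := by
          gcongr
          linarith
  have hNF : NN p B F ≤ D * (R : ℝ≥0∞) ^ ε := by
    rw [hsum]
    refine (NN_add' (by linarith) B hHi hGi).trans ?_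
    rw [hD, mul_assoc, add_mul]
    gcongr
  have hKinv : (K : ℝ≥0∞)⁻¹ ≤ (a : ℝ≥0∞) ^ (1 - ε) := by
    have e1 : (a : ℝ≥0∞) ^ (-(1 - ε)) ≤ K := by
      rw [← ENNReal.coe_rpow_of_ne_zero ha0.ne']
      have : a ^ (-(1 - ε)) ≤ (K : ℝ≥0) := by
        apply NNReal.coe_le_coe.1
        rw [NNReal.coe_rpow]
        exact hKκ
      exact_mod_cast this
    rw [ENNReal.rpow_neg] at e1
    exact ENNReal.inv_le_iff_inv_le.2 e1
  have hKne : (K : ℝ≥0∞) ≠ 0 := by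
    have : K ≠ 0 := by
      intro h
      rw [h] at hK0
      simp at hK0
    exact_mod_cast this
  calc NN p (BB n R) f = (K : ℝ≥0∞)⁻¹ * (K * NN p (BB n R) f) := by
        rw [← mul_assoc, ENNReal.inv_mul_cancel hKne (ENNReal.natCast_ne_top K), one_mul]
    _ ≤ (a : ℝ≥0∞) ^ (1 - ε) * (D * (R : ℝ≥0∞) ^ ε) := mul_le_mul' hKinv (hKF.trans hNF)
    _ = D * (R : ℝ≥0∞) ^ ε * (a : ℝ≥0∞) ^ (1 - ε) := mul_comm _ _

end Pool.Agent.H222.ER
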