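import Pool.Agent.H222.ER.Disc

/-!
Local norms of series, and comparison of a function with its averages over small translations.
-/

open MeasureTheory Set Filter Metric
open scoped ENNReal NNReal Topology

namespace Pool.Agent.H222.ER

open Pool.Agent.Helper184.PH

variable {n : ℕ}

theorem tsum_pow {ι : Type*} (w a : ι → ℝ≥0∞) {p : ℝ} (hp : 1 ≤ p) :
    (∑' i, w i * a i) ^ p ≤ (∑' i, w i) ^ (p - 1) * ∑' i, w i * a i ^ p := by
  have hp0 : 0 < p := by linarith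
  set B : ℝ≥0∞ := (∑' i, w i) ^ (p - 1) * ∑' i, w i * a i ^ p with hB
  have h1 : ∑' i, w i * a i ≤ B ^ (1 / p) := by
    rw [ENNReal.tsum_eq_iSup_sum]
    refine iSup_le fun s => ?_
    refine (ENNReal.inner_le_weight_mul_Lp_of_nonneg s hp w a).trans ?_
    rw [hB, ENNReal.mul_rpow_of_nonneg _ _ (by positivity), ← ENNReal.rpow_mul, ← one_div]
    have e1 : (p - 1) * (1 / p) = 1 - 1 / p := by field_simp
    have e2 : 1 / p ≤ 1 := by rw [div_le_one hp0]; exact hp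
    rw [e1]
    exact mul_le_mul' (ENNReal.rpow_le_rpow (ENNReal.sum_le_tsum s) (by linarith))
      (ENNReal.rpow_le_rpow (ENNReal.sum_le_tsum s) (by positivity))
  calc (∑' i, w i * a i) ^ p ≤ (B ^ (1 / p)) ^ p := ENNReal.rpow_le_rpow h1 hp0.le
    _ = B := by rw [← ENNReal.rpow_mul, one_div, inv_mul_cancel₀ hp0.ne', ENNReal.rpow_one]

/-- local norms of series -/
theorem NN_series {ι : Type*} [Countable ι] {p : ℝ} (hp : 1 ≤ p) {B : Set (E n × ℝ)}
    (hB : MeasurableSet B) {F : E n × ℝ → ℝ≥0∞} (w : ι → ℝ≥0∞) (g : ι → E n → ℂ)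
    (hg : ∀ m, Integrable (g m)) (hF : ∀ x ∈ B, F x ≤ ∑' m, w m * ‖TT (g m) x‖ₑ) :
    ∫⁻ x in B, F x ^ p ≤ (∑' m, w m) ^ (p - 1) * ∑' m, w m * NN p B (g m) := by
  have hm : ∀ m, Measurable fun x => ‖TT (g m) x‖ₑ ^ p := fun m => (TT_meas (hg m)).pow_const p
  calc ∫⁻ x in B, F x ^ p
      ≤ ∫⁻ x in B, (∑' m, w m) ^ (p - 1) * ∑' m, w m * ‖TT (g m) x‖ₑ ^ p := by
        refine setLIntegral_mono' hB fun x hx => ?_
        exact (ENNReal.rpow_le_rpow (hF x hx) (by linarith)).trans (tsum_pow _ _ hp)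
    _ = (∑' m, w m) ^ (p - 1) * ∫⁻ x in B, ∑' m, w m * ‖TT (g m) x‖ₑ ^ p :=
        lintegral_const_mul _ (Measurable.tsum fun m => (hm m).const_mul _)
    _ = (∑' m, w m) ^ (p - 1) * ∑' m, w m * NN p B (g m) := by
        rw [lintegral_tsum fun m => ((hm m).const_mul _).aemeasurable]
        congr 1
        refine tsum_congr fun m => ?_
        rw [lintegral_const_mul _ (hm m)]
        rfl

/-- the multiplied functions -/
noncomputable def mul_lin (f : E n → ℂ) (v : E n) (ρ : ℝ) (m : ℕ) (ξ : E n) : ℂ :=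
  f ξ * (((inner ℝ ξ v / ρ) ^ (m + 1) : ℝ) : ℂ)

theorem mul_lin_le {f : E n → ℂ} {v : E n} {ρ : ℝ} (hρ : 0 < ρ) (hv : ‖v‖ ≤ ρ) (m : ℕ)
    (hf0 : ∀ ξ, ξ ∉ ball (0 : E n) 1 → f ξ = 0) (ξ : E n) : ‖mul_lin f v ρ m ξ‖ ≤ ‖f ξ‖ := by
  unfold mul_lin
  by_cases hξ : ξ ∈ ball (0 : E n) 1
  · rw [norm_mul, Complex.norm_real, norm_pow, norm_div, Real.norm_of_nonneg hρ.le]
    have h1 : ‖inner ℝ ξ v‖ / ρ ≤ 1 := by
      rw [div_le_one hρ]
      have h2 := norm_inner_le_norm (𝕜 := ℝ) ξ v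
      have h3 : ‖ξ‖ ≤ 1 := (mem_ball_zero_iff.1 hξ).le
      calc ‖inner ℝ ξ v‖ ≤ ‖ξ‖ * ‖v‖ := h2
        _ ≤ 1 * ρ := by gcongr
        _ = ρ := one_mul _
    calc ‖f ξ‖ * (‖inner ℝ ξ v‖ / ρ) ^ (m + 1) ≤ ‖f ξ‖ * 1 := by
          gcongr
          exact pow_le_one₀ (by positivity) h1
      _ = _ := mul_one _
  · rw [hf0 ξ hξ, zero_mul]

theorem mul_lin_meas {f : E n → ℂ} (hf : Measurable f) (v : E n) (ρ : ℝ) (m : ℕ) :
    Measurable (mul_lin f v ρ m) := by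
  unfold mul_lin
  fun_prop

theorem fact_ge (m : ℕ) : 2 ^ m ≤ (m + 1).factorial := by
  induction m with
  | zero => simp
  | succ m ih =>
    rw [Nat.factorial_succ, pow_succ, mul_comm]
    exact Nat.mul_le_mul (by omega) ih

/-- comparison of `TT f` at sheared points -/
theorem shear_series {f : E n → ℂ} (hf : Integrable f) (hfm : Measurable f)
    (hf0 : ∀ ξ, ξ ∉ ball (0 : E n) 1 → f ξ = 0) {v : E n} {ρ : ℝ} (hρ : 0 < ρ) (hv : ‖v‖ ≤ ρ)
    {x : E n × ℝ} {Y : ℝ} (hY : 4 * Real.pi * ρ * ‖x.2‖ ≤ Y) (hY1 : Y ≤ 1) :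
    ‖TT f (x.1 + (2 * x.2) • v, x.2) - TT f x‖ₑ ≤
      ∑' m : ℕ, ENNReal.ofReal Y * 2⁻¹ ^ m * ‖TT (mul_lin f v ρ m) x‖ₑ := by
  have hπ := Real.pi_pos
  set y : E n → ℝ := fun ξ => 4 * Real.pi * x.2 * inner ℝ ξ v with hy
  set G : ℕ → E n → ℂ := fun m ξ => f ξ * KP ξ x * ((Complex.I * y ξ) ^ m / m.factorial) with hG
  set Z : ℝ := 4 * Real.pi * ρ * ‖x.2‖ with hZ
  have hZ0 : 0 ≤ Z := by positivity
  have hyc : Continuous y := by rw [hy]; fun_prop
  have hyle : ∀ ξ ∈ ball (0 : E n) 1, ‖y ξ‖ ≤ Z := fun ξ hξ => by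
    have h2 := norm_inner_le_norm (𝕜 := ℝ) ξ v
    have h3 : ‖ξ‖ ≤ 1 := (mem_ball_zero_iff.1 hξ).le
    rw [hy, hZ]
    simp only
    rw [norm_mul, norm_mul, Real.norm_of_nonneg (by positivity : 0 ≤ 4 * Real.pi)]
    calc 4 * Real.pi * ‖x.2‖ * ‖inner ℝ ξ v‖ ≤ 4 * Real.pi * ‖x.2‖ * (‖ξ‖ * ‖v‖) := by gcongr
      _ ≤ 4 * Real.pi * ‖x.2‖ * (1 * ρ) := by gcongr
      _ = _ := by ring
  have hGle : ∀ m ξ, ‖G m ξ‖ ≤ ‖f ξ‖ * (Z ^ m / m.factorial) := fun m ξ => by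
    rw [hG]
    simp only
    by_cases hξ : ξ ∈ ball (0 : E n) 1
    · rw [norm_mul, norm_mul, KP_norm_eq, mul_one, norm_div, norm_pow, norm_mul, Complex.norm_I,
        one_mul, Complex.norm_real, Complex.norm_natCast]
      have := hyle ξ hξ
      gcongr
    · rw [hf0 ξ hξ]; simp
  have hGm : ∀ m, AEStronglyMeasurable (G m) := fun m => by
    rw [hG]
    have h1 : Measurable fun ξ => KP ξ x := (KP_cont_left x).measurable
    have h2 : Measurable y := hyc.measurable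
    fun_prop
  have hGi : ∀ m, Integrable (G m) := fun m =>
    (hf.norm.mul_const (Z ^ m / m.factorial)).mono' (hGm m) (Eventually.of_forall (hGle m))
  have hGs : Summable fun m => ∫ ξ, ‖G m ξ‖ := by
    refine Summable.of_nonneg_of_le (fun m => integral_nonneg fun ξ => norm_nonneg _)
      (fun m => ?_) ((Real.summable_pow_div_factorial Z).mul_left (∫ ξ, ‖f ξ‖))
    calc ∫ ξ, ‖G m ξ‖ ≤ ∫ ξ, ‖f ξ‖ * (Z ^ m / m.factorial) :=
          integral_mono (hGi m).norm (hf.norm.mul_const _) (hGle m)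
      _ = _ := integral_mul_const _ _
  have h1 := hasSum_integral_of_summable_integral_norm hGi hGs
  have h2 : ∫ ξ, ∑' m, G m ξ = TT f (x.1 + (2 * x.2) • v, x.2) := by
    unfold TT
    refine integral_congr_ae (Eventually.of_forall fun ξ => ?_)
    show ∑' m, G m ξ = f ξ * KP ξ (x.1 + (2 * x.2) • v, x.2)
    rw [hG]
    simp only
    rw [tsum_mul_left]
    have e1 : ∑' m : ℕ, (Complex.I * y ξ) ^ m / m.factorial = Complex.exp (Complex.I * y ξ) := by
      rw [Complex.exp_eq_exp_ℂ, NormedSpace.exp_eq_tsum_div]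
    rw [e1, mul_assoc]
    congr 1
    unfold KP
    rw [← Complex.exp_add]
    congr 1
    rw [hy]
    simp only
    rw [inner_add_right, inner_smul_right]
    push_cast
    ring
  have h3 : ∀ m : ℕ, ∫ ξ, G (m + 1) ξ = ((Complex.I * (4 * Real.pi * x.2 * ρ : ℝ)) ^ (m + 1) /
      (m + 1).factorial) * TT (mul_lin f v ρ m) x := fun m => by
    unfold TT
    rw [← integral_const_mul]
    refine integral_congr_ae (Eventually.of_forall fun ξ => ?_)
    show f ξ * KP ξ x * ((Complex.I * y ξ) ^ (m + 1) / (m + 1).factorial) = _ * (_ * KP ξ x)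
    unfold mul_lin
    have e1 : (y ξ : ℂ) = ((4 * Real.pi * x.2 * ρ : ℝ) : ℂ) * ((inner ℝ ξ v / ρ : ℝ) : ℂ) := by
      rw [← Complex.ofReal_mul]
      congr 1
      rw [hy]
      field_simp
    rw [e1]
    push_cast
    ring
  have h4 : ∫ ξ, G 0 ξ = TT f x := by
    unfold TT
    refine integral_congr_ae (Eventually.of_forall fun ξ => ?_)
    show f ξ * KP ξ x * ((Complex.I * y ξ) ^ 0 / (0 : ℕ).factorial) = f ξ * KP ξ x
    simp
  have h5 : TT f (x.1 + (2 * x.2) • v, x.2) - TT f x = ∑' m : ℕ, ∫ ξ, G (m + 1) ξ := by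
    have e1 := h1.summable.tsum_eq_zero_add
    rw [h1.tsum_eq, h2, h4] at e1
    rw [e1]
    ring
  rw [h5]
  refine enorm_tsum_le_tsum_enorm.trans (ENNReal.tsum_le_tsum fun m => ?_)
  rw [h3 m, enorm_mul]
  gcongr
  rw [← ofReal_norm, norm_div, norm_pow, norm_mul, Complex.norm_I, one_mul, Complex.norm_real,
    Complex.norm_natCast]
  have e1 : ‖4 * Real.pi * x.2 * ρ‖ = Z := by
    rw [norm_mul, norm_mul, Real.norm_of_nonneg (by positivity : 0 ≤ 4 * Real.pi),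
      Real.norm_of_nonneg hρ.le, hZ]
    ring
  rw [e1]
  have e2 : Z ^ (m + 1) / (m + 1).factorial ≤ Y * (2⁻¹) ^ m := by
    have hY0 : 0 ≤ Y := hZ0.trans hY
    have h6 : Z ^ (m + 1) ≤ Y := by
      calc Z ^ (m + 1) = Z * Z ^ m := pow_succ' _ _
        _ ≤ Y * 1 := by
            gcongr
            exact pow_le_one₀ hZ0 (hY.trans hY1)
        _ = Y := mul_one _
    have h7 : (2 : ℝ) ^ m ≤ (m + 1).factorial := by exact_mod_cast fact_ge m
    rw [inv_pow, ← div_eq_mul_inv]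
    gcongr
  refine (ENNReal.ofReal_le_ofReal e2).trans (le_of_eq ?_)
  rw [ENNReal.ofReal_mul (hZ0.trans hY), ENNReal.ofReal_pow (by norm_num),
    ENNReal.ofReal_inv_of_pos (by norm_num), ENNReal.ofReal_ofNat]

/-- real functions bounded by one on the ball of radius `1/2` -/
def FR (n : ℕ) (f : E n → ℂ) : Prop :=
  Measurable f ∧ (∀ ξ, ‖f ξ‖ ≤ 1) ∧ (∀ ξ, ξ ∉ ball (0 : E n) (1 / 2) → f ξ = 0) ∧
    ∀ ξ, (f ξ).im = 0

theorem FR.zero {f : E n → ℂ} (hf : FR n f) (ξ : E n) (hξ : ξ ∉ ball (0 : E n) 1) : f ξ = 0 :=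
  hf.2.2.1 ξ fun h => hξ (ball_subset_ball (by norm_num) h)

theorem FR.int {f : E n → ℂ} (hf : FR n f) : Integrable f := integrable_of_bdd hf.1 hf.2.1 hf.2.2.1

theorem FR.lin {f : E n → ℂ} (hf : FR n f) {v : E n} {ρ : ℝ} (hρ : 0 < ρ) (hv : ‖v‖ ≤ ρ) (m : ℕ) :
    FR n (mul_lin f v ρ m) := by
  refine ⟨mul_lin_meas hf.1 v ρ m, fun ξ => (mul_lin_le hρ hv m hf.zero ξ).trans (hf.2.1 ξ),
    fun ξ hξ => ?_, fun ξ => ?_⟩
  · unfold mul_lin
    rw [hf.2.2.1 ξ hξ, zero_mul]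
  · unfold mul_lin
    rw [Complex.im_mul_ofReal, hf.2.2.2 ξ, zero_mul]

/-- classes of real functions that are stable under multiplication by small linear forms -/
structure Cl (𝒞 : (E n → ℂ) → Prop) : Prop where
  real : ∀ f, 𝒞 f → FR n f
  lin : ∀ f, 𝒞 f → ∀ (v : E n) (ρ : ℝ) (m : ℕ), 0 < ρ → ‖v‖ ≤ ρ → 𝒞 (mul_lin f v ρ m)

theorem Cl.FR : Cl (FR n) := ⟨fun _ h => h, fun _ h _ _ m hρ hv => h.lin hρ hv m⟩

/-- comparison with one translation -/
theorem shift_diff {𝒞 : (E n → ℂ) → Prop} (hCl : Cl 𝒞) {p : ℝ} (hp : 1 ≤ p) {R ρ Y : ℝ}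
    (hR : 0 ≤ R) (hρ : 0 < ρ) (hρ1 : ρ ≤ 1)
    (hY : Y = 4 * Real.pi * ρ * R) (hY1 : Y ≤ 1) {D : ℝ≥0∞} (hD : ∀ f, 𝒞 f → NN p (BB n R) f ≤ D)
    {f : E n → ℂ} (hfC : 𝒞 f) {v : E n} (hv : ‖v‖ ≤ ρ) :
    ∫⁻ x in BB n R, ‖KP v x * TT f (x.1 + (2 * x.2) • v, x.2) - TT f x‖ₑ ^ p ≤
      (4 * ENNReal.ofReal Y) ^ p * D := by
  have hπ := Real.pi_pos
  have hf := hCl.real f hfC
  have hY0 : 0 ≤ Y := by rw [hY]; positivity
  have hp0 : 0 < p := by linarith
  have h1 : ∫⁻ x in BB n R, ‖TT f (x.1 + (2 * x.2) • v, x.2) - TT f x‖ₑ ^ p ≤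
      (2 * ENNReal.ofReal Y) ^ p * D := by
    have hs : ∑' m : ℕ, ENNReal.ofReal Y * 2⁻¹ ^ m = 2 * ENNReal.ofReal Y := by
      rw [ENNReal.tsum_mul_left, ENNReal.tsum_geometric, ENNReal.one_sub_inv_two, inv_inv, mul_comm]
    refine (NN_series (ι := ℕ) hp (BB_meas R) (fun m => ENNReal.ofReal Y * 2⁻¹ ^ m)
      (fun m => mul_lin f v ρ m) (fun m => (hf.lin hρ hv m).int) fun x hx => ?_).trans ?_
    · refine shear_series hf.int hf.1 hf.zero hρ hv ?_ hY1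
      have h2 : ‖x.2‖ ≤ R := (norm_snd_le x).trans (mem_closedBall_zero_iff.1 hx)
      rw [hY]
      gcongr
    · rw [hs]
      calc (2 * ENNReal.ofReal Y) ^ (p - 1) *
            ∑' m : ℕ, ENNReal.ofReal Y * 2⁻¹ ^ m * NN p (BB n R) (mul_lin f v ρ m)
          ≤ (2 * ENNReal.ofReal Y) ^ (p - 1) * ∑' m : ℕ, ENNReal.ofReal Y * 2⁻¹ ^ m * D := by
            gcongr with m
            exact hD _ (hCl.lin f hfC v ρ m hρ hv)
        _ = (2 * ENNReal.ofReal Y) ^ (p - 1) * (2 * ENNReal.ofReal Y) ^ (1 : ℝ) * D := by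
            rw [ENNReal.tsum_mul_right, hs, ENNReal.rpow_one]
            ring
        _ = _ := by
            rw [← ENNReal.rpow_add_of_nonneg _ _ (by linarith) zero_le_one]
            congr 2
            ring
  have h2 : ∀ x ∈ BB n R, ‖KP v x * TT f (x.1 + (2 * x.2) • v, x.2) - TT f x‖ₑ ^ p ≤
      2 ^ (p - 1) * (‖TT f (x.1 + (2 * x.2) • v, x.2) - TT f x‖ₑ ^ p +
        ENNReal.ofReal Y ^ p * ‖TT f x‖ₑ ^ p) := fun x hx => by
    have hx' := mem_closedBall_zero_iff.1 hx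
    have e1 : KP v x * TT f (x.1 + (2 * x.2) • v, x.2) - TT f x =
        KP v x * (TT f (x.1 + (2 * x.2) • v, x.2) - TT f x) + (KP v x - 1) * TT f x := by ring
    have e2 : ‖KP v x - 1‖ₑ ≤ ENNReal.ofReal Y := by
      rw [← ofReal_norm]
      refine ENNReal.ofReal_le_ofReal ((KP_sub_one v x).trans ?_)
      calc 2 * Real.pi * (‖v‖ * ‖x.1‖ + ‖v‖ ^ 2 * ‖x.2‖)
          ≤ 2 * Real.pi * (ρ * R + ρ * R) := by
            have e3 : ‖v‖ ^ 2 ≤ ρ := by
              calc ‖v‖ ^ 2 = ‖v‖ * ‖v‖ := sq _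
                _ ≤ ρ * 1 := by gcongr; exact hv.trans hρ1
                _ = ρ := mul_one _
            have e4 := (norm_fst_le x).trans hx'
            have e5 := (norm_snd_le x).trans hx'
            gcongr
        _ = Y := by rw [hY]; ring
    calc ‖KP v x * TT f (x.1 + (2 * x.2) • v, x.2) - TT f x‖ₑ ^ p
        ≤ (‖TT f (x.1 + (2 * x.2) • v, x.2) - TT f x‖ₑ + ENNReal.ofReal Y * ‖TT f x‖ₑ) ^ p := by
          refine ENNReal.rpow_le_rpow ?_ hp0.le
          rw [e1]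
          refine (enorm_add_le _ _).trans ?_
          rw [enorm_mul, enorm_mul, KP_enorm, one_mul]
          gcongr
      _ ≤ _ := by
          refine (ENNReal.rpow_add_le_mul_rpow_add_rpow _ _ hp).trans ?_
          rw [ENNReal.mul_rpow_of_nonneg _ _ hp0.le]
  have hc : Continuous fun x : E n × ℝ => TT f (x.1 + (2 * x.2) • v, x.2) :=
    (TT_cont hf.int).comp (by fun_prop)
  have hm : Measurable fun x : E n × ℝ => ‖TT f (x.1 + (2 * x.2) • v, x.2) - TT f x‖ₑ ^ p :=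
    ((hc.sub (TT_cont hf.int)).measurable.enorm).pow_const p
  calc ∫⁻ x in BB n R, ‖KP v x * TT f (x.1 + (2 * x.2) • v, x.2) - TT f x‖ₑ ^ p
      ≤ ∫⁻ x in BB n R, 2 ^ (p - 1) * (‖TT f (x.1 + (2 * x.2) • v, x.2) - TT f x‖ₑ ^ p +
        ENNReal.ofReal Y ^ p * ‖TT f x‖ₑ ^ p) := setLIntegral_mono' (BB_meas R) h2
    _ = 2 ^ (p - 1) * ((∫⁻ x in BB n R, ‖TT f (x.1 + (2 * x.2) • v, x.2) - TT f x‖ₑ ^ p) +
        ENNReal.ofReal Y ^ p * NN p (BB n R) f) := by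
        rw [lintegral_const_mul' _ _ (by simp), lintegral_add_left hm,
          lintegral_const_mul' _ _ (ENNReal.rpow_ne_top_of_nonneg hp0.le ENNReal.ofReal_ne_top)]
        rfl
    _ ≤ 2 ^ (p - 1) * ((2 * ENNReal.ofReal Y) ^ p * D + (2 * ENNReal.ofReal Y) ^ p * D) := by
        gcongr
        · calc ENNReal.ofReal Y = 1 * ENNReal.ofReal Y := (one_mul _).symm
            _ ≤ 2 * ENNReal.ofReal Y := by gcongr; norm_num
        · exact hD f hfC
    _ = (4 * ENNReal.ofReal Y) ^ p * D := by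
        rw [← two_mul, ← mul_assoc, ← mul_assoc]
        congr 1
        calc (2 : ℝ≥0∞) ^ (p - 1) * 2 * (2 * ENNReal.ofReal Y) ^ p
            = (2 : ℝ≥0∞) ^ (p - 1) * 2 ^ (1 : ℝ) * (2 * ENNReal.ofReal Y) ^ p := by
              rw [ENNReal.rpow_one]
          _ = 2 ^ p * (2 * ENNReal.ofReal Y) ^ p := by
              rw [← ENNReal.rpow_add_of_nonneg _ _ (by linarith) zero_le_one]
              congr 2; ring
          _ = _ := by
              rw [← ENNReal.mul_rpow_of_nonneg _ _ hp0.le]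
              congr 1
              rw [← mul_assoc]
              norm_num

/-- Jensen's inequality for a probability measure -/
theorem jensen {α : Type*} [MeasurableSpace α] {μ : Measure α} [IsProbabilityMeasure μ] {p : ℝ}
    (hp : 1 ≤ p) {F : α → ℝ≥0∞} (hF : AEMeasurable F μ) :
    (∫⁻ a, F a ∂μ) ^ p ≤ ∫⁻ a, F a ^ p ∂μ := by
  have hp0 : 0 < p := by linarith
  rcases eq_or_lt_of_le hp with rfl | hp1
  · simp
  have hpq := Real.HolderConjugate.conjExponent hp1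
  have h1 := ENNReal.lintegral_mul_le_Lp_mul_Lq μ hpq hF (g := fun _ => 1) aemeasurable_const
  simp only [Pi.mul_apply, mul_one, ENNReal.one_rpow, lintegral_const, measure_univ] at h1
  calc (∫⁻ a, F a ∂μ) ^ p ≤ ((∫⁻ a, F a ^ p ∂μ) ^ (1 / p)) ^ p := ENNReal.rpow_le_rpow h1 hp0.le
    _ = _ := by rw [← ENNReal.rpow_mul, one_div, inv_mul_cancel₀ hp0.ne', ENNReal.rpow_one]

/-- averages over translations -/
noncomputable def avg (μ : Measure (E n)) (f : E n → ℂ) (ξ : E n) : ℂ := ∫ v, f (ξ - v) ∂μ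

theorem TT_avg {μ : Measure (E n)} [IsProbabilityMeasure μ] {f : E n → ℂ} (hfm : Measurable f)
    (hf : Integrable f) (x : E n × ℝ) :
    TT (avg μ f) x = ∫ v, KP v x * TT f (x.1 + (2 * x.2) • v, x.2) ∂μ := by
  unfold TT avg
  have h1 : ∀ ξ, (∫ v, f (ξ - v) ∂μ) * KP ξ x = ∫ v, f (ξ - v) * KP ξ x ∂μ := fun ξ => by
    rw [integral_mul_const]
  simp only [h1]
  have hmeas : Measurable (Function.uncurry fun (ξ v : E n) => f (ξ - v) * KP ξ x) := by
    have e1 : Measurable fun z : E n × E n => f (z.1 - z.2) :=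
      hfm.comp (measurable_fst.sub measurable_snd)
    have e2 : Measurable fun z : E n × E n => KP z.1 x :=
      (KP_cont_left x).measurable.comp measurable_fst
    exact e1.mul e2
  have hint : Integrable (Function.uncurry fun (ξ v : E n) => f (ξ - v) * KP ξ x)
      (volume.prod μ) := by
    rw [integrable_prod_iff' hmeas.aestronglyMeasurable]
    refine ⟨Eventually.of_forall fun v => TT_int (hf.comp_sub_right v) x, ?_⟩
    have e1 : ∀ v, ∫ ξ, ‖Function.uncurry (fun (ξ v : E n) => f (ξ - v) * KP ξ x) (ξ, v)‖ =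
        ∫ ξ, ‖f ξ‖ := fun v => by
      have e2 : ∀ ξ, ‖Function.uncurry (fun (ξ v : E n) => f (ξ - v) * KP ξ x) (ξ, v)‖ =
          ‖f (ξ - v)‖ := fun ξ => by
        show ‖f (ξ - v) * KP ξ x‖ = _
        rw [norm_mul, KP_norm_eq, mul_one]
      simp only [e2]
      exact integral_sub_right_eq_self (fun ξ => ‖f ξ‖) v
    simp only [e1]
    exact integrable_const _
  rw [integral_integral_swap hint]
  refine integral_congr_ae (Eventually.of_forall fun v => ?_)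
  exact TT_shift f v x

/-- comparison of a function with its average -/
theorem avg_diff {𝒞 : (E n → ℂ) → Prop} (hCl : Cl 𝒞) {p : ℝ} (hp : 1 ≤ p) {R ρ Y : ℝ}
    (hR : 0 ≤ R) (hρ : 0 < ρ) (hρ1 : ρ ≤ 1)
    (hY : Y = 4 * Real.pi * ρ * R) (hY1 : Y ≤ 1) {D : ℝ≥0∞} (hD : ∀ f, 𝒞 f → NN p (BB n R) f ≤ D)
    {f : E n → ℂ} (hfC : 𝒞 f) {μ : Measure (E n)} [IsProbabilityMeasure μ]
    (hμ : ∀ᵐ v ∂μ, ‖v‖ ≤ ρ) :
    ∫⁻ x in BB n R, ‖TT (avg μ f) x - TT f x‖ₑ ^ p ≤ (4 * ENNReal.ofReal Y) ^ p * D := by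
  have hp0 : 0 < p := by linarith
  have hf := hCl.real f hfC
  set G : E n × ℝ → E n → ℂ := fun x v => KP v x * TT f (x.1 + (2 * x.2) • v, x.2) - TT f x with hG
  have hGc : Continuous (Function.uncurry G) := by
    have e1 : Continuous fun z : (E n × ℝ) × E n => KP z.2 z.1 := by unfold KP; fun_prop
    have e2 : Continuous fun z : (E n × ℝ) × E n =>
        TT f (z.1.1 + (2 * z.1.2) • z.2, z.1.2) := (TT_cont hf.int).comp (by fun_prop)
    have e3 : Continuous fun z : (E n × ℝ) × E n => TT f z.1 :=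
      (TT_cont hf.int).comp continuous_fst
    exact (e1.mul e2).sub e3
  have hle : ∀ x, ‖TT (avg μ f) x - TT f x‖ₑ ^ p ≤ ∫⁻ v, ‖G x v‖ₑ ^ p ∂μ := fun x => by
    have hKT : Integrable (fun v => KP v x * TT f (x.1 + (2 * x.2) • v, x.2)) μ := by
      have e1 : Continuous fun v : E n => KP v x * TT f (x.1 + (2 * x.2) • v, x.2) :=
        (KP_cont_left x).mul ((TT_cont hf.int).comp (by fun_prop))
      refine Integrable.of_bound e1.aestronglyMeasurable (∫ ξ, ‖f ξ‖) (Eventually.of_forall fun v => ?_)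
      rw [norm_mul, KP_norm_eq, one_mul]
      refine (norm_integral_le_integral_norm _).trans (le_of_eq ?_)
      refine integral_congr_ae (Eventually.of_forall fun ξ => ?_)
      show ‖f ξ * KP ξ _‖ = ‖f ξ‖
      rw [norm_mul, KP_norm_eq, mul_one]
    have e1 : TT (avg μ f) x - TT f x = ∫ v, G x v ∂μ := by
      rw [TT_avg hf.1 hf.int, hG]
      simp only
      rw [integral_sub hKT (integrable_const _), integral_const]
      simp
    rw [e1]
    refine (ENNReal.rpow_le_rpow (enorm_integral_le_lintegral_enorm _) hp0.le).trans ?_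
    refine jensen hp ?_
    exact (hGc.comp (by fun_prop : Continuous fun v : E n => (x, v))).measurable.enorm.aemeasurable
  calc ∫⁻ x in BB n R, ‖TT (avg μ f) x - TT f x‖ₑ ^ p
      ≤ ∫⁻ x in BB n R, ∫⁻ v, ‖G x v‖ₑ ^ p ∂μ := lintegral_mono fun x => hle x
    _ = ∫⁻ v, (∫⁻ x in BB n R, ‖G x v‖ₑ ^ p) ∂μ := by
        refine lintegral_lintegral_swap ?_
        exact (hGc.measurable.enorm.pow_const p).aemeasurable
    _ ≤ ∫⁻ _, (4 * ENNReal.ofReal Y) ^ p * D ∂μ := by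
        refine lintegral_mono_ae ?_
        filter_upwards [hμ] with v hv
        exact shift_diff hCl hp hR hρ hρ1 hY hY1 hD hfC hv
    _ = _ := by rw [lintegral_const, measure_univ, mul_one]

/-- **Reduction to averages.** -/
theorem avg_reduce_gen {𝒞 : (E n → ℂ) → Prop} (hCl : Cl 𝒞) {p : ℝ} (hp : 1 ≤ p) {R ρ : ℝ}
    (hR : 1 ≤ R) (hρ : ρ = 1 / (32 * Real.pi * R))
    {μ : Measure (E n)} [IsProbabilityMeasure μ] (hμ : ∀ᵐ v ∂μ, ‖v‖ ≤ ρ)
    (hμi : ∀ f, 𝒞 f → Integrable (avg μ f)) {S : ℝ≥0∞}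
    (hS : ∀ f, 𝒞 f → NN p (BB n R) (avg μ f) ≤ S) {f : E n → ℂ} (hf : 𝒞 f) :
    NN p (BB n R) f ≤ 2 ^ p * S := by
  have hp0 : 0 < p := by linarith
  have hπ := Real.pi_pos
  have hπ3 := Real.pi_gt_three
  have hρ0 : 0 < ρ := by rw [hρ]; positivity
  have hρ1 : ρ ≤ 1 := by
    rw [hρ, div_le_one (by positivity)]
    nlinarith
  have hY : (1 / 8 : ℝ) = 4 * Real.pi * ρ * R := by
    rw [hρ]; field_simp; norm_num
  set D : ℝ≥0∞ := ⨆ f : {f // 𝒞 f}, NN p (BB n R) f.1 with hD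
  have hDf : ∀ f, 𝒞 f → NN p (BB n R) f ≤ D := fun f hf =>
    le_iSup (fun f : {f // 𝒞 f} => NN p (BB n R) f.1) ⟨f, hf⟩
  have hDt : D ≠ ∞ := by
    have h1 : D ≤ (volume (ball (0 : E n) (1 / 2))) ^ p * volume (BB n R) := iSup_le fun f =>
      NN_triv hp0.le _ _ (lint_le (hCl.real f.1 f.2).2.1 measurableSet_ball
        (hCl.real f.1 f.2).2.2.1)
    refine ne_top_of_le_ne_top ?_ h1
    exact ENNReal.mul_ne_top (ENNReal.rpow_ne_top_of_nonneg hp0.le measure_ball_lt_top.ne)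
      measure_closedBall_lt_top.ne
  have h1 : D ≤ 2 ^ (p - 1) * S + 2⁻¹ * D := by
    refine iSup_le fun f => ?_
    have hfC := f.2
    have hf := hCl.real f.1 f.2
    set g := avg μ f.1 with hg
    have hgi := hμi f.1 hfC
    have h2 := NN_add' hp (BB n R) hgi (hf.int.sub hgi)
    have h3 : (fun ξ => g ξ + (f.1 - g) ξ) = f.1 := by
      funext ξ
      show g ξ + (f.1 ξ - g ξ) = f.1 ξ
      ring
    rw [h3] at h2
    refine h2.trans ?_
    rw [mul_add]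
    refine add_le_add (by gcongr; exact hS f.1 hfC) ?_
    have h4 : NN p (BB n R) (f.1 - g) = ∫⁻ x in BB n R, ‖TT g x - TT f.1 x‖ₑ ^ p := by
      unfold NN
      refine lintegral_congr fun x => ?_
      have e1 : TT (f.1 - g) x = TT f.1 x - TT g x := TT_sub hf.int hgi x
      rw [e1, ← enorm_neg, neg_sub]
    rw [h4]
    have h5 := avg_diff hCl hp (by linarith) hρ0 hρ1 hY (by norm_num) hDf hfC hμ
    calc 2 ^ (p - 1) * ∫⁻ x in BB n R, ‖TT g x - TT f.1 x‖ₑ ^ p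
        ≤ 2 ^ (p - 1) * ((4 * ENNReal.ofReal (1 / 8)) ^ p * D) := by gcongr
      _ = 2⁻¹ * D := by
          have e1 : (4 * ENNReal.ofReal (1 / 8) : ℝ≥0∞) = 2⁻¹ := by
            rw [← ENNReal.ofReal_ofNat, ← ENNReal.ofReal_mul (by norm_num)]
            have e2 : (4 : ℝ) * (1 / 8) = 2⁻¹ := by norm_num
            rw [e2, ENNReal.ofReal_inv_of_pos (by norm_num), ENNReal.ofReal_ofNat]
          rw [e1, ← mul_assoc]
          congr 1
          rw [ENNReal.inv_rpow, ENNReal.rpow_sub _ _ (by norm_num) (by norm_num),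
            ENNReal.rpow_one, ENNReal.div_eq_inv_mul, mul_assoc,
            ENNReal.mul_inv_cancel (by simp) (by simp), mul_one]
  have h2 : 2⁻¹ * D ≤ 2 ^ (p - 1) * S := by
    have e1 : 2⁻¹ * D + 2⁻¹ * D = D := by rw [← add_mul, ENNReal.inv_two_add_inv_two, one_mul]
    have e2 : 2⁻¹ * D + 2⁻¹ * D ≤ 2 ^ (p - 1) * S + 2⁻¹ * D := by rw [e1]; exact h1
    exact (ENNReal.add_le_add_iff_right (ENNReal.mul_ne_top (by simp) hDt)).1 e2
  calc NN p (BB n R) f ≤ D := hDf f hf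
    _ = 2 * (2⁻¹ * D) := by
        rw [← mul_assoc, ENNReal.mul_inv_cancel (by norm_num) (by norm_num), one_mul]
    _ ≤ 2 * (2 ^ (p - 1) * S) := by gcongr
    _ = 2 ^ p * S := by
        rw [← mul_assoc]
        congr 1
        calc (2 : ℝ≥0∞) * 2 ^ (p - 1) = 2 ^ (1 : ℝ) * 2 ^ (p - 1) := by rw [ENNReal.rpow_one]
          _ = 2 ^ p := by
              rw [← ENNReal.rpow_add_of_nonneg _ _ zero_le_one (by linarith)]
              congr 1; ring

/-- reduction to averages, for all real functions -/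
theorem avg_reduce {p : ℝ} (hp : 1 ≤ p) {R ρ : ℝ} (hR : 1 ≤ R) (hρ : ρ = 1 / (32 * Real.pi * R))
    {μ : Measure (E n)} [IsProbabilityMeasure μ] (hμ : ∀ᵐ v ∂μ, ‖v‖ ≤ ρ)
    (hμi : ∀ f, FR n f → Integrable (avg μ f)) {S : ℝ≥0∞}
    (hS : ∀ f, FR n f → NN p (BB n R) (avg μ f) ≤ S) {f : E n → ℂ} (hf : FR n f) :
    NN p (BB n R) f ≤ 2 ^ p * S := avg_reduce_gen Cl.FR hp hR hρ hμ hμi hS hf

end Pool.Agent.H222.ER
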