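import Pool.Agent.H222.ER.Orth
import Pool.Agent.H222.ER.Cover

/-!
The `L¹` norm of exponential sums over the paraboloid.
-/

open MeasureTheory Set Filter Metric
open scoped ENNReal NNReal Topology

namespace Pool.Agent.H222.ER

open Pool.Agent.Helper184.PH

variable {n : ℕ}

theorem LL_mono {N N' R : ℝ} (hN' : 1 ≤ N') (hN : N' ≤ N) (hR : 1 ≤ R) :
    LL n N' R ≤ LL n N R := by
  have hN1 : 1 ≤ N := hN'.trans hN
  have h1 : 1 / rad n N' R ≤ 1 / rad n N R := by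
    unfold rad
    rw [one_div_one_div, one_div_one_div]
    gcongr
  have h2 : ∀ M : ℝ, M ^ 4 / rad n M R ^ (2 * n) = M ^ 4 * (1 / rad n M R) ^ (2 * n) := fun M => by
    rw [div_pow, one_pow, mul_one_div]
  have h3 : 0 < 1 / rad n N' R := one_div_pos.2 (rad_pos hN' hR)
  unfold LL
  rw [h2, h2]
  gcongr

theorem LL_le {N R : ℝ} (hN : 1 ≤ N) (hR : 1 ≤ R) :
    LL n N R ≤ (7 * 2 ^ (n + 5) * N * R) ^ (2 * n + 6) := by
  set A : ℝ := 2 ^ (n + 5) * N * R with hA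
  have hA1 : 1 ≤ A := by
    have h1 : (1 : ℝ) ≤ 2 ^ (n + 5) := one_le_pow₀ (by norm_num)
    exact one_le_mul_of_one_le_of_one_le (one_le_mul_of_one_le_of_one_le h1 hN) hR
  have hr : 1 / rad n N R = A := by unfold rad; rw [one_div_one_div]
  have hNA : N ≤ A := by
    have h1 : (1 : ℝ) ≤ 2 ^ (n + 5) * R := one_le_mul_of_one_le_of_one_le
      (one_le_pow₀ (by norm_num)) hR
    calc N = N * 1 := (mul_one _).symm
      _ ≤ N * (2 ^ (n + 5) * R) := by gcongr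
      _ = A := by rw [hA]; ring
  have h2 : N ^ 4 / rad n N R ^ (2 * n) = N ^ 4 * A ^ (2 * n) := by
    rw [← hr, div_pow, one_pow, mul_one_div]
  have h3 : LL n N R = N * (A + 6 * (N ^ 4 * A ^ (2 * n))) := by
    unfold LL; rw [hr, h2]
  have hA0 : 0 ≤ A := by linarith
  have h4 : A ≤ A ^ (2 * n + 4) := le_self_pow₀ hA1 (by omega)
  rw [h3]
  calc N * (A + 6 * (N ^ 4 * A ^ (2 * n))) ≤ A * (A ^ (2 * n + 4) + 6 * (A ^ 4 * A ^ (2 * n))) := by
        gcongr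
    _ = 7 * A ^ (2 * n + 5) := by ring
    _ ≤ 7 ^ (2 * n + 6) * A ^ (2 * n + 6) := by
        gcongr
        · calc (7 : ℝ) = 7 ^ 1 := by norm_num
            _ ≤ 7 ^ (2 * n + 6) := pow_le_pow_right₀ (by norm_num) (by omega)
        · omega
    _ = _ := by rw [← mul_pow]; congr 1; rw [hA]; ring

/-- sparse unions of clusters -/
theorem sparse_bound (hn : 1 ≤ n) {p q : ℝ} (hpq : p.HolderConjugate q) (hp : 2 ≤ p)
    (hL : HL n p 3) {ε : ℝ} (hε : 0 < ε) :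
    ∃ K : ℝ≥0∞, K ≠ ∞ ∧ ∀ (X : Finset (E n × ℝ)), (∀ x ∈ X, ∀ y ∈ X, x ≠ y → 1 ≤ dist x y) →
      ∀ (N : ℝ), (X.card : ℝ) ≤ N → ∀ R : ℝ≥0, 1 ≤ R → ∀ cl : E n × ℝ → E n × ℝ,
      (∀ x ∈ X, ‖x - cl x‖ ≤ R) →
      (∀ x ∈ X, ∀ x' ∈ X, cl x ≠ cl x' → LL n N R ≤ ‖cl x - cl x'‖) →
      ∀ a : E n × ℝ → ℂ, (∀ x, ‖a x‖ ≤ 1) →
        ∫⁻ ξ in ball (0 : E n) 1, ‖ES X a ξ‖ₑ ≤
          K * (R : ℝ≥0∞) ^ ε * (X.card : ℝ≥0∞) ^ (1 / q) := by
  classical
  have hp0 : 0 < p := by linarith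
  have hq1 : 1 < q := hpq.symm.lt
  have hq0 : 0 < q := by linarith
  have hq2 : q ≤ 2 := by
    have h1 := hpq.inv_add_inv_eq_one
    have h2 : p⁻¹ ≤ 2⁻¹ := inv_anti₀ (by norm_num) hp
    have h3 : (2 : ℝ)⁻¹ ≤ q⁻¹ := by linarith
    exact (inv_le_inv₀ (by norm_num) hq0).1 h3
  obtain ⟨C, hCt, hC⟩ := strong_loc hp hL (ε := p * ε) (by positivity)
  set v : ℝ≥0∞ := volume (closedBall (0 : E n × ℝ) (1 / 80)) with hv
  have hv0 : v ≠ 0 := (measure_closedBall_pos _ _ (by norm_num)).ne'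
  set C' : ℝ≥0∞ := 2 ^ p * (v⁻¹ * (C * 2 ^ (p * ε))) with hC'
  have hC't : C' ≠ ∞ := ENNReal.mul_ne_top (by simp) (ENNReal.mul_ne_top (ENNReal.inv_ne_top.2 hv0)
    (ENNReal.mul_ne_top hCt (by simp)))
  set c₀ : ℝ≥0∞ := ENNReal.ofReal (Real.exp (-Real.pi)) * volume (ball (0 : E n) 1) with hc₀
  have hc₀0 : c₀ ≠ 0 := by
    refine mul_ne_zero ?_ (measure_ball_pos _ _ one_pos).ne'
    have := Real.exp_pos (-Real.pi)
    simpa using this
  have hc₀t : c₀ ≠ ∞ := ENNReal.mul_ne_top ENNReal.ofReal_ne_top measure_ball_lt_top.ne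
  set V : ℝ≥0∞ := volume (ball (0 : E n) 2) with hV
  have hVt : V ≠ ∞ := measure_ball_lt_top.ne
  set K : ℝ≥0∞ := c₀⁻¹ * (V ^ (1 / p) * C' ^ (1 / p) + 2 * V) with hK
  have hKt : K ≠ ∞ := ENNReal.mul_ne_top (ENNReal.inv_ne_top.2 hc₀0) (ENNReal.add_ne_top.2
    ⟨ENNReal.mul_ne_top (ENNReal.rpow_ne_top_of_nonneg (by positivity) hVt)
      (ENNReal.rpow_ne_top_of_nonneg (by positivity) hC't), ENNReal.mul_ne_top (by simp) hVt⟩)
  refine ⟨K, hKt, fun X hX N hXN R hR cl hcl hsep a ha => ?_⟩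
  rcases Nat.eq_zero_or_pos X.card with h0 | h0
  · rw [Finset.card_eq_zero] at h0
    rw [h0]
    simp [ES]
  have hR1 : (1 : ℝ) ≤ R := by exact_mod_cast hR
  have hR1' : (1 : ℝ≥0∞) ≤ R := by exact_mod_cast hR
  have hcard1 : (1 : ℝ) ≤ X.card := by exact_mod_cast h0
  set M₀ : ℝ≥0∞ := C' * (R : ℝ≥0∞) ^ (p * ε) with hM₀
  -- the estimate in one cluster
  have hM : ∀ y ∈ X.image cl, ∫⁻ ζ in ball (0 : E n) 2, ‖hh X cl a y ζ‖ₑ ^ q ≤
      M₀ ^ (q / p) * (X.filter (fun x => cl x = y)).card := by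
    intro y hy
    set Z : Finset (E n × ℝ) := (X.filter (fun x => cl x = y)).image (fun x => x - y) with hZ
    have hinj : Function.Injective fun x : E n × ℝ => x - y := fun x x' h => by
      simpa using h
    have hZcard : Z.card = (X.filter (fun x => cl x = y)).card := Finset.card_image_of_injective _ hinj
    have hZB : ∀ z ∈ Z, z ∈ BB n R := fun z hz => by
      obtain ⟨x, hx, rfl⟩ := Finset.mem_image.1 hz
      obtain ⟨hxX, hxy⟩ := Finset.mem_filter.1 hx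
      rw [mem_closedBall_zero_iff, ← hxy]
      exact hcl x hxX
    have hZsep : ∀ x ∈ Z, ∀ y ∈ Z, x ≠ y → 1 ≤ dist x y := fun z hz z' hz' hne => by
      obtain ⟨x, hx, rfl⟩ := Finset.mem_image.1 hz
      obtain ⟨x', hx', rfl⟩ := Finset.mem_image.1 hz'
      rw [dist_sub_right]
      exact hX x (Finset.mem_filter.1 hx).1 x' (Finset.mem_filter.1 hx').1
        fun h => hne (by rw [h])
    have hES : ∀ ζ, hh X cl a y ζ = ES Z (fun z => a (z + y)) ζ := fun ζ => by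
      unfold hh ES
      rw [hZ, Finset.sum_image fun x _ x' _ h => hinj h]
      refine Finset.sum_congr rfl fun x _ => ?_
      show _ = a (x - y + y) * KP ζ (x - y)
      rw [sub_add_cancel]
    have h1 : ∀ g, Cls n p g → ∑ x ∈ Z, ‖TT g x‖ₑ ^ p ≤ M₀ := fun g hg => by
      have hb : ∀ g, Cls n p g → NN p (BB n ((R : ℝ) + 1)) g ≤
          C * 2 ^ (p * ε) * (R : ℝ≥0∞) ^ (p * ε) := fun g hg => by
        have h2 := hC (R + 1) (le_add_left le_rfl) g hg.1 hg.2.1 hg.2.2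
        push_cast at h2
        refine h2.trans ?_
        rw [mul_assoc, ← ENNReal.mul_rpow_of_nonneg _ _ (by positivity)]
        gcongr
        calc (R : ℝ≥0∞) + 1 ≤ R + R := by gcongr
          _ = 2 * R := (two_mul _).symm
      have h3 := loc_const (by linarith : 1 ≤ p) hb hZB hZsep hg
      refine h3.trans (le_of_eq ?_)
      rw [hM₀, hC']
      ring
    have h2 := dual hpq h1 (a := fun z => a (z + y)) fun z => ha _
    simp only [← hES] at h2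
    rw [hZcard] at h2
    exact h2
  have h1 := clusters hn hpq hq2 (X := X) (Y := X.image cl) (cl := cl)
    (fun x hx => Finset.mem_image_of_mem _ hx) hR1 hcl ha h0 (fun y hy y' hy' hne => by
      obtain ⟨x, hx, rfl⟩ := Finset.mem_image.1 hy
      obtain ⟨x', hx', rfl⟩ := Finset.mem_image.1 hy'
      exact (LL_mono hcard1 hXN hR1).trans (hsep x hx x' hx' hne)) hM
  have hcard1' : (1 : ℝ≥0∞) ≤ X.card := by exact_mod_cast h0
  have h2 : V ^ (1 / p) * (M₀ ^ (q / p) * X.card) ^ (1 / q) + 2 * V ≤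
      (V ^ (1 / p) * C' ^ (1 / p) + 2 * V) * (R : ℝ≥0∞) ^ ε * (X.card : ℝ≥0∞) ^ (1 / q) := by
    have hRε : 1 ≤ (R : ℝ≥0∞) ^ ε := ENNReal.one_le_rpow hR1' hε
    have hNq : 1 ≤ (X.card : ℝ≥0∞) ^ (1 / q) := ENNReal.one_le_rpow hcard1' (by positivity)
    have e1 : (M₀ ^ (q / p) * (X.card : ℝ≥0∞)) ^ (1 / q) =
        C' ^ (1 / p) * (R : ℝ≥0∞) ^ ε * (X.card : ℝ≥0∞) ^ (1 / q) := by
      rw [ENNReal.mul_rpow_of_nonneg _ _ (by positivity), ← ENNReal.rpow_mul,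
        show q / p * (1 / q) = 1 / p by field_simp, hM₀,
        ENNReal.mul_rpow_of_nonneg _ _ (by positivity), ← ENNReal.rpow_mul,
        show p * ε * (1 / p) = ε by field_simp]
    rw [e1, add_mul, add_mul]
    refine add_le_add (le_of_eq (by ring)) ?_
    calc 2 * V = 2 * V * 1 * 1 := by rw [mul_one, mul_one]
      _ ≤ _ := by gcongr
  calc ∫⁻ ξ in ball (0 : E n) 1, ‖ES X a ξ‖ₑ
      = c₀⁻¹ * (c₀ * ∫⁻ ξ in ball (0 : E n) 1, ‖ES X a ξ‖ₑ) := by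
        rw [← mul_assoc, ENNReal.inv_mul_cancel hc₀0 hc₀t, one_mul]
    _ ≤ c₀⁻¹ * ((V ^ (1 / p) * C' ^ (1 / p) + 2 * V) * (R : ℝ≥0∞) ^ ε *
          (X.card : ℝ≥0∞) ^ (1 / q)) := by
        exact mul_le_mul' le_rfl (h1.trans h2)
    _ = _ := by rw [hK]; ring

end Pool.Agent.H222.ER
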