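import Pool.Agent.H222.ER.Restr

/-!
The local estimate from `L^p` to `L^p`.
-/

open MeasureTheory Set Filter Metric
open scoped ENNReal NNReal Topology

namespace Pool.Agent.H222.ER

open Pool.Agent.Helper184.PH

variable {n : ℕ}

/-- the part of `g` where `|g| < 2^n` -/
noncomputable def low (g : E n → ℂ) (m : ℕ) : E n → ℂ := {x | ‖g x‖ < 2 ^ m}.indicator g

/-- the part of `g` where `2^n ≤ |g| < 2^(n+1)` -/
noncomputable def mid (g : E n → ℂ) (m : ℕ) : E n → ℂ :=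
  {x | 2 ^ m ≤ ‖g x‖ ∧ ‖g x‖ < 2 ^ (m + 1)}.indicator g

/-- the part of `g` where `2^n ≤ |g|` -/
noncomputable def high (g : E n → ℂ) (m : ℕ) : E n → ℂ := {x | ‖g x‖ < 2 ^ m}ᶜ.indicator g

theorem low_meas {g : E n → ℂ} (hg : Measurable g) (m : ℕ) : Measurable (low g m) :=
  hg.indicator (measurableSet_lt hg.norm measurable_const)

theorem mid_meas {g : E n → ℂ} (hg : Measurable g) (m : ℕ) : Measurable (mid g m) :=
  hg.indicator ((measurableSet_le measurable_const hg.norm).inter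
    (measurableSet_lt hg.norm measurable_const))

theorem high_meas {g : E n → ℂ} (hg : Measurable g) (m : ℕ) : Measurable (high g m) :=
  hg.indicator (measurableSet_lt hg.norm measurable_const).compl

theorem low_le (g : E n → ℂ) (m : ℕ) (x : E n) : ‖low g m x‖ ≤ 2 ^ m := by
  unfold low
  by_cases hx : ‖g x‖ < 2 ^ m
  · rw [indicator_of_mem (by exact hx)]; exact hx.le
  · rw [indicator_of_notMem (by exact hx), norm_zero]; positivity

theorem mid_le (g : E n → ℂ) (m : ℕ) (x : E n) : ‖mid g m x‖ ≤ 2 ^ (m + 1) := by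
  unfold mid
  by_cases hx : 2 ^ m ≤ ‖g x‖ ∧ ‖g x‖ < 2 ^ (m + 1)
  · rw [indicator_of_mem (by exact hx)]; exact hx.2.le
  · rw [indicator_of_notMem (by exact hx), norm_zero]; positivity

theorem low_succ (g : E n → ℂ) (m : ℕ) : low g (m + 1) = fun x => low g m x + mid g m x := by
  funext x
  unfold low mid
  have h2 : (2 : ℝ) ^ m ≤ 2 ^ (m + 1) := pow_le_pow_right₀ (by norm_num) (by omega)
  by_cases h1 : ‖g x‖ < 2 ^ m
  · rw [indicator_of_mem (show x ∈ {x | ‖g x‖ < 2 ^ (m + 1)} from h1.trans_le h2),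
      indicator_of_mem (show x ∈ {x | ‖g x‖ < 2 ^ m} from h1),
      indicator_of_notMem (fun h => absurd h.1 (not_le.2 h1)), add_zero]
  · rw [indicator_of_notMem (show x ∉ {x | ‖g x‖ < 2 ^ m} from h1), zero_add]
    by_cases h3 : ‖g x‖ < 2 ^ (m + 1)
    · rw [indicator_of_mem (show x ∈ {x | ‖g x‖ < 2 ^ (m + 1)} from h3),
        indicator_of_mem (show x ∈ {x | 2 ^ m ≤ ‖g x‖ ∧ ‖g x‖ < 2 ^ (m + 1)} from
          ⟨not_lt.1 h1, h3⟩)]
    · rw [indicator_of_notMem (show x ∉ {x | ‖g x‖ < 2 ^ (m + 1)} from h3),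
        indicator_of_notMem (fun h => absurd h.2 h3)]

theorem high_lint {g : E n → ℂ} {p : ℝ} (hp : 2 ≤ p) (m : ℕ) :
    ∫⁻ x, ‖high g m x‖ₑ ≤ ((2 : ℝ≥0∞) ^ m)⁻¹ * ∫⁻ x, ‖g x‖ₑ ^ p := by
  have h2 : ((2 : ℝ≥0∞) ^ m)⁻¹ ≠ ∞ := ENNReal.inv_ne_top.2 (by positivity)
  rw [← lintegral_const_mul' _ _ h2]
  refine lintegral_mono fun x => ?_
  unfold high
  by_cases hx : ‖g x‖ < 2 ^ m
  · rw [indicator_of_notMem (show x ∉ {x | ‖g x‖ < 2 ^ m}ᶜ from fun h => h hx)]; simp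
  · rw [indicator_of_mem (show x ∈ {x | ‖g x‖ < 2 ^ m}ᶜ from hx)]
    have h3 : (2 : ℝ≥0∞) ^ m ≤ ‖g x‖ₑ := by
      rw [← ofReal_norm, show (2 : ℝ≥0∞) = ENNReal.ofReal 2 by simp,
        ← ENNReal.ofReal_pow (by norm_num)]
      exact ENNReal.ofReal_le_ofReal (not_lt.1 hx)
    have h1 : (1 : ℝ≥0∞) ≤ ‖g x‖ₑ := le_trans (one_le_pow₀ (by norm_num)) h3
    have h4 : ‖g x‖ₑ * ‖g x‖ₑ ≤ ‖g x‖ₑ ^ p := by
      calc ‖g x‖ₑ * ‖g x‖ₑ = ‖g x‖ₑ ^ (2 : ℝ) := by
            rw [show (2 : ℝ) = ((2 : ℕ) : ℝ) by norm_num, ENNReal.rpow_natCast, sq]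
        _ ≤ ‖g x‖ₑ ^ p := ENNReal.rpow_le_rpow_of_exponent_le h1 hp
    calc ‖g x‖ₑ = ((2 : ℝ≥0∞) ^ m)⁻¹ * ((2 : ℝ≥0∞) ^ m * ‖g x‖ₑ) := by
          rw [← mul_assoc, ENNReal.inv_mul_cancel (by positivity) (by simp), one_mul]
      _ ≤ ((2 : ℝ≥0∞) ^ m)⁻¹ * ‖g x‖ₑ ^ p := by
          gcongr
          refine le_trans ?_ h4
          gcongr

theorem strong_loc {p : ℝ} (hp : 2 ≤ p) (hL : HL n p 3) {ε : ℝ} (hε : 0 < ε) :
    ∃ C : ℝ≥0∞, C ≠ ∞ ∧ ∀ R : ℝ≥0, 1 ≤ R → ∀ g : E n → ℂ, Measurable g →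
      (∀ x, x ∉ ball (0 : E n) 2 → g x = 0) → ∫⁻ x, ‖g x‖ₑ ^ p ≤ 1 →
      NN p (BB n R) g ≤ C * (R : ℝ≥0∞) ^ ε := by
  have hp0 : 0 < p := by linarith
  have hp1 : 1 ≤ p := by linarith
  have hpi : 0 ≤ 1 / p := by positivity
  have hn0 : (0 : ℝ) ≤ n := Nat.cast_nonneg n
  set δ : ℝ := min (1 / 2) (ε / (1 + p * ((n : ℝ) + 1))) with hδ
  have hden : 0 < 1 + p * ((n : ℝ) + 1) := by positivity
  have hδ0 : 0 < δ := lt_min (by norm_num) (by positivity)
  have hδ1 : δ < 1 := (min_le_left _ _).trans_lt (by norm_num)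
  have hδ2 : δ * (1 + p * ((n : ℝ) + 1)) ≤ ε := by
    have h1 : δ ≤ ε / (1 + p * ((n : ℝ) + 1)) := min_le_right _ _
    rwa [le_div_iff₀ hden] at h1
  obtain ⟨C, hCt, hC⟩ := restricted hp hL hδ0 hδ1
  obtain ⟨C₀, hC₀⟩ := hL δ hδ0
  set x : ℝ≥0∞ := ENNReal.ofReal ((2 : ℝ) ^ δ) with hx
  have hx1 : 1 < (2 : ℝ) ^ δ := Real.one_lt_rpow (by norm_num) hδ0
  have hxt : x ≠ ∞ := ENNReal.ofReal_ne_top
  set s : ℝ≥0∞ := ENNReal.ofReal ((2 : ℝ) ^ δ - 1) with hs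
  have hs0 : s ≠ 0 := by
    rw [hs]; simpa using hx1
  have hst : s ≠ ∞ := ENNReal.ofReal_ne_top
  have hxs : x = 1 + s := by
    rw [hx, hs, ← ENNReal.ofReal_one, ← ENNReal.ofReal_add zero_le_one (by linarith)]
    congr 1; ring
  set D₀ : ℝ≥0∞ := (C₀ : ℝ≥0∞) ^ (1 / p) + 2 * C ^ (1 / p) * s⁻¹ with hD₀
  have hD₀t : D₀ ≠ ∞ := ENNReal.add_ne_top.2
    ⟨ENNReal.rpow_ne_top_of_nonneg hpi ENNReal.coe_ne_top,
      ENNReal.mul_ne_top (ENNReal.mul_ne_top (by simp) (ENNReal.rpow_ne_top_of_nonneg hpi hCt))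
        (ENNReal.inv_ne_top.2 hs0)⟩
  set V : ℝ≥0∞ := volume (ball (0 : E n × ℝ) 1) with hV
  have hVt : V ≠ ∞ := measure_ball_lt_top.ne
  set D : ℝ≥0∞ := (D₀ * 2 ^ δ + V ^ (1 / p)) ^ p with hD
  have hDt : D ≠ ∞ := ENNReal.rpow_ne_top_of_nonneg hp0.le (ENNReal.add_ne_top.2
    ⟨ENNReal.mul_ne_top hD₀t (by simp), ENNReal.rpow_ne_top_of_nonneg hpi hVt⟩)
  refine ⟨D, hDt, fun R hR g hg hg0 hgq => ?_⟩
  have hR1 : (1 : ℝ≥0∞) ≤ R := by exact_mod_cast hR
  have hR0' : (R : ℝ≥0∞) ≠ 0 := (lt_of_lt_of_le one_pos hR1).ne'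
  have hRt : (R : ℝ≥0∞) ≠ ∞ := ENNReal.coe_ne_top
  have hlow0 : ∀ m x, x ∉ ball (0 : E n) 2 → low g m x = 0 := fun m x hx => by
    unfold low; exact indicator_apply_eq_zero.2 fun _ => hg0 x hx
  have hmid0 : ∀ m x, x ∉ ball (0 : E n) 2 → mid g m x = 0 := fun m x hx => by
    unfold mid; exact indicator_apply_eq_zero.2 fun _ => hg0 x hx
  have hlowi : ∀ m, Integrable (low g m) := fun m =>
    integrable_of_bdd (low_meas hg m) (low_le g m) (hlow0 m)
  have hmidi : ∀ m, Integrable (mid g m) := fun m =>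
    integrable_of_bdd (mid_meas hg m) (mid_le g m) (hmid0 m)
  -- one piece
  have hmid : ∀ m, NN p (BB n R) (mid g m) ^ (1 / p) ≤
      2 * C ^ (1 / p) * (R : ℝ≥0∞) ^ (δ / p) * x ^ m := fun m => by
    set A : Set (E n) := ball (0 : E n) 2 ∩ {x | 2 ^ m ≤ ‖g x‖ ∧ ‖g x‖ < 2 ^ (m + 1)} with hA
    have hAm : MeasurableSet A := measurableSet_ball.inter
      ((measurableSet_le measurable_const hg.norm).inter
        (measurableSet_lt hg.norm measurable_const))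
    set a : ℝ≥0 := (2 : ℝ≥0) ^ (-(m * p)) with ha
    have ha0 : 0 < a := NNReal.rpow_pos (by norm_num)
    have ha1 : a ≤ 1 := by
      apply NNReal.coe_le_coe.1
      rw [ha, NNReal.coe_rpow]
      exact Real.rpow_le_one_of_one_le_of_nonpos (by norm_num)
        (by simp only [Left.neg_nonpos_iff]; positivity)
    have hAa : volume A ≤ a := by
      have e1 : (2 : ℝ≥0∞) ^ (m * p) * volume A ≤ 1 := by
        calc (2 : ℝ≥0∞) ^ (m * p) * volume A = ∫⁻ x in A, (2 : ℝ≥0∞) ^ (m * p) := by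
              rw [setLIntegral_const]
          _ ≤ ∫⁻ x in A, ‖g x‖ₑ ^ p := by
              refine setLIntegral_mono' hAm fun x hx => ?_
              rw [ENNReal.rpow_mul, ENNReal.rpow_natCast]
              refine ENNReal.rpow_le_rpow ?_ hp0.le
              have := hx.2.1
              rw [← ofReal_norm, show (2 : ℝ≥0∞) = ENNReal.ofReal 2 by simp,
                ← ENNReal.ofReal_pow (by norm_num)]
              exact ENNReal.ofReal_le_ofReal this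
          _ ≤ ∫⁻ x, ‖g x‖ₑ ^ p := setLIntegral_le_lintegral _ _
          _ ≤ 1 := hgq
      have e2 : (a : ℝ≥0∞) = ((2 : ℝ≥0∞) ^ (m * p))⁻¹ := by
        rw [ha, ENNReal.coe_rpow_of_ne_zero (by norm_num), ENNReal.rpow_neg]
        norm_num
      rw [e2]
      rw [ENNReal.le_inv_iff_mul_le, mul_comm]
      exact e1
    have h1 := LI_scale hp0.le (O := A) (B := BB n R) (fun f hf hf1 hfA =>
      hC R hR A hAm inter_subset_left a ha0 ha1 hAa f hf hf1 hfA) (M := 2 ^ (m + 1)) (by positivity)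
      (mid_meas hg m) (mid_le g m) (fun x hx => by
        by_cases hxb : x ∈ ball (0 : E n) 2
        · unfold mid
          exact indicator_of_notMem (fun h => hx ⟨hxb, h⟩) _
        · exact hmid0 m x hxb)
    calc NN p (BB n R) (mid g m) ^ (1 / p)
        ≤ (ENNReal.ofReal (2 ^ (m + 1)) ^ p *
            (C * (R : ℝ≥0∞) ^ δ * (a : ℝ≥0∞) ^ (1 - δ))) ^ (1 / p) :=
          ENNReal.rpow_le_rpow h1 hpi
      _ = ENNReal.ofReal (2 ^ (m + 1)) * (C ^ (1 / p) * (R : ℝ≥0∞) ^ (δ * (1 / p)) *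
            (a : ℝ≥0∞) ^ ((1 - δ) * (1 / p))) := by
          rw [ENNReal.mul_rpow_of_nonneg _ _ hpi, ENNReal.mul_rpow_of_nonneg _ _ hpi,
            ENNReal.mul_rpow_of_nonneg _ _ hpi, ← ENNReal.rpow_mul, ← ENNReal.rpow_mul,
            ← ENNReal.rpow_mul, mul_one_div_cancel hp0.ne', ENNReal.rpow_one]
      _ = C ^ (1 / p) * (R : ℝ≥0∞) ^ (δ / p) *
            (ENNReal.ofReal (2 ^ (m + 1)) * (a : ℝ≥0∞) ^ ((1 - δ) * (1 / p))) := by
          rw [show δ * (1 / p) = δ / p by ring]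
          ring
      _ = C ^ (1 / p) * (R : ℝ≥0∞) ^ (δ / p) * (2 * x ^ m) := by
          congr 1
          rw [ha, ENNReal.coe_rpow_of_ne_zero (by norm_num), ← ENNReal.rpow_mul,
            show ((2 : ℝ≥0) : ℝ≥0∞) = ENNReal.ofReal 2 by simp,
            ENNReal.ofReal_rpow_of_pos (by norm_num), ← ENNReal.ofReal_mul (by positivity), hx,
            ← ENNReal.ofReal_pow (by positivity),
            show (2 : ℝ≥0∞) = ENNReal.ofReal 2 by simp, ← ENNReal.ofReal_mul (by positivity)]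
          congr 1
          rw [← Real.rpow_natCast, ← Real.rpow_natCast, ← Real.rpow_mul (by norm_num),
            ← Real.rpow_add (by norm_num)]
          nth_rewrite 2 [← Real.rpow_one (2 : ℝ)]
          rw [← Real.rpow_add (by norm_num)]
          congr 1
          push_cast
          field_simp
          ring
      _ = _ := by ring
  -- the sum
  have hlow : ∀ m, NN p (BB n R) (low g m) ^ (1 / p) ≤ D₀ * (R : ℝ≥0∞) ^ (δ / p) * x ^ m :=
    fun m => by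
    induction m with
    | zero =>
      have h1 : NN p (BB n R) (low g 0) ≤ C₀ * (R : ℝ≥0∞) ^ δ := by
        refine hC₀ R hR _ (low_meas hg 0) (fun x => ?_) fun x hx => ?_
        · simpa using low_le g 0 x
        · exact hlow0 0 x fun h => hx (ball_subset_ball (by norm_num) h)
      calc NN p (BB n R) (low g 0) ^ (1 / p) ≤ (C₀ * (R : ℝ≥0∞) ^ δ) ^ (1 / p) :=
            ENNReal.rpow_le_rpow h1 hpi
        _ = (C₀ : ℝ≥0∞) ^ (1 / p) * (R : ℝ≥0∞) ^ (δ / p) := by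
            rw [ENNReal.mul_rpow_of_nonneg _ _ hpi, ← ENNReal.rpow_mul,
              show δ * (1 / p) = δ / p by ring]
        _ ≤ D₀ * (R : ℝ≥0∞) ^ (δ / p) := by
            gcongr
            exact le_self_add
        _ = _ := by rw [pow_zero, mul_one]
    | succ m ih =>
      rw [low_succ]
      refine (NN_add hp1 _ (hlowi m) (hmidi m)).trans ((add_le_add ih (hmid m)).trans ?_)
      have h1 : 2 * C ^ (1 / p) ≤ D₀ * s := by
        rw [hD₀, add_mul, mul_assoc (2 * C ^ (1 / p)), ENNReal.inv_mul_cancel hs0 hst, mul_one]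
        exact le_add_self
      calc D₀ * (R : ℝ≥0∞) ^ (δ / p) * x ^ m + 2 * C ^ (1 / p) * (R : ℝ≥0∞) ^ (δ / p) * x ^ m
          ≤ D₀ * (R : ℝ≥0∞) ^ (δ / p) * x ^ m + D₀ * s * (R : ℝ≥0∞) ^ (δ / p) * x ^ m := by
            gcongr
        _ = D₀ * (R : ℝ≥0∞) ^ (δ / p) * (x ^ m * (1 + s)) := by ring
        _ = _ := by rw [← hxs, pow_succ]
  -- the choice of the level
  obtain ⟨m₀, hm1, hm2⟩ := exists_nat_pow_near (x := (R : ℝ) ^ (n + 1)) (y := 2)
    (one_le_pow₀ (by exact_mod_cast hR)) (by norm_num)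
  set m := m₀ + 1 with hm
  have hlowm : NN p (BB n R) (low g m) ^ (1 / p) ≤ D₀ * 2 ^ δ * (R : ℝ≥0∞) ^ (ε / p) := by
    refine (hlow m).trans ?_
    have e1 : x ^ m ≤ 2 ^ δ * (R : ℝ≥0∞) ^ (((n : ℝ) + 1) * δ) := by
      have e2 : x ^ m = ENNReal.ofReal ((2 : ℝ) ^ m) ^ δ := by
        rw [hx, ← ENNReal.ofReal_pow (by positivity), ENNReal.ofReal_rpow_of_pos (by positivity)]
        congr 1
        rw [← Real.rpow_natCast, ← Real.rpow_natCast, ← Real.rpow_mul (by norm_num),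
          ← Real.rpow_mul (by norm_num), mul_comm]
      have e3 : ENNReal.ofReal ((2 : ℝ) ^ m) ≤ 2 * (R : ℝ≥0∞) ^ ((n : ℝ) + 1) := by
        have e4 : (2 : ℝ≥0∞) * (R : ℝ≥0∞) ^ ((n : ℝ) + 1) = ENNReal.ofReal (2 * (R : ℝ) ^ (n + 1)) := by
          rw [ENNReal.ofReal_mul (by norm_num), ENNReal.ofReal_pow R.coe_nonneg,
            ENNReal.ofReal_coe_nnreal, ← ENNReal.rpow_natCast]
          push_cast
          simp
        rw [e4]
        apply ENNReal.ofReal_le_ofReal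
        rw [hm, pow_succ]
        linarith
      rw [e2]
      calc ENNReal.ofReal ((2 : ℝ) ^ m) ^ δ ≤ (2 * (R : ℝ≥0∞) ^ ((n : ℝ) + 1)) ^ δ :=
            ENNReal.rpow_le_rpow e3 hδ0.le
        _ = _ := by rw [ENNReal.mul_rpow_of_nonneg _ _ hδ0.le, ← ENNReal.rpow_mul]
    calc D₀ * (R : ℝ≥0∞) ^ (δ / p) * x ^ m
        ≤ D₀ * (R : ℝ≥0∞) ^ (δ / p) * (2 ^ δ * (R : ℝ≥0∞) ^ (((n : ℝ) + 1) * δ)) := by gcongr
      _ = D₀ * 2 ^ δ * (R : ℝ≥0∞) ^ (δ / p + ((n : ℝ) + 1) * δ) := by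
          rw [ENNReal.rpow_add _ _ hR0' hRt]; ring
      _ ≤ D₀ * 2 ^ δ * (R : ℝ≥0∞) ^ (ε / p) := by
          gcongr
          have : δ / p + ((n : ℝ) + 1) * δ = δ * (1 + p * ((n : ℝ) + 1)) / p := by
            field_simp
          rw [this]
          gcongr
  have hgi : Integrable g := by
    refine ⟨hg.aestronglyMeasurable, ?_⟩
    have e1 : ∀ x, ‖g x‖ₑ ≤ (ball (0 : E n) 2).indicator (fun _ => (1 : ℝ≥0∞)) x + ‖g x‖ₑ ^ p :=
      fun x => by
        by_cases hx : x ∈ ball (0 : E n) 2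
        · rw [indicator_of_mem hx]
          rcases le_total ‖g x‖ₑ 1 with h | h
          · exact h.trans le_self_add
          · calc ‖g x‖ₑ = ‖g x‖ₑ ^ (1 : ℝ) := (ENNReal.rpow_one _).symm
              _ ≤ ‖g x‖ₑ ^ p := ENNReal.rpow_le_rpow_of_exponent_le h hp1
              _ ≤ _ := le_add_self
        · rw [hg0 x hx]; simp
    refine (lintegral_mono e1).trans_lt ?_
    rw [lintegral_add_left (measurable_const.indicator measurableSet_ball),
      lintegral_indicator measurableSet_ball, setLIntegral_one]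
    exact ENNReal.add_lt_top.2 ⟨measure_ball_lt_top, hgq.trans_lt ENNReal.one_lt_top⟩
  have hhi : Integrable (high g m) := by
    unfold high
    exact hgi.indicator (measurableSet_lt hg.norm measurable_const).compl
  have hhigh : NN p (BB n R) (high g m) ≤ V := by
    have e1 : ∫⁻ x, ‖high g m x‖ₑ ≤ ((2 : ℝ≥0∞) ^ m)⁻¹ := by
      refine (high_lint hp m).trans ?_
      calc ((2 : ℝ≥0∞) ^ m)⁻¹ * ∫⁻ x, ‖g x‖ₑ ^ p ≤ ((2 : ℝ≥0∞) ^ m)⁻¹ * 1 := by gcongr
        _ = _ := mul_one _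
    refine (NN_triv hp0.le _ _ e1).trans ?_
    rw [vol_BB, ← mul_assoc]
    calc (((2 : ℝ≥0∞) ^ m)⁻¹) ^ p * (R : ℝ≥0∞) ^ ((n : ℝ) + 1) * V
        ≤ ((2 : ℝ≥0∞) ^ m)⁻¹ * (2 : ℝ≥0∞) ^ m * V := by
          gcongr
          · calc (((2 : ℝ≥0∞) ^ m)⁻¹) ^ p ≤ (((2 : ℝ≥0∞) ^ m)⁻¹) ^ (1 : ℝ) :=
                ENNReal.rpow_le_rpow_of_exponent_ge
                  (ENNReal.inv_le_one.2 (one_le_pow₀ (by norm_num))) hp1
              _ = _ := ENNReal.rpow_one _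
          · have e4 : (R : ℝ≥0∞) ^ ((n : ℝ) + 1) = ENNReal.ofReal ((R : ℝ) ^ (n + 1)) := by
              rw [ENNReal.ofReal_pow R.coe_nonneg, ENNReal.ofReal_coe_nnreal,
                ← ENNReal.rpow_natCast]
              push_cast
              rfl
            rw [e4, show (2 : ℝ≥0∞) = ENNReal.ofReal 2 by simp,
              ← ENNReal.ofReal_pow (by norm_num)]
            exact ENNReal.ofReal_le_ofReal hm2.le
      _ = V := by rw [ENNReal.inv_mul_cancel (by positivity) (by simp), one_mul]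
  have hsum : g = fun x => low g m x + high g m x := by
    funext x
    unfold low high
    rw [indicator_self_add_compl_apply]
  have hfin : NN p (BB n R) g ^ (1 / p) ≤ (D₀ * 2 ^ δ + V ^ (1 / p)) * (R : ℝ≥0∞) ^ (ε / p) := by
    conv_lhs => rw [hsum]
    refine (NN_add hp1 _ (hlowi m) hhi).trans ?_
    rw [add_mul]
    refine add_le_add hlowm ?_
    calc NN p (BB n R) (high g m) ^ (1 / p) ≤ V ^ (1 / p) := ENNReal.rpow_le_rpow hhigh hpi
      _ = V ^ (1 / p) * 1 := (mul_one _).symm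
      _ ≤ V ^ (1 / p) * (R : ℝ≥0∞) ^ (ε / p) := by
          gcongr
          exact ENNReal.one_le_rpow hR1 (by positivity)
  calc NN p (BB n R) g = (NN p (BB n R) g ^ (1 / p)) ^ p := by
        rw [← ENNReal.rpow_mul, one_div_mul_cancel hp0.ne', ENNReal.rpow_one]
    _ ≤ ((D₀ * 2 ^ δ + V ^ (1 / p)) * (R : ℝ≥0∞) ^ (ε / p)) ^ p :=
        ENNReal.rpow_le_rpow hfin hp0.le
    _ = D * (R : ℝ≥0∞) ^ ε := by
        rw [ENNReal.mul_rpow_of_nonneg _ _ hp0.le, ← ENNReal.rpow_mul, div_mul_cancel₀ _ hp0.ne']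

end Pool.Agent.H222.ER
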